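import Pool.Agent.Helper92.EO.OBase
import Pool.Agent.Helper4.PC.CT

/-!
# EO-O1: the band limited kernel

PROOF. Let `f y = max 0 (1 - 2 |y|)` (supported in `[-1/2, 1/2]`, Lipschitz) and `c = ∫ f² > 0`, `W x = c⁻¹ ∫ f y * f (y + x) dy` (autocorrelation):
`W ≥ 0`, `W 0 = 1`, `W` is supported in `[-1, 1]`, even, and continuously differentiable (`W' x = c⁻¹ ∫ f y * f' (y + x) dy`, or write `W` as the
convolution `f ⋆ f` (`f` is even) and use that `f` is Lipschitz; an explicit piecewise cubic formula is also possible: `W x = 1 - 6 x² + 6 |x|³` for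
`|x| ≤ 1/2`, `W x = 2 (1 - |x|)³` for `1/2 ≤ |x| ≤ 1`, `W x = 0` for `|x| ≥ 1`; this explicit formula is probably the easiest definition: `W` is `C¹`
(even `C²`), `W ≥ 0`, `W ≥ 1/4` on `[-1/2, 1/2]`).
`w u = ∫ W x e(x u) dx = (3/4) sinc(π u / 2)^4`, `sinc t = sin t / t`: direct computation (integrate by parts, `W''` is piecewise linear), or:
any `w := Re 𝓕 W`; `w ≥ 0` because it is a square. `|w u| ≤ 1` and `|w u| ≤ C u^(-4)` give the decay; Fourier inversion (Mathlib:
`Continuous.fourierInv_fourier_eq` or `MeasureTheory.Integrable.fourierInv_fourier_eq`, `W` and `w` are integrable and continuous) gives `four`; `int_one` is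
`four` at `x = 0` (`W 0 = 1`).
You may choose any other kernel: e.g. `f` a smooth bump (`ContDiffBump`) supported in `[-1/2,1/2]`, `w = c |𝓕 f|²`, with Schwartz decay.

The proof below uses a smooth bump.
-/

open MeasureTheory Real Set Filter Topology

set_option autoImplicit false

namespace Pool.Agent.Helper92.EO

open Pool.Agent.Helper22.AE
open Pool.Agent.Helper4.PC (CT CT_int CT_cont CT_even fourier_eq_CT CT_CT)
open scoped ContDiff FourierTransform

private theorem supp_h36 {r : ℝ → ℝ} {a : ℝ} (h : ∀ x, a ≤ |x| → r x = 0) : HasCompactSupport r := by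
  apply HasCompactSupport.intro (isCompact_Icc (a := -a) (b := a))
  intro x hx
  apply h
  by_contra hc
  push Not at hc
  exact hx ⟨(abs_lt.1 hc).1.le, (abs_lt.1 hc).2.le⟩

/-- a smooth band limited kernel with rapid decay -/
theorem exists_ker_smooth : ∃ w W : ℝ → ℝ, Continuous w ∧ (∀ u, 0 ≤ w u) ∧ (∀ u, w (-u) = w u) ∧
    (∀ n : ℕ, ∃ C : ℝ, ∀ u, |u| ^ n * w u ≤ C) ∧ Integrable w ∧ ∫ u, w u = 1 ∧
    (∀ x : ℝ, ∫ u : ℝ, ((w u : ℝ) : ℂ) * ee (-(x * u)) = ((W x : ℝ) : ℂ)) ∧
    ContDiff ℝ ∞ W ∧ (∀ x, 1 ≤ |x| → W x = 0) ∧ (∀ x, 0 ≤ W x) ∧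
    ∃ c : ℝ, 0 < c ∧ ∀ x, |x| ≤ 1 / 2 → c ≤ W x := by
  let b : ContDiffBump (0 : ℝ) := ⟨1 / 4, 1 / 2, by norm_num, by norm_num⟩
  obtain ⟨g, hg⟩ : ∃ g : ℝ → ℝ, g = fun x => b x := ⟨_, rfl⟩
  have hgs : ContDiff ℝ ∞ g := by
    rw [hg]
    exact b.contDiff
  have hgc : Continuous g := hgs.continuous
  have hge : ∀ x, g (-x) = g x := by
    intro x
    rw [hg]
    exact b.neg x
  have hg0 : ∀ x, 0 ≤ g x := by
    intro x
    rw [hg]
    exact b.nonneg
  have hgpos : ∀ x, |x| < 1 / 2 → 0 < g x := by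
    intro x hx
    rw [hg]
    apply b.pos_of_mem_ball
    rw [Metric.mem_ball, Real.dist_eq, sub_zero]
    exact hx
  have hgz : ∀ x, 1 / 2 ≤ |x| → g x = 0 := by
    intro x hx
    rw [hg]
    apply b.zero_of_le_dist
    rw [Real.dist_eq, sub_zero]
    exact hx
  have hgcs : HasCompactSupport g := supp_h36 hgz
  have hgi : Integrable g := hgc.integrable_of_hasCompactSupport hgcs
  set r : ℝ → ℝ := fun y => ∫ x, g x * g (y - x) with hr
  have hconv : r = MeasureTheory.convolution g g (ContinuousLinearMap.mul ℝ ℝ) volume := by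
    funext y
    rfl
  have hrs : ContDiff ℝ ∞ r := by
    rw [hconv]
    exact hgcs.contDiff_convolution_right _ hgc.locallyIntegrable hgs
  have hre : ∀ y, r (-y) = r y := by
    intro y
    simp only [hr]
    rw [← integral_neg_eq_self]
    congr 1
    funext x
    rw [hge, show -y - -x = -(y - x) by ring, hge]
  have hrz : ∀ y, 1 ≤ |y| → r y = 0 := by
    intro y hy
    simp only [hr]
    have : (fun x => g x * g (y - x)) = fun _ => 0 := by
      funext x
      by_cases hx : 1 / 2 ≤ |x|
      · rw [hgz x hx, zero_mul]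
      · push Not at hx
        rw [hgz (y - x), mul_zero]
        have := abs_sub_abs_le_abs_sub y x
        linarith
    rw [this, integral_zero]
  have hr0 : ∀ y, 0 ≤ r y := by
    intro y
    simp only [hr]
    exact integral_nonneg fun x => mul_nonneg (hg0 _) (hg0 _)
  have hrpos : ∀ y, |y| < 1 → 0 < r y := by
    intro y hy
    have hc1 : Continuous fun x => g x * g (y - x) := by fun_prop
    have hc2 : HasCompactSupport fun x => g x * g (y - x) := hgcs.mul_right
    refine hc1.integral_pos_of_hasCompactSupport_nonneg_nonzero hc2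
      (fun x => mul_nonneg (hg0 _) (hg0 _)) (x := y / 2) ?_
    have h1 : |y / 2| < 1 / 2 := by
      rw [abs_div, abs_two]
      linarith
    have h2 : y - y / 2 = y / 2 := by ring
    show g (y / 2) * g (y - y / 2) ≠ 0
    rw [h2]
    exact (mul_pos (hgpos _ h1) (hgpos _ h1)).ne'
  have hsin : ∀ u : ℝ, ∫ x, g x * Real.sin (2 * Real.pi * u * x) = 0 := by
    intro u
    have h1 : ∫ x, g x * Real.sin (2 * Real.pi * u * x)
        = -∫ x, g x * Real.sin (2 * Real.pi * u * x) := by
      conv_lhs => rw [← integral_neg_eq_self]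
      rw [← integral_neg]
      congr 1
      funext x
      rw [hge, mul_neg, Real.sin_neg, mul_neg]
    linarith
  have hCT : ∀ u, CT r u = CT g u ^ 2 := by
    intro u
    have hF : Integrable (Function.uncurry fun (y x : ℝ) => g x * g (y - x) *
        Real.cos (2 * Real.pi * u * y)) (volume.prod volume) := by
      apply Continuous.integrable_of_hasCompactSupport
      · unfold Function.uncurry
        fun_prop
      · apply HasCompactSupport.intro
          ((isCompact_Icc (a := -(1 : ℝ)) (b := 1)).prod (isCompact_Icc (a := -(1 / 2 : ℝ)) (b := 1 / 2)))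
        intro z hz
        change g z.2 * g (z.1 - z.2) * Real.cos (2 * Real.pi * u * z.1) = 0
        by_cases hx : 1 / 2 ≤ |z.2|
        · rw [hgz _ hx, zero_mul, zero_mul]
        · push Not at hx
          have hz1 : 1 ≤ |z.1| := by
            by_contra hc
            push Not at hc
            exact hz ⟨⟨(abs_lt.1 hc).1.le, (abs_lt.1 hc).2.le⟩,
              ⟨(abs_lt.1 hx).1.le, (abs_lt.1 hx).2.le⟩⟩
          rw [hgz (z.1 - z.2), mul_zero, zero_mul]
          have := abs_sub_abs_le_abs_sub z.1 z.2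
          linarith
    have h1 : CT r u = ∫ y, ∫ x, g x * g (y - x) * Real.cos (2 * Real.pi * u * y) := by
      unfold CT
      congr 1
      funext y
      simp only [hr]
      rw [integral_mul_const]
    rw [h1, integral_integral_swap hF]
    have h2 : ∀ x, ∫ y, g x * g (y - x) * Real.cos (2 * Real.pi * u * y)
        = g x * Real.cos (2 * Real.pi * u * x) * CT g u := by
      intro x
      have h3 : ∫ y, g x * g (y - x) * Real.cos (2 * Real.pi * u * y)
          = ∫ y, g x * g y * Real.cos (2 * Real.pi * u * (y + x)) := by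
        rw [← integral_sub_right_eq_self
          (fun y => g x * g y * Real.cos (2 * Real.pi * u * (y + x))) x]
        congr 1
        funext y
        rw [sub_add_cancel]
      rw [h3]
      have h4 : ∀ y, g x * g y * Real.cos (2 * Real.pi * u * (y + x))
          = g x * Real.cos (2 * Real.pi * u * x) * (g y * Real.cos (2 * Real.pi * u * y))
            - g x * Real.sin (2 * Real.pi * u * x) * (g y * Real.sin (2 * Real.pi * u * y)) := by
        intro y
        rw [mul_add, Real.cos_add]
        ring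
      simp only [h4]
      rw [integral_sub, integral_const_mul, integral_const_mul, hsin, mul_zero, sub_zero]
      · rfl
      · exact (CT_int hgi u).const_mul _
      · apply Integrable.const_mul
        exact (hgc.mul (by fun_prop)).integrable_of_hasCompactSupport hgcs.mul_right
    simp only [h2]
    rw [integral_mul_const, pow_two]
    rfl
  -- the kernel
  have hr00 : 0 < r 0 := hrpos 0 (by norm_num)
  set W : ℝ → ℝ := fun x => (r 0)⁻¹ * r x with hW
  have hWs : ContDiff ℝ ∞ W := contDiff_const.mul hrs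
  have hWc : Continuous W := hWs.continuous
  have hWe : ∀ x, W (-x) = W x := fun x => by
    simp only [hW]
    rw [hre]
  have hWz : ∀ x, 1 ≤ |x| → W x = 0 := fun x hx => by
    simp only [hW]
    rw [hrz x hx, mul_zero]
  have hWn : ∀ x, 0 ≤ W x := fun x => mul_nonneg (inv_nonneg.2 hr00.le) (hr0 x)
  have hWpos : ∀ x, |x| < 1 → 0 < W x := fun x hx => mul_pos (inv_pos.2 hr00) (hrpos x hx)
  have hWcs : HasCompactSupport W := supp_h36 hWz
  have hWi : Integrable W := hWc.integrable_of_hasCompactSupport hWcs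
  have hW0 : W 0 = 1 := by
    simp only [hW]
    exact inv_mul_cancel₀ hr00.ne'
  have hCW : ∀ u, CT W u = (r 0)⁻¹ * CT g u ^ 2 := by
    intro u
    rw [← hCT]
    exact Pool.Agent.Helper4.PC.CT_const_mul _ _ _
  -- the Schwartz function
  have hcs : HasCompactSupport (fun x => ((W x : ℝ) : ℂ)) := hWcs.comp_left Complex.ofReal_zero
  have hsm : ContDiff ℝ ∞ (fun x => ((W x : ℝ) : ℂ)) := Complex.ofRealCLM.contDiff.comp hWs
  set F : SchwartzMap ℝ ℂ := hcs.toSchwartzMap hsm with hF
  have hFF : ∀ u, (𝓕 F) u = ((CT W u : ℝ) : ℂ) := by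
    intro u
    have h1 : (𝓕 F : SchwartzMap ℝ ℂ) u = 𝓕 (F : ℝ → ℂ) u := by
      rw [SchwartzMap.fourier_coe]
    rw [h1]
    exact fourier_eq_CT hWi hWe u
  have hint : Integrable (CT W) := by
    have h1 : Integrable (fun u => (𝓕 F) u) := (𝓕 F).integrable
    have h2 := h1.re
    refine h2.congr (Eventually.of_forall fun u => ?_)
    show RCLike.re ((𝓕 F) u) = CT W u
    rw [hFF]
    exact Complex.ofReal_re _
  have hinv := CT_CT hWc hWi hWe hint
  refine ⟨CT W, W, CT_cont hWi, ?_, CT_even W, ?_, hint, ?_, ?_, hWs, hWz, hWn, ?_⟩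
  · intro u
    rw [hCW]
    positivity
  · intro n
    obtain ⟨C, _, hC⟩ := (𝓕 F).decay n 0
    refine ⟨C, fun u => ?_⟩
    have h1 := hC u
    rw [norm_iteratedFDeriv_zero, hFF, Complex.norm_real, Real.norm_eq_abs, Real.norm_eq_abs] at h1
    exact (mul_le_mul_of_nonneg_left (le_abs_self _) (by positivity)).trans h1
  · have h1 := hinv 0
    rw [hW0] at h1
    rw [← h1]
    unfold CT
    simp
  · intro x
    have h1 := fourier_eq_CT hint (CT_even W) x
    rw [hinv, Real.fourier_real_eq_integral_exp_smul] at h1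
    rw [← h1]
    congr 1
    funext u
    rw [smul_eq_mul, mul_comm]
    unfold ee
    congr 3
    push_cast
    ring
  · obtain ⟨x0, hx0, hmin⟩ := (isCompact_Icc (a := (-(1 / 2) : ℝ)) (b := 1 / 2)).exists_isMinOn
      ⟨0, by norm_num, by norm_num⟩ hWc.continuousOn
    refine ⟨W x0, hWpos x0 ?_, fun x hx => hmin (abs_le.1 hx)⟩
    have : |x0| ≤ 1 / 2 := abs_le.2 hx0
    linarith

theorem exists_ker : ∃ w W : ℝ → ℝ, IsKer w W := by
  obtain ⟨w, W, h1, h2, _, h4, _, h6, h7, h8, h9, h10, h11⟩ := exists_ker_smooth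
  refine ⟨w, W, h1, h2, ?_, h6, h7, h8.of_le (by exact_mod_cast le_top), h9, h10, h11⟩
  obtain ⟨C0, hC0⟩ := h4 0
  obtain ⟨C2, hC2⟩ := h4 2
  obtain ⟨C4, hC4⟩ := h4 4
  refine ⟨C0 + 2 * C2 + C4, fun u => ?_⟩
  have e0 := hC0 u
  have e2 := hC2 u
  have e4 := hC4 u
  rw [pow_zero, one_mul] at e0
  rw [sq_abs] at e2
  have h5 : |u| ^ 4 = u ^ 4 := by
    rw [show (4 : ℕ) = 2 * 2 by norm_num, pow_mul, sq_abs, ← pow_mul]
  rw [h5] at e4
  have e : w u * (1 + u ^ 2) ^ 2 = w u + 2 * (u ^ 2 * w u) + u ^ 4 * w u := by ring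
  rw [e]
  linarith

end Pool.Agent.Helper92.EO
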