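import Pool.Agent.Helper92.EO.OBase

/-!
# EO-O5: lattice sums over `0 < |k| ≤ M`

PROOFS. `mem_kset`: `nk k ≤ M` implies `|k.1|, |k.2| ≤ M ≤ ⌈M⌉₊`. `kset_card`: `(2 ⌈M⌉₊ + 1)² ≤ (2 M + 3)² ≤ 25 M²`.
`lat_upper`: `nk k ≥ max |k.1| |k.2|`, so for `k ≠ 0`: `nk k ^ (-3/2) ≤ (max |k.1| 1)^(-3/4) (max |k.2| 1)^(-3/4)`; the sum over the box is at most
`(∑_{|j| ≤ N} (max |j| 1)^(-3/4))² ≤ (1 + 8 N^(1/4))²`, `N = ⌈M⌉₊ ≤ 2M` (`∑_{j ≤ N} j^(-3/4) ≤ 4 N^(1/4)` by induction).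
`lat_lower`: the points `(a, b)`, `1 ≤ a, b ≤ M/2`, are in `kset M` (`nk k ≤ |a| + |b| ≤ M`), there are `⌊M/2⌋₊² ≥ M²/16` of them (`M ≥ 2`) and each term is
at least `M^(-3/2)`.
-/

open MeasureTheory Real Set Filter Topology

set_option autoImplicit false

namespace Pool.Agent.Helper92.EO

open Pool.Agent.Helper22.AE

private theorem l53_1 (k : ℤ × ℤ) : |(k.1 : ℝ)| ≤ nk k := Complex.abs_re_le_norm (cz k)

private theorem l53_2 (k : ℤ × ℤ) : |(k.2 : ℝ)| ≤ nk k := Complex.abs_im_le_norm (cz k)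

private theorem l53_3 (k : ℤ × ℤ) : nk k ≤ |(k.1 : ℝ)| + |(k.2 : ℝ)| := Complex.norm_le_abs_re_add_abs_im (cz k)

theorem nk_ge_one {k : ℤ × ℤ} (hk0 : k ≠ 0) : 1 ≤ nk k := by
  by_cases h1 : k.1 = 0
  · have h2 : k.2 ≠ 0 := by
      intro h2
      exact hk0 (Prod.ext h1 h2)
    have h3 : (1 : ℤ) ≤ |k.2| := Int.one_le_abs h2
    have h4 : (1 : ℝ) ≤ |(k.2 : ℝ)| := by exact_mod_cast h3
    exact h4.trans (l53_2 k)
  · have h3 : (1 : ℤ) ≤ |k.1| := Int.one_le_abs h1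
    have h4 : (1 : ℝ) ≤ |(k.1 : ℝ)| := by exact_mod_cast h3
    exact h4.trans (l53_1 k)

theorem mem_kset {M : ℝ} {k : ℤ × ℤ} : k ∈ kset M ↔ k ≠ 0 ∧ nk k ≤ M := by
  unfold kset
  rw [Finset.mem_filter]
  constructor
  · exact fun h => h.2
  · intro h
    refine ⟨?_, h⟩
    have hM : M ≤ (⌈M⌉₊ : ℝ) := Nat.le_ceil M
    have h1 := (l53_1 k).trans (h.2.trans hM)
    have h2 := (l53_2 k).trans (h.2.trans hM)
    rw [abs_le] at h1 h2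
    unfold box
    rw [Finset.mem_product, Finset.mem_Icc, Finset.mem_Icc]
    exact ⟨⟨by exact_mod_cast h1.1, by exact_mod_cast h1.2⟩, ⟨by exact_mod_cast h2.1, by exact_mod_cast h2.2⟩⟩

theorem kset_card {M : ℝ} (hM : 1 ≤ M) : ((kset M).card : ℝ) ≤ 25 * M ^ 2 := by
  have h1 : (kset M).card ≤ (box ⌈M⌉₊).card := Finset.card_filter_le _ _
  have h2 : (box ⌈M⌉₊).card = (2 * ⌈M⌉₊ + 1) * (2 * ⌈M⌉₊ + 1) := by
    unfold box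
    rw [Finset.card_product, Int.card_Icc]
    have : ((⌈M⌉₊ : ℤ) + 1 - -(⌈M⌉₊ : ℤ)).toNat = 2 * ⌈M⌉₊ + 1 := by omega
    rw [this]
  have h3 : (⌈M⌉₊ : ℝ) < M + 1 := Nat.ceil_lt_add_one (by linarith)
  have h4 : ((kset M).card : ℝ) ≤ (2 * (⌈M⌉₊ : ℝ) + 1) * (2 * (⌈M⌉₊ : ℝ) + 1) := by
    rw [h2] at h1
    exact_mod_cast h1
  have h5 : 2 * (⌈M⌉₊ : ℝ) + 1 ≤ 5 * M := by linarith
  have h6 : (0 : ℝ) ≤ 2 * (⌈M⌉₊ : ℝ) + 1 := by positivity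
  nlinarith

private noncomputable def g53 (j : ℤ) : ℝ := (max |(j : ℝ)| 1) ^ (-(3 / 4) : ℝ)

private theorem g53_nonneg (j : ℤ) : 0 ≤ g53 j := by
  unfold g53
  have : (1 : ℝ) ≤ max |(j : ℝ)| 1 := le_max_right _ _
  exact Real.rpow_nonneg (by linarith) _

private theorem step53 (N : ℕ) : ((N + 1 : ℕ) : ℝ) ^ (-(3 / 4) : ℝ) ≤
    4 * (((N + 1 : ℕ) : ℝ) ^ (1 / 4 : ℝ) - (N : ℝ) ^ (1 / 4 : ℝ)) := by
  obtain ⟨y, hy⟩ : ∃ y : ℝ, y = ((N + 1 : ℕ) : ℝ) ^ (1 / 4 : ℝ) := ⟨_, rfl⟩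
  obtain ⟨x, hx⟩ : ∃ x : ℝ, x = (N : ℝ) ^ (1 / 4 : ℝ) := ⟨_, rfl⟩
  have hN0 : (0 : ℝ) < ((N + 1 : ℕ) : ℝ) := by positivity
  have hy0 : 0 < y := by rw [hy]; exact Real.rpow_pos_of_pos hN0 _
  have hx0 : 0 ≤ x := by rw [hx]; exact Real.rpow_nonneg (Nat.cast_nonneg _) _
  have hy4 : y ^ 4 = (N : ℝ) + 1 := by
    rw [hy, ← Real.rpow_natCast, ← Real.rpow_mul hN0.le]
    norm_num
  have hx4 : x ^ 4 = (N : ℝ) := by
    rw [hx, ← Real.rpow_natCast, ← Real.rpow_mul (Nat.cast_nonneg _)]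
    norm_num
  have hxy : x ≤ y := by
    rw [hx, hy]
    exact Real.rpow_le_rpow (Nat.cast_nonneg _) (by push_cast; linarith) (by norm_num)
  have hy3 : ((N + 1 : ℕ) : ℝ) ^ (-(3 / 4) : ℝ) = 1 / y ^ 3 := by
    rw [hy, ← Real.rpow_natCast, ← Real.rpow_mul hN0.le, one_div, ← Real.rpow_neg hN0.le]
    norm_num
  rw [hy3, ← hy, ← hx, div_le_iff₀ (by positivity)]
  have e : 1 = (y - x) * (y ^ 3 + y ^ 2 * x + y * x ^ 2 + x ^ 3) := by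
    have : (y - x) * (y ^ 3 + y ^ 2 * x + y * x ^ 2 + x ^ 3) = y ^ 4 - x ^ 4 := by ring
    rw [this, hy4, hx4]
    ring
  have h1 : y ^ 3 + y ^ 2 * x + y * x ^ 2 + x ^ 3 ≤ 4 * y ^ 3 := by
    have a1 : y ^ 2 * x ≤ y ^ 2 * y := mul_le_mul_of_nonneg_left hxy (by positivity)
    have a2 : x ^ 2 ≤ y ^ 2 := pow_le_pow_left₀ hx0 hxy 2
    have a3 : y * x ^ 2 ≤ y * y ^ 2 := mul_le_mul_of_nonneg_left a2 hy0.le
    have a4 : x ^ 3 ≤ y ^ 3 := pow_le_pow_left₀ hx0 hxy 3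
    nlinarith
  calc (1 : ℝ) = (y - x) * (y ^ 3 + y ^ 2 * x + y * x ^ 2 + x ^ 3) := e
    _ ≤ (y - x) * (4 * y ^ 3) := mul_le_mul_of_nonneg_left h1 (by linarith)
    _ = _ := by ring

private theorem sum53 (N : ℕ) : ∑ j ∈ Finset.Icc (-(N : ℤ)) N, g53 j ≤ 1 + 8 * (N : ℝ) ^ (1 / 4 : ℝ) := by
  induction N with
  | zero =>
    have : Finset.Icc (-((0 : ℕ) : ℤ)) ((0 : ℕ) : ℤ) = {0} := by simp
    rw [this, Finset.sum_singleton]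
    unfold g53
    norm_num
  | succ N ih =>
    have e : Finset.Icc (-((N + 1 : ℕ) : ℤ)) ((N + 1 : ℕ) : ℤ) =
        insert ((N + 1 : ℕ) : ℤ) (insert (-((N + 1 : ℕ) : ℤ)) (Finset.Icc (-(N : ℤ)) N)) := by
      ext j
      simp only [Finset.mem_insert, Finset.mem_Icc]
      omega
    rw [e, Finset.sum_insert, Finset.sum_insert]
    · have g1 : g53 ((N + 1 : ℕ) : ℤ) = ((N + 1 : ℕ) : ℝ) ^ (-(3 / 4) : ℝ) := by
        unfold g53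
        congr 1
        rw [Int.cast_natCast, abs_of_nonneg (by positivity), max_eq_left]
        push_cast
        linarith [(Nat.cast_nonneg N : (0 : ℝ) ≤ N)]
      have g2 : g53 (-((N + 1 : ℕ) : ℤ)) = ((N + 1 : ℕ) : ℝ) ^ (-(3 / 4) : ℝ) := by
        rw [← g1]
        unfold g53
        rw [Int.cast_neg, abs_neg]
      rw [g1, g2]
      have h := step53 N
      linarith
    · rw [Finset.mem_Icc]; omega
    · rw [Finset.mem_insert, Finset.mem_Icc]; omega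

theorem lat_upper : ∃ C : ℝ, 0 ≤ C ∧ ∀ M : ℝ, 1 ≤ M → ∑ k ∈ kset M, nk k ^ (-(3 / 2) : ℝ) ≤ C * M ^ (1 / 2 : ℝ) := by
  refine ⟨289, by norm_num, fun M hM => ?_⟩
  have h1 : ∀ k ∈ kset M, nk k ^ (-(3 / 2) : ℝ) ≤ g53 k.1 * g53 k.2 := by
    intro k hk
    rw [mem_kset] at hk
    have hk1 := nk_ge_one hk.1
    have hk0 : 0 < nk k := by linarith
    have e : nk k ^ (-(3 / 2) : ℝ) = nk k ^ (-(3 / 4) : ℝ) * nk k ^ (-(3 / 4) : ℝ) := by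
      rw [← Real.rpow_add hk0]
      norm_num
    rw [e]
    have m1 : max |(k.1 : ℝ)| 1 ≤ nk k := max_le (l53_1 k) hk1
    have m2 : max |(k.2 : ℝ)| 1 ≤ nk k := max_le (l53_2 k) hk1
    have p1 : (0 : ℝ) < max |(k.1 : ℝ)| 1 := lt_of_lt_of_le one_pos (le_max_right _ _)
    have p2 : (0 : ℝ) < max |(k.2 : ℝ)| 1 := lt_of_lt_of_le one_pos (le_max_right _ _)
    exact mul_le_mul (Real.rpow_le_rpow_of_nonpos p1 m1 (by norm_num)) (Real.rpow_le_rpow_of_nonpos p2 m2 (by norm_num))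
      (Real.rpow_nonneg hk0.le _) (g53_nonneg _)
  have h2 : ∑ k ∈ kset M, nk k ^ (-(3 / 2) : ℝ) ≤ ∑ k ∈ box ⌈M⌉₊, g53 k.1 * g53 k.2 := by
    refine (Finset.sum_le_sum h1).trans ?_
    exact Finset.sum_le_sum_of_subset_of_nonneg (Finset.filter_subset _ _)
      fun k _ _ => mul_nonneg (g53_nonneg _) (g53_nonneg _)
  have h3 : ∑ k ∈ box ⌈M⌉₊, g53 k.1 * g53 k.2 =
      (∑ j ∈ Finset.Icc (-(⌈M⌉₊ : ℤ)) ⌈M⌉₊, g53 j) * ∑ j ∈ Finset.Icc (-(⌈M⌉₊ : ℤ)) ⌈M⌉₊, g53 j := by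
    unfold box
    rw [Finset.sum_product, Finset.sum_mul_sum]
  have h4 := sum53 ⌈M⌉₊
  have h5 : (⌈M⌉₊ : ℝ) < M + 1 := Nat.ceil_lt_add_one (by linarith)
  have h6 : (⌈M⌉₊ : ℝ) ^ (1 / 4 : ℝ) ≤ 2 * M ^ (1 / 4 : ℝ) := by
    have h7 : (⌈M⌉₊ : ℝ) ≤ 16 * M := by linarith
    refine (Real.rpow_le_rpow (Nat.cast_nonneg _) h7 (by norm_num)).trans ?_
    rw [Real.mul_rpow (by norm_num) (by linarith)]
    have : (16 : ℝ) ^ (1 / 4 : ℝ) = 2 := by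
      rw [show (16 : ℝ) = 2 ^ (4 : ℕ) by norm_num, ← Real.rpow_natCast, ← Real.rpow_mul (by norm_num)]
      norm_num
    rw [this]
  have h8 : (1 : ℝ) ≤ M ^ (1 / 4 : ℝ) := Real.one_le_rpow hM (by norm_num)
  have h9 : ∑ j ∈ Finset.Icc (-(⌈M⌉₊ : ℤ)) ⌈M⌉₊, g53 j ≤ 17 * M ^ (1 / 4 : ℝ) := by linarith
  have h10 : 0 ≤ ∑ j ∈ Finset.Icc (-(⌈M⌉₊ : ℤ)) ⌈M⌉₊, g53 j := Finset.sum_nonneg fun j _ => g53_nonneg j
  have h11 : M ^ (1 / 2 : ℝ) = M ^ (1 / 4 : ℝ) * M ^ (1 / 4 : ℝ) := by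
    rw [← Real.rpow_add (by linarith)]
    norm_num
  rw [h3] at h2
  rw [h11]
  calc _ ≤ _ := h2
    _ ≤ (17 * M ^ (1 / 4 : ℝ)) * (17 * M ^ (1 / 4 : ℝ)) := mul_le_mul h9 h9 h10 (by positivity)
    _ = _ := by ring

theorem lat_lower : ∃ c : ℝ, 0 < c ∧ ∀ M : ℝ, 2 ≤ M → c * M ^ (1 / 2 : ℝ) ≤ ∑ k ∈ kset M, nk k ^ (-(3 / 2) : ℝ) := by
  refine ⟨1 / 16, by norm_num, fun M hM => ?_⟩
  obtain ⟨m, hm⟩ : ∃ m : ℕ, m = ⌊M / 2⌋₊ := ⟨_, rfl⟩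
  have hm1 : (m : ℝ) ≤ M / 2 := by rw [hm]; exact Nat.floor_le (by linarith)
  have hm2 : M / 2 < (m : ℝ) + 1 := by rw [hm]; exact Nat.lt_floor_add_one _
  have hm3 : 1 ≤ m := by
    rw [hm]
    exact Nat.le_floor (by push_cast; linarith)
  have hm4 : (1 : ℝ) ≤ m := by exact_mod_cast hm3
  have hm5 : M / 4 ≤ m := by linarith
  have hM0 : 0 < M := by linarith
  obtain ⟨A, hA⟩ : ∃ A : Finset (ℤ × ℤ), A = Finset.Icc (1 : ℤ) m ×ˢ Finset.Icc (1 : ℤ) m := ⟨_, rfl⟩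
  have hAc : (A.card : ℝ) = m * m := by
    rw [hA, Finset.card_product, Int.card_Icc]
    have : ((m : ℤ) + 1 - 1).toNat = m := by omega
    rw [this]
    push_cast
    ring
  have hAs : A ⊆ kset M := by
    intro k hk
    rw [hA, Finset.mem_product, Finset.mem_Icc, Finset.mem_Icc] at hk
    obtain ⟨⟨a1, a2⟩, b1, b2⟩ := hk
    rw [mem_kset]
    refine ⟨fun h => ?_, (l53_3 k).trans ?_⟩
    · rw [h] at a1
      simp at a1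
    · have c1 : (1 : ℝ) ≤ k.1 := by exact_mod_cast a1
      have c2 : (k.1 : ℝ) ≤ m := by exact_mod_cast a2
      have c3 : (1 : ℝ) ≤ k.2 := by exact_mod_cast b1
      have c4 : (k.2 : ℝ) ≤ m := by exact_mod_cast b2
      rw [abs_of_nonneg (by linarith), abs_of_nonneg (by linarith)]
      linarith
  have h1 : ∑ k ∈ A, M ^ (-(3 / 2) : ℝ) ≤ ∑ k ∈ kset M, nk k ^ (-(3 / 2) : ℝ) := by
    refine (Finset.sum_le_sum fun k hk => ?_).trans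
      (Finset.sum_le_sum_of_subset_of_nonneg hAs fun k _ _ => Real.rpow_nonneg (norm_nonneg _) _)
    have h2 := mem_kset.1 (hAs hk)
    have h3 := nk_ge_one h2.1
    exact Real.rpow_le_rpow_of_nonpos (by linarith) h2.2 (by norm_num)
  rw [Finset.sum_const, nsmul_eq_mul, hAc] at h1
  refine le_trans ?_ h1
  have h4 : M ^ (1 / 2 : ℝ) = M * M * M ^ (-(3 / 2) : ℝ) := by
    have e : M * M = M ^ (2 : ℝ) := by
      rw [Real.rpow_two]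
      ring
    rw [e, ← Real.rpow_add hM0]
    norm_num
  rw [h4]
  have h5 : 0 ≤ M ^ (-(3 / 2) : ℝ) := Real.rpow_nonneg hM0.le _
  have h6 : M / 4 * (M / 4) ≤ (m : ℝ) * m := mul_le_mul hm5 hm5 (by linarith) (by linarith)
  calc 1 / 16 * (M * M * M ^ (-(3 / 2) : ℝ)) = (M / 4 * (M / 4)) * M ^ (-(3 / 2) : ℝ) := by ring
    _ ≤ _ := mul_le_mul_of_nonneg_right h6 h5

end Pool.Agent.Helper92.EO
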