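import Pool.Agent.Helper92.EO.OBase

/-!
# EO-O4: the sum of the smoothing weights

PROOF. `a δ j := (1 + δ |j|)^(-2)`. By `hφ.decay 4` and `sqrt (x² + y²) ≥ |x|, |y|`: `‖fhat φ (δ k.1) (δ k.2)‖ ≤ C a δ k.1 a δ k.2`. For `k ≠ 0`:
`nk k ≥ max (max |k.1| 1) (max |k.2| 1) ≥ (max |k.1| 1)^(1/2) (max |k.2| 1)^(1/2)`. So the sum is at most
`C (∑_j (max |j| 1)^(-1/2) (1 + δ |j|)^(-2))²`, and `∑_{j ≥ 1} j^(-1/2) (1 + δ j)^(-2) ≤ C δ^(-1/2)`: `∑_{j ≤ 1/δ} j^(-1/2) ≤ 2 δ^(-1/2)` and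
`∑_{j > 1/δ} j^(-1/2) (δ j)^(-2) ≤ C δ^(-1/2)` (or compare with integrals). The term `k = 0` is `0` (`nk 0 = 0`). See AE/P2, AE/P5 for similar sums.
-/

open MeasureTheory Real Set Filter Topology

set_option autoImplicit false

namespace Pool.Agent.Helper92.EO

open Pool.Agent.Helper22.AE

/-- the one dimensional terms -/
private noncomputable def sb (δ : ℝ) (x : ℝ) : ℝ := (sqrt (max |x| 1))⁻¹ * ((1 + δ * |x|) ^ 2)⁻¹

private lemma sb_nonneg {δ : ℝ} (hδ : 0 < δ) (x : ℝ) : 0 ≤ sb δ x := by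
  unfold sb
  positivity

/-- telescoping bound -/
private lemma sb_tel {δ : ℝ} (hδ : 0 < δ) (j : ℕ) :
    sb δ ((j : ℝ) + 1) ≤ 2 * sqrt (((j : ℝ) + 1) / (1 + δ * ((j : ℝ) + 1))) - 2 * sqrt ((j : ℝ) / (1 + δ * j)) := by
  have hj0 : (0 : ℝ) ≤ j := Nat.cast_nonneg j
  set t : ℝ := (j : ℝ) + 1 with ht
  have ht1 : 1 ≤ t := by linarith
  have ht0 : 0 < t := by linarith
  have hjt : (j : ℝ) = t - 1 := by linarith
  have hD : 0 < 1 + δ * t := by positivity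
  have hD' : 0 < 1 + δ * j := by positivity
  set A := t / (1 + δ * t) with hA
  set B := (j : ℝ) / (1 + δ * j) with hB
  have hA0 : 0 < A := by positivity
  have hB0 : 0 ≤ B := by positivity
  have hAB : A - B = 1 / ((1 + δ * t) * (1 + δ * j)) := by
    rw [hA, hB, div_sub_div _ _ hD.ne' hD'.ne']
    congr 1
    rw [hjt]
    ring
  have hAB1 : 1 / (1 + δ * t) ^ 2 ≤ A - B := by
    rw [hAB, sq]
    refine one_div_le_one_div_of_le (by positivity) ?_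
    refine mul_le_mul_of_nonneg_left ?_ hD.le
    rw [hjt]
    nlinarith
  have hsA : 0 < sqrt A := sqrt_pos.2 hA0
  have hsB : 0 ≤ sqrt B := sqrt_nonneg B
  have hBA : B ≤ A := by
    have : 0 < 1 / (1 + δ * t) ^ 2 := by positivity
    linarith
  have hsBA : sqrt B ≤ sqrt A := sqrt_le_sqrt hBA
  have h1 : (sqrt A - sqrt B) * (2 * sqrt A) ≥ A - B := by
    have e1 := mul_self_sqrt hA0.le
    have e2 := mul_self_sqrt hB0
    nlinarith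
  have h2 : sb δ t * sqrt A ≤ 1 / (1 + δ * t) ^ 2 := by
    unfold sb
    rw [abs_of_pos ht0, max_eq_left ht1]
    have h3 : sqrt A ≤ sqrt t := by
      refine sqrt_le_sqrt ?_
      rw [hA]
      exact div_le_self ht0.le (by nlinarith)
    have hst : 0 < sqrt t := sqrt_pos.2 ht0
    have e : (sqrt t)⁻¹ * ((1 + δ * t) ^ 2)⁻¹ * sqrt A = (sqrt A / sqrt t) * (1 / (1 + δ * t) ^ 2) := by
      field_simp
    rw [e]
    have h4 : sqrt A / sqrt t ≤ 1 := by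
      rw [div_le_one hst]
      exact h3
    have h5 : 0 ≤ 1 / (1 + δ * t) ^ 2 := by positivity
    nlinarith
  have h6 : sb δ t * sqrt A ≤ (2 * sqrt A - 2 * sqrt B) * sqrt A := by
    have : (2 * sqrt A - 2 * sqrt B) * sqrt A = (sqrt A - sqrt B) * (2 * sqrt A) := by ring
    rw [this]
    linarith
  exact le_of_mul_le_mul_right h6 hsA

private lemma sb_sum {δ : ℝ} (hδ : 0 < δ) (n : ℕ) :
    ∑ i ∈ Finset.range n, sb δ ((i : ℝ) + 1) ≤ 2 * (sqrt δ)⁻¹ := by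
  have h1 : ∑ i ∈ Finset.range n, sb δ ((i : ℝ) + 1) ≤ 2 * sqrt ((n : ℝ) / (1 + δ * n)) := by
    induction n with
    | zero => simp
    | succ n ih =>
      rw [Finset.sum_range_succ]
      have := sb_tel hδ n
      push_cast
      linarith
  refine h1.trans ?_
  rw [← sqrt_inv]
  refine mul_le_mul_of_nonneg_left (sqrt_le_sqrt ?_) (by norm_num)
  have hn : (0 : ℝ) ≤ n := Nat.cast_nonneg n
  rw [div_le_iff₀ (by positivity), inv_mul_eq_div, le_div_iff₀ hδ]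
  nlinarith

private lemma sb_int {δ : ℝ} (hδ : 0 < δ) (hδ1 : δ ≤ 1) :
    Summable (fun j : ℤ => sb δ (j : ℝ)) ∧ ∑' j : ℤ, sb δ (j : ℝ) ≤ 5 * (sqrt δ)⁻¹ := by
  have hs1 : 1 ≤ (sqrt δ)⁻¹ := by
    rw [one_le_inv₀ (sqrt_pos.2 hδ)]
    exact Real.sqrt_le_one.2 hδ1
  have hneg : ∀ x : ℝ, sb δ (-x) = sb δ x := by
    intro x
    unfold sb
    rw [abs_neg]
  have h0 : sb δ 0 = 1 := by
    unfold sb
    simp
  have hb2 : ∀ n : ℕ, ∑ i ∈ Finset.range n, sb δ (((-((i : ℤ) + 1) : ℤ)) : ℝ) ≤ 2 * (sqrt δ)⁻¹ := by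
    intro n
    refine le_trans (le_of_eq ?_) (sb_sum hδ n)
    refine Finset.sum_congr rfl fun i _ => ?_
    push_cast
    rw [← hneg]
    congr 1
    ring
  have hb1 : ∀ n : ℕ, ∑ i ∈ Finset.range n, sb δ (((i : ℤ)) : ℝ) ≤ 3 * (sqrt δ)⁻¹ := by
    intro n
    rcases n with _ | n
    · simp
    · rw [Finset.sum_range_succ']
      have h1 : ∑ i ∈ Finset.range n, sb δ ((((i + 1 : ℕ) : ℤ)) : ℝ) = ∑ i ∈ Finset.range n, sb δ ((i : ℝ) + 1) := by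
        refine Finset.sum_congr rfl fun i _ => ?_
        push_cast
        rfl
      rw [h1]
      have h2 := sb_sum hδ n
      push_cast
      rw [h0]
      linarith
  have n1 : ∀ i : ℕ, 0 ≤ sb δ (((i : ℤ)) : ℝ) := fun i => sb_nonneg hδ _
  have n2 : ∀ i : ℕ, 0 ≤ sb δ (((-((i : ℤ) + 1) : ℤ)) : ℝ) := fun i => sb_nonneg hδ _
  have s1 := summable_of_sum_range_le n1 hb1
  have s2 := summable_of_sum_range_le n2 hb2
  have t1 := Real.tsum_le_of_sum_range_le n1 hb1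
  have t2 := Real.tsum_le_of_sum_range_le n2 hb2
  have hs := HasSum.of_nat_of_neg_add_one (f := fun j : ℤ => sb δ (j : ℝ)) s1.hasSum s2.hasSum
  refine ⟨hs.summable, ?_⟩
  rw [hs.tsum_eq]
  linarith

private lemma sb_point {φ : ℝ × ℝ → ℝ} {C : ℝ}
    (hC : ∀ x y : ℝ, ‖fhat φ x y‖ * (1 + sqrt (x ^ 2 + y ^ 2)) ^ 4 ≤ C) {δ : ℝ} (hδ : 0 < δ) (k : ℤ × ℤ) :
    (nk k)⁻¹ * ‖fhat φ (δ * k.1) (δ * k.2)‖ ≤ C * (sb δ (k.1 : ℝ) * sb δ (k.2 : ℝ)) := by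
  have hC0 : 0 ≤ C := le_trans (by positivity) (hC 0 0)
  have hnk : nk k = sqrt ((k.1 : ℝ) ^ 2 + (k.2 : ℝ) ^ 2) := by
    unfold nk cz
    rw [Complex.norm_def, Complex.normSq_mk]
    congr 1
    ring
  -- the transform
  have h1 : ‖fhat φ (δ * k.1) (δ * k.2)‖ ≤ C * (((1 + δ * |(k.1 : ℝ)|) ^ 2)⁻¹ * ((1 + δ * |(k.2 : ℝ)|) ^ 2)⁻¹) := by
    have h2 := hC (δ * k.1) (δ * k.2)
    have ha : δ * |(k.1 : ℝ)| ≤ sqrt ((δ * k.1) ^ 2 + (δ * k.2) ^ 2) := by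
      refine le_sqrt_of_sq_le ?_
      rw [mul_pow, sq_abs]
      nlinarith [sq_nonneg (δ * (k.2 : ℝ))]
    have hb : δ * |(k.2 : ℝ)| ≤ sqrt ((δ * k.1) ^ 2 + (δ * k.2) ^ 2) := by
      refine le_sqrt_of_sq_le ?_
      rw [mul_pow, sq_abs]
      nlinarith [sq_nonneg (δ * (k.1 : ℝ))]
    set r := sqrt ((δ * k.1) ^ 2 + (δ * k.2) ^ 2) with hr
    have hp1 : (1 + δ * |(k.1 : ℝ)|) ^ 2 ≤ (1 + r) ^ 2 := pow_le_pow_left₀ (by positivity) (by linarith) 2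
    have hp2 : (1 + δ * |(k.2 : ℝ)|) ^ 2 ≤ (1 + r) ^ 2 := pow_le_pow_left₀ (by positivity) (by linarith) 2
    have hp3 : (1 + δ * |(k.1 : ℝ)|) ^ 2 * (1 + δ * |(k.2 : ℝ)|) ^ 2 ≤ (1 + r) ^ 4 := by
      calc _ ≤ (1 + r) ^ 2 * (1 + r) ^ 2 := mul_le_mul hp1 hp2 (by positivity) (by positivity)
        _ = (1 + r) ^ 4 := by ring
    rw [← mul_inv, ← div_eq_mul_inv, le_div_iff₀ (by positivity)]
    exact (mul_le_mul_of_nonneg_left hp3 (norm_nonneg _)).trans h2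
  -- the length
  have h3 : (nk k)⁻¹ ≤ (sqrt (max |(k.1 : ℝ)| 1))⁻¹ * (sqrt (max |(k.2 : ℝ)| 1))⁻¹ := by
    by_cases hk : k = 0
    · rw [hnk, hk]
      simp
    · have hs1 : |(k.1 : ℝ)| ≤ nk k := by
        rw [hnk]
        refine le_sqrt_of_sq_le ?_
        rw [sq_abs]
        nlinarith [sq_nonneg (k.2 : ℝ)]
      have hs2 : |(k.2 : ℝ)| ≤ nk k := by
        rw [hnk]
        refine le_sqrt_of_sq_le ?_
        rw [sq_abs]
        nlinarith [sq_nonneg (k.1 : ℝ)]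
      have hone : 1 ≤ nk k := by
        by_cases h10 : k.1 = 0
        · have h20 : k.2 ≠ 0 := fun h => hk (Prod.ext h10 h)
          have : (1 : ℝ) ≤ |(k.2 : ℝ)| := by
            have := Int.one_le_abs h20
            exact_mod_cast this
          linarith
        · have : (1 : ℝ) ≤ |(k.1 : ℝ)| := by
            have := Int.one_le_abs h10
            exact_mod_cast this
          linarith
      have hm1 : max |(k.1 : ℝ)| 1 ≤ nk k := max_le hs1 hone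
      have hm2 : max |(k.2 : ℝ)| 1 ≤ nk k := max_le hs2 hone
      rw [← mul_inv]
      have hpos : 0 < sqrt (max |(k.1 : ℝ)| 1) * sqrt (max |(k.2 : ℝ)| 1) := by positivity
      refine inv_anti₀ hpos ?_
      calc _ ≤ sqrt (nk k) * sqrt (nk k) := mul_le_mul (sqrt_le_sqrt hm1) (sqrt_le_sqrt hm2) (by positivity) (by positivity)
        _ = nk k := mul_self_sqrt (by linarith)
  calc (nk k)⁻¹ * ‖fhat φ (δ * k.1) (δ * k.2)‖
      ≤ ((sqrt (max |(k.1 : ℝ)| 1))⁻¹ * (sqrt (max |(k.2 : ℝ)| 1))⁻¹) *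
        (C * (((1 + δ * |(k.1 : ℝ)|) ^ 2)⁻¹ * ((1 + δ * |(k.2 : ℝ)|) ^ 2)⁻¹)) :=
        mul_le_mul h3 h1 (norm_nonneg _) (by positivity)
    _ = C * (sb δ (k.1 : ℝ) * sb δ (k.2 : ℝ)) := by
        unfold sb
        ring

theorem fhat_sum {φ : ℝ × ℝ → ℝ} (hφ : IsBump φ) : ∃ C : ℝ, 0 ≤ C ∧ ∀ δ : ℝ, 0 < δ → δ ≤ 1 →
    Summable (fun k : ℤ × ℤ => (nk k)⁻¹ * ‖fhat φ (δ * k.1) (δ * k.2)‖) ∧
    ∑' k : ℤ × ℤ, (nk k)⁻¹ * ‖fhat φ (δ * k.1) (δ * k.2)‖ ≤ C / δ := by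
  obtain ⟨C, hC⟩ := hφ.decay 4
  have hC0 : 0 ≤ C := le_trans (by positivity) (hC 0 0)
  refine ⟨25 * C, by positivity, fun δ hδ hδ1 => ?_⟩
  obtain ⟨hs, ht⟩ := sb_int hδ hδ1
  have hnn : ∀ j : ℤ, 0 ≤ sb δ (j : ℝ) := fun j => sb_nonneg hδ _
  have hprod : Summable fun k : ℤ × ℤ => sb δ (k.1 : ℝ) * sb δ (k.2 : ℝ) :=
    hs.mul_of_nonneg hs hnn hnn
  have hprod2 := hprod.mul_left C
  have hnk0 : ∀ k : ℤ × ℤ, 0 ≤ (nk k)⁻¹ * ‖fhat φ (δ * k.1) (δ * k.2)‖ := fun k => by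
    have : 0 ≤ nk k := norm_nonneg _
    positivity
  have hsum : Summable (fun k : ℤ × ℤ => (nk k)⁻¹ * ‖fhat φ (δ * k.1) (δ * k.2)‖) :=
    Summable.of_nonneg_of_le hnk0 (sb_point hC hδ) hprod2
  refine ⟨hsum, ?_⟩
  refine (hsum.tsum_le_tsum (sb_point hC hδ) hprod2).trans ?_
  rw [tsum_mul_left, ← hs.tsum_mul_tsum hs hprod]
  have h0 : 0 ≤ ∑' j : ℤ, sb δ (j : ℝ) := tsum_nonneg hnn
  have h1 : (∑' j : ℤ, sb δ (j : ℝ)) * ∑' j : ℤ, sb δ (j : ℝ) ≤ (5 * (sqrt δ)⁻¹) * (5 * (sqrt δ)⁻¹) :=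
    mul_le_mul ht ht h0 (by positivity)
  refine (mul_le_mul_of_nonneg_left h1 hC0).trans (le_of_eq ?_)
  have h2 : (sqrt δ)⁻¹ * (sqrt δ)⁻¹ = δ⁻¹ := by
    rw [← mul_inv, mul_self_sqrt hδ.le]
  calc C * (5 * (sqrt δ)⁻¹ * (5 * (sqrt δ)⁻¹)) = 25 * C * ((sqrt δ)⁻¹ * (sqrt δ)⁻¹) := by ring
    _ = 25 * C / δ := by rw [h2, div_eq_mul_inv]

end Pool.Agent.Helper92.EO
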