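import Pool.Agent.Helper92.EO.Half
import Pool.Agent.Helper92.EO.Sum
import Pool.Agent.Helper22.AE.P2
import Pool.Agent.Helper22.AE.G6

/-!
# EO-O6: the smoothed count as a real sum

PROOF of `hk_bound`: `|cos| ≤ 1`, `ee_norm`, `rho_affine`, `rho H` is bounded (continuous, periodic).
PROOF of `smc_real`. `poisson_dom` (AE/P2): `∑_k ft G k fhat φ (δ k) = smc φ δ G`; the term `k = 0` is `volume (dom G)` (see `smc_eq`, private, AE/P4; copy it). For
`k ≠ 0` insert `ft_half`: with `z_k = (i/(2π nk k)) hk G k fhat(δ k)` (`-(1/(2πi n)) = i/(2π n)`) the term is `z_k + conj z_{-k}`, because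
`conj fhat(-x) = fhat(x)` (`fhat φ (-x) (-y) = conj (fhat φ x y)`, `φ` real) and `nk (-k) = nk k`. `z` is summable (`fhat_sum`, `‖hk G k‖ ≤ C`), so
`∑ (z_k + conj z_{-k}) = ∑ z_k + ∑ conj z_k = ∑ 2 Re z_k` (`Equiv.tsum_eq (Equiv.neg _)`), and `2 Re z_k = tr φ δ k (hk G k)`; `tr` vanishes at `k = 0`.
-/

open MeasureTheory Real Set Filter Topology

set_option autoImplicit false

namespace Pool.Agent.Helper92.EO

open Pool.Agent.Helper22.AE

private lemma rho_cont6 {H : ℝ → ℝ} (hH : ContDiff ℝ 2 H) : Continuous (rho H) := by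
  have h1 : ContDiff ℝ 1 (deriv H) := by
    have h := (contDiff_succ_iff_deriv (n := 1) (f := H)).1 (by
      rw [one_add_one_eq_two]; exact hH)
    exact h.2.2
  have h2 : Continuous (deriv (deriv H)) := h1.continuous_deriv (le_refl _)
  exact hH.continuous.add h2

private lemma rho_per6 {H : ℝ → ℝ} (hH : IsSupp H) : Function.Periodic (rho H) (2 * π) := by
  have h1 : Function.Periodic (deriv H) (2 * π) := by
    intro x
    have h2 : (fun y => H (y + 2 * π)) = H := funext hH.per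
    rw [← deriv_comp_add_const, h2]
  have h3 : Function.Periodic (deriv (deriv H)) (2 * π) := by
    intro x
    have h2 : (fun y => deriv H (y + 2 * π)) = deriv H := funext h1
    rw [← deriv_comp_add_const, h2]
  intro x
  simp only [rho]
  rw [hH.per x, h3 x]

private lemma rho_bdd6 {H : ℝ → ℝ} (hH : IsSupp H) : ∃ B : ℝ, 0 ≤ B ∧ ∀ θ, |rho H θ| ≤ B := by
  obtain ⟨t0, -, h0⟩ := isCompact_Icc.exists_isMaxOn (s := Icc (0 : ℝ) (2 * π))
    (nonempty_Icc.2 (by positivity)) (rho_cont6 hH.smooth).abs.continuousOn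
  refine ⟨|rho H t0|, abs_nonneg _, fun θ => ?_⟩
  obtain ⟨y, hy, hy'⟩ := (rho_per6 hH).exists_mem_Ico₀ (by positivity) θ
  rw [hy']
  exact h0 ⟨hy.1, hy.2.le⟩

theorem hk_bound {H : ℝ → ℝ} (hH : IsSupp H) : ∃ C : ℝ, 0 ≤ C ∧ ∀ r s : ℝ, 0 ≤ r → |s| ≤ 1 → ∀ k : ℤ × ℤ,
    ‖hk (fun θ => r * H θ + s) k‖ ≤ C * (r + 1) := by
  obtain ⟨B, hB0, hB⟩ := rho_bdd6 hH
  refine ⟨(B + 1) * π, by positivity, fun r s hr hs k => ?_⟩
  unfold hk
  have h1 : ∀ α ∈ Set.uIoc (-(π / 2)) (π / 2),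
      ‖((cos α * rho (fun θ => r * H θ + s) (tk k + α) : ℝ) : ℂ) *
        ee (-(nk k * gph (fun θ => r * H θ + s) k α))‖ ≤ (B + 1) * (r + 1) := by
    intro α _
    rw [norm_mul, ee_norm, mul_one, Complex.norm_real, Real.norm_eq_abs, abs_mul,
      rho_affine hH.smooth]
    have h2 : |r * rho H (tk k + α) + s| ≤ r * B + 1 := by
      refine (abs_add_le _ _).trans (add_le_add ?_ hs)
      rw [abs_mul, abs_of_nonneg hr]
      exact mul_le_mul_of_nonneg_left (hB _) hr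
    have h3 : |cos α| ≤ 1 := abs_cos_le_one α
    calc |cos α| * |r * rho H (tk k + α) + s| ≤ 1 * (r * B + 1) :=
          mul_le_mul h3 h2 (abs_nonneg _) zero_le_one
      _ ≤ (B + 1) * (r + 1) := by nlinarith
  have h2 := intervalIntegral.norm_integral_le_of_norm_le_const h1
  have h3 : |π / 2 - -(π / 2)| = π := by
    rw [sub_neg_eq_add, add_halves, abs_of_pos pi_pos]
  rw [h3] at h2
  calc _ ≤ (B + 1) * (r + 1) * π := h2
    _ = (B + 1) * π * (r + 1) := by ring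

private lemma fhat_neg6 (φ : ℝ × ℝ → ℝ) (x y : ℝ) :
    fhat φ (-x) (-y) = (starRingEnd ℂ) (fhat φ x y) := by
  unfold fhat
  rw [← integral_conj]
  congr 1
  funext p
  rw [map_mul, Complex.conj_ofReal, ← ee_neg]
  congr 2
  ring

private lemma ft_zero6 (G : ℝ → ℝ) : ft G 0 = (((volume (dom G)).toReal : ℝ) : ℂ) := by
  unfold ft
  have h : ∀ p : ℝ × ℝ, ee (-((((0 : ℤ × ℤ).1 : ℤ) : ℝ) * p.1 + (((0 : ℤ × ℤ).2 : ℤ) : ℝ) * p.2)) = 1 := by
    intro p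
    simp [ee_zero]
  simp only [h]
  rw [MeasureTheory.setIntegral_const]
  simp [Measure.real]

private lemma fhat_zero6 {φ : ℝ × ℝ → ℝ} (hφ : IsBump φ) : fhat φ 0 0 = 1 := by
  unfold fhat
  have h : ∀ p : ℝ × ℝ, ee (-((0 : ℝ) * p.1 + 0 * p.2)) * (φ p : ℂ) = ((φ p : ℝ) : ℂ) := by
    intro p
    simp [ee_zero]
  simp only [h]
  rw [integral_complex_ofReal, hφ.int_one]
  simp

private lemma nk_zero6 : nk 0 = 0 := by
  unfold nk cz
  have : (⟨(((0 : ℤ × ℤ).1 : ℤ) : ℝ), (((0 : ℤ × ℤ).2 : ℤ) : ℝ)⟩ : ℂ) = 0 := by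
    apply Complex.ext <;> simp
  rw [this, norm_zero]

/-- the half term -/
private noncomputable def zz (φ : ℝ × ℝ → ℝ) (δ : ℝ) (G : ℝ → ℝ) (k : ℤ × ℤ) : ℂ :=
  (((2 * π * nk k)⁻¹ : ℝ) : ℂ) * (Complex.I * hk G k * fhat φ (δ * k.1) (δ * k.2))

private lemma zz_re (φ : ℝ × ℝ → ℝ) (δ : ℝ) (G : ℝ → ℝ) (k : ℤ × ℤ) :
    2 * (zz φ δ G k).re = tr φ δ k (hk G k) := by
  unfold zz tr
  rw [Complex.re_ofReal_mul]
  have h : (π * nk k)⁻¹ = 2 * (2 * π * nk k)⁻¹ := by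
    rw [mul_assoc, mul_inv 2]
    ring
  rw [h]
  ring

private lemma zz_summable {G : ℝ → ℝ} (hG : IsSupp G) {φ : ℝ × ℝ → ℝ} (hφ : IsBump φ) {δ : ℝ}
    (hδ : 0 < δ) (hδ1 : δ ≤ 1) : Summable (zz φ δ G) := by
  obtain ⟨C, hC0, hC⟩ := fhat_sum hφ
  obtain ⟨B, hB0, hB⟩ := hk_bound hG
  have hs := (hC δ hδ hδ1).1
  have h1 := hs.mul_left ((2 * π)⁻¹ * (B * 2))
  refine Summable.of_norm_bounded h1 (fun k => ?_)
  have h2 := hB 1 0 zero_le_one (by simp) k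
  have h3 : (fun θ => 1 * G θ + 0) = G := by
    funext θ
    ring
  rw [h3] at h2
  have h4 : 0 ≤ nk k := norm_nonneg _
  unfold zz
  rw [norm_mul, norm_mul, norm_mul, Complex.norm_I, one_mul, Complex.norm_real, Real.norm_eq_abs,
    abs_of_nonneg (by positivity), mul_inv]
  calc (2 * π)⁻¹ * (nk k)⁻¹ * (‖hk G k‖ * ‖fhat φ (δ * k.1) (δ * k.2)‖)
      = (2 * π)⁻¹ * ‖hk G k‖ * ((nk k)⁻¹ * ‖fhat φ (δ * k.1) (δ * k.2)‖) := by ring
    _ ≤ (2 * π)⁻¹ * (B * 2) * ((nk k)⁻¹ * ‖fhat φ (δ * k.1) (δ * k.2)‖) := by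
        refine mul_le_mul_of_nonneg_right ?_ (by positivity)
        refine mul_le_mul_of_nonneg_left ?_ (by positivity)
        linarith

private lemma term6 {G : ℝ → ℝ} (hG : IsSupp G) {φ : ℝ × ℝ → ℝ} (hφ : IsBump φ) (δ : ℝ)
    (k : ℤ × ℤ) :
    ft G k * fhat φ (δ * k.1) (δ * k.2) - (if k = 0 then (((volume (dom G)).toReal : ℝ) : ℂ) else 0) =
      zz φ δ G k + (starRingEnd ℂ) (zz φ δ G (-k)) := by
  by_cases hk0 : k = 0
  · subst hk0
    rw [if_pos rfl, ft_zero6]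
    have h1 : fhat φ (δ * (((0 : ℤ × ℤ).1 : ℤ) : ℝ)) (δ * (((0 : ℤ × ℤ).2 : ℤ) : ℝ)) = 1 := by
      rw [← fhat_zero6 hφ]
      simp
    rw [h1, neg_zero]
    unfold zz
    rw [nk_zero6]
    simp
  · rw [if_neg hk0, sub_zero, ft_half hG hk0]
    unfold zz
    have h1 : fhat φ (δ * (((-k).1 : ℤ) : ℝ)) (δ * (((-k).2 : ℤ) : ℝ)) =
        (starRingEnd ℂ) (fhat φ (δ * k.1) (δ * k.2)) := by
      rw [← fhat_neg6]
      congr 1
      · simp
      · simp
    rw [h1, nk_neg]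
    have h2 : (nk k : ℂ) ≠ 0 := by
      rw [Complex.ofReal_ne_zero]
      exact (nk_pos hk0).ne'
    have h3 : (π : ℂ) ≠ 0 := by
      rw [Complex.ofReal_ne_zero]
      exact pi_ne_zero
    rw [map_mul, map_mul, map_mul, Complex.conj_conj, Complex.conj_I, Complex.conj_ofReal]
    push_cast
    have h4 : -(1 / (2 * (π : ℂ) * Complex.I * (nk k : ℂ))) = Complex.I * (2 * (π : ℂ) * (nk k : ℂ))⁻¹ := by
      have h5 : Complex.I ≠ 0 := Complex.I_ne_zero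
      field_simp
      rw [Complex.I_sq]
    rw [h4]
    ring

theorem smc_real {G : ℝ → ℝ} (hG : IsSupp G) {φ : ℝ × ℝ → ℝ} (hφ : IsBump φ) {δ : ℝ} (hδ : 0 < δ) (hδ1 : δ ≤ 1) :
    smc φ δ G = (volume (dom G)).toReal + ∑' k : ℤ × ℤ, tr φ δ k (hk G k) := by
  have h1 := poisson_dom hG hφ hδ
  have h2 : HasSum (fun k : ℤ × ℤ => if k = 0 then (((volume (dom G)).toReal : ℝ) : ℂ) else 0)
      (((volume (dom G)).toReal : ℝ) : ℂ) := hasSum_ite_eq _ _
  have h3 := h1.sub h2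
  simp only [term6 hG hφ δ] at h3
  have hz := (zz_summable hG hφ hδ hδ1).hasSum
  set Z := ∑' k, zz φ δ G k with hZ
  have h4 : HasSum (fun k => (starRingEnd ℂ) (zz φ δ G k)) ((starRingEnd ℂ) Z) :=
    hz.map (starRingEnd ℂ) Complex.continuous_conj
  have h5 : HasSum (fun k => (starRingEnd ℂ) (zz φ δ G (-k))) ((starRingEnd ℂ) Z) :=
    (Equiv.neg (ℤ × ℤ)).hasSum_iff.2 h4
  have h6 := h3.unique (hz.add h5)
  have h7 : HasSum (fun k => 2 * (zz φ δ G k).re) (2 * Z.re) :=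
    (Complex.hasSum_re hz).mul_left 2
  simp only [zz_re] at h7
  rw [h7.tsum_eq]
  have h8 := congrArg Complex.re h6
  rw [Complex.sub_re, Complex.ofReal_re, Complex.ofReal_re, Complex.add_re, Complex.conj_re] at h8
  linarith

end Pool.Agent.Helper92.EO
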