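import Pool.Agent.Helper92.EO.Avg1
import Pool.Agent.Helper92.EO.Poi

/-!
# EO-O9: the average of the sum

PROOF. Every term `r ↦ qw w K R r * tr φ δ k (hk (r H + s) k)` is continuous on `[R/2, 3R/2]` (`hk (r H + s) k` is continuous in `r`: parametric integral of a
continuous function, `intervalIntegral.continuous_parametric_intervalIntegral_of_continuous'`), and bounded by `C_R (nk k)⁻¹ ‖fhat φ (δ k)‖`, summable
(`fhat_sum`, `hk_bound`); so sum and integral can be exchanged (`intervalIntegral.hasSum_integral_of_summable_norm` or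
`MeasureTheory.hasSum_integral_of_summable_integral_norm`); `tr` is real-linear in its last argument and continuous, so
`∫ qw tr(hk) = tr (∫ qw hk)`. Then `|tr φ δ k z| ≤ (nk k)⁻¹ ‖fhat‖ ‖z‖`, `avg_one` and `fhat_sum`:
`∑ (nk k)⁻¹ ‖fhat‖ C (|s| + R^(-2)) ≤ C' (|s| + R^(-2)) / δ`.
-/

open MeasureTheory Real Set Filter Topology

set_option autoImplicit false

namespace Pool.Agent.Helper92.EO

open Pool.Agent.Helper22.AE

private lemma nk_nonneg_h36 (k : ℤ × ℤ) : 0 ≤ nk k := norm_nonneg _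

private lemma rho_cont_h36 {H : ℝ → ℝ} (hH : ContDiff ℝ 2 H) : Continuous (rho H) := by
  have h1 : ContDiff ℝ 1 (deriv H) := by
    have h := (contDiff_succ_iff_deriv (n := 1) (f := H)).1 (by
      rw [one_add_one_eq_two]; exact hH)
    exact h.2.2
  have h2 : Continuous (deriv (deriv H)) := h1.continuous_deriv (le_refl _)
  exact hH.continuous.add h2

private lemma gph_cont_h36 {H : ℝ → ℝ} (hH : ContDiff ℝ 2 H) (k : ℤ × ℤ) : Continuous (gph H k) := by
  have h1 : ContDiff ℝ 1 (deriv H) := by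
    have h := (contDiff_succ_iff_deriv (n := 1) (f := H)).1 (by
      rw [one_add_one_eq_two]; exact hH)
    exact h.2.2
  have h3 : Continuous (deriv H) := h1.continuous
  have h4 : Continuous H := hH.continuous
  unfold gph
  exact ((h4.comp (continuous_const.add continuous_id)).mul continuous_cos).sub
    ((h3.comp (continuous_const.add continuous_id)).mul continuous_sin)

private lemma rho_per_h36 {H : ℝ → ℝ} (hH : IsSupp H) : Function.Periodic (rho H) (2 * π) := by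
  have h1 : Function.Periodic (deriv H) (2 * π) := by
    intro x
    have h2 : (fun y => H (y + 2 * π)) = H := funext hH.per
    rw [← deriv_comp_add_const, h2]
  have h3 : Function.Periodic (deriv (deriv H)) (2 * π) := by
    intro x
    have h2 : (fun y => deriv H (y + 2 * π)) = deriv H := funext h1
    rw [← deriv_comp_add_const, h2]
  intro x
  simp only [rho]
  rw [hH.per x, h3 x]

private lemma rho_bdd_h36 {H : ℝ → ℝ} (hH : IsSupp H) : ∃ B : ℝ, 0 ≤ B ∧ ∀ θ, |rho H θ| ≤ B := by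
  obtain ⟨t0, -, h0⟩ := isCompact_Icc.exists_isMaxOn (s := Icc (0 : ℝ) (2 * π))
    (nonempty_Icc.2 (by positivity)) (rho_cont_h36 hH.smooth).abs.continuousOn
  refine ⟨|rho H t0|, abs_nonneg _, fun θ => ?_⟩
  obtain ⟨y, hy, hy'⟩ := (rho_per_h36 hH).exists_mem_Ico₀ (by positivity) θ
  rw [hy']
  exact h0 ⟨hy.1, hy.2.le⟩

/-- `tr` as a continuous linear form -/
private noncomputable def trL_h36 (φ : ℝ × ℝ → ℝ) (δ : ℝ) (k : ℤ × ℤ) : ℂ →L[ℝ] ℝ :=
  (π * nk k)⁻¹ • (Complex.reCLM.comp (ContinuousLinearMap.mul ℝ ℂ (Complex.I * fhat φ (δ * k.1) (δ * k.2))))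

private lemma trL_eq_h36 (φ : ℝ × ℝ → ℝ) (δ : ℝ) (k : ℤ × ℤ) (z : ℂ) :
    trL_h36 φ δ k z = tr φ δ k z := by
  unfold trL_h36 tr
  rw [ContinuousLinearMap.smul_apply, ContinuousLinearMap.comp_apply, ContinuousLinearMap.mul_apply',
    Complex.reCLM_apply, smul_eq_mul]
  congr 2
  ring

theorem tr_le (φ : ℝ × ℝ → ℝ) (δ : ℝ) (k : ℤ × ℤ) (z : ℂ) :
    |tr φ δ k z| ≤ (nk k)⁻¹ * ‖fhat φ (δ * k.1) (δ * k.2)‖ * ‖z‖ := by
  have h0 := nk_nonneg_h36 k
  unfold tr
  rw [abs_mul, abs_of_nonneg (by positivity : (0:ℝ) ≤ (π * nk k)⁻¹)]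
  have h1 : |(Complex.I * z * fhat φ (δ * k.1) (δ * k.2)).re| ≤ ‖z‖ * ‖fhat φ (δ * k.1) (δ * k.2)‖ := by
    refine (Complex.abs_re_le_norm _).trans ?_
    rw [norm_mul, norm_mul, Complex.norm_I, one_mul]
  have h2 : (π * nk k)⁻¹ ≤ (nk k)⁻¹ := by
    rw [mul_inv]
    have h3 : π⁻¹ ≤ 1 := inv_le_one_of_one_le₀ (by linarith [pi_gt_three])
    have h4 : 0 ≤ (nk k)⁻¹ := inv_nonneg.2 h0
    nlinarith
  calc (π * nk k)⁻¹ * |(Complex.I * z * fhat φ (δ * k.1) (δ * k.2)).re|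
      ≤ (nk k)⁻¹ * (‖z‖ * ‖fhat φ (δ * k.1) (δ * k.2)‖) := by
        refine mul_le_mul h2 h1 (abs_nonneg _) (inv_nonneg.2 h0)
    _ = _ := by ring

theorem Lk_bound {w W : ℝ → ℝ} (hw : IsKer w W) {H : ℝ → ℝ} (hH : IsSupp H) : ∃ C : ℝ, 0 ≤ C ∧ ∀ R K s : ℝ, 1 ≤ R → 1 ≤ K →
    |s| ≤ 1 → ∀ k : ℤ × ℤ, ‖Lk W H K R s k‖ ≤ C * R := by
  obtain ⟨B, hB0, hB⟩ := rho_bdd_h36 hH
  refine ⟨(B + 1) * π, by positivity, fun R K s hR hK hs k => ?_⟩
  unfold Lk
  have h1 : ∀ α ∈ Set.uIoc (-(π / 2)) (π / 2), ‖Li W H K R s k α‖ ≤ (B + 1) * R := by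
    intro α _
    unfold Li
    rw [norm_mul, ee_norm, mul_one, Complex.norm_real, Real.norm_eq_abs, abs_mul, abs_mul]
    have h2 : |R * rho H (tk k + α) + s| ≤ (B + 1) * R := by
      refine (abs_add_le _ _).trans ?_
      rw [abs_mul, abs_of_nonneg (by linarith : (0:ℝ) ≤ R)]
      have := hB (tk k + α)
      nlinarith
    have h3 : |cos α| ≤ 1 := abs_cos_le_one α
    have h4 : |W (nk k * gph H k α / K)| ≤ 1 := W_le_one hw _
    have h5 : |cos α| * |R * rho H (tk k + α) + s| ≤ 1 * ((B + 1) * R) :=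
      mul_le_mul h3 h2 (abs_nonneg _) zero_le_one
    calc |cos α| * |R * rho H (tk k + α) + s| * |W (nk k * gph H k α / K)|
        ≤ (1 * ((B + 1) * R)) * 1 := mul_le_mul h5 h4 (abs_nonneg _) (by positivity)
      _ = (B + 1) * R := by ring
  have h2 := intervalIntegral.norm_integral_le_of_norm_le_const h1
  have h3 : |π / 2 - -(π / 2)| = π := by
    rw [sub_neg_eq_add, add_halves, abs_of_pos pi_pos]
  rw [h3] at h2
  calc _ ≤ (B + 1) * R * π := h2
    _ = (B + 1) * π * R := by ring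

private lemma hk_cont_h36 {H : ℝ → ℝ} (hH : IsSupp H) (s : ℝ) (k : ℤ × ℤ) :
    Continuous fun r : ℝ => hk (fun θ => r * H θ + s) k := by
  have e : (fun r : ℝ => hk (fun θ => r * H θ + s) k) = fun r : ℝ => ∫ α in (-(π / 2))..(π / 2),
      ((cos α * (r * rho H (tk k + α) + s) : ℝ) : ℂ) * ee (-(nk k * (r * gph H k α + s * cos α))) := by
    funext r
    unfold hk
    congr 1
    funext α
    rw [rho_affine hH.smooth, gph_affine hH.smooth]
  rw [e]
  refine intervalIntegral.continuous_parametric_intervalIntegral_of_continuous' ?_ _ _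
  have h1 := rho_cont_h36 hH.smooth
  have h2 := gph_cont_h36 hH.smooth k
  unfold Function.uncurry
  refine Continuous.mul ?_ (ee_cont.comp ?_)
  · refine Complex.continuous_ofReal.comp ?_
    refine (continuous_cos.comp continuous_snd).mul ?_
    exact (continuous_fst.mul (h1.comp (continuous_const.add continuous_snd))).add continuous_const
  · refine (continuous_const.mul ?_).neg
    exact (continuous_fst.mul (h2.comp continuous_snd)).add (continuous_const.mul (continuous_cos.comp continuous_snd))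

theorem avg_sum {w W : ℝ → ℝ} (hw : IsKer w W) {H : ℝ → ℝ} (hH : IsSupp H) {φ : ℝ × ℝ → ℝ} (hφ : IsBump φ) :
    ∃ C : ℝ, 0 ≤ C ∧ ∀ R K s δ : ℝ, 1 ≤ R → 1 ≤ K → |s| ≤ 1 → 0 < δ → δ ≤ 1 →
      IntervalIntegrable (fun r => qw w K R r * ∑' k : ℤ × ℤ, tr φ δ k (hk (fun θ => r * H θ + s) k)) volume (R / 2) (3 * R / 2) ∧
      |(∫ r in (R / 2)..(3 * R / 2), qw w K R r * ∑' k : ℤ × ℤ, tr φ δ k (hk (fun θ => r * H θ + s) k)) -
        ∑' k : ℤ × ℤ, tr φ δ k (Lk W H K R s k)| ≤ C * (|s| + R ^ (-2 : ℝ)) / δ := by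
  obtain ⟨C1, hC1, h1⟩ := fhat_sum hφ
  obtain ⟨C2, hC2, h2⟩ := hk_bound hH
  obtain ⟨C3, hC3, h3⟩ := Lk_bound hw hH
  obtain ⟨C4, hC4, h4⟩ := avg_one hw hH
  refine ⟨C4 * C1, by positivity, fun R K s δ hR hK hs hδ hδ1 => ?_⟩
  obtain ⟨hs1, hs2⟩ := h1 δ hδ hδ1
  have hR0 : 0 < R := by linarith
  have hK0 : 0 < K := by linarith
  have hle : R / 2 ≤ 3 * R / 2 := by linarith
  have hqc := qw_cont hw (R := R) hK0 hR0
  -- bound for qw
  obtain ⟨Q, hQ⟩ := isCompact_Icc.exists_bound_of_continuousOn hqc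
  have hQ0 : 0 ≤ Q := le_trans (norm_nonneg _) (hQ (R / 2) ⟨le_rfl, hle⟩)
  set u : ℤ × ℤ → ℝ := fun k => Q * (C2 * (3 * R / 2 + 1)) * ((nk k)⁻¹ * ‖fhat φ (δ * k.1) (δ * k.2)‖) with hu
  have hus : Summable u := hs1.mul_left _
  set F : ℤ × ℤ → ℝ → ℝ := fun k r => qw w K R r * tr φ δ k (hk (fun θ => r * H θ + s) k) with hF
  have hFc : ∀ k, ContinuousOn (F k) (Icc (R / 2) (3 * R / 2)) := by
    intro k
    refine hqc.mul ?_
    have e : (fun r => tr φ δ k (hk (fun θ => r * H θ + s) k)) =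
        fun r => trL_h36 φ δ k (hk (fun θ => r * H θ + s) k) := by
      funext r
      rw [trL_eq_h36]
    rw [e]
    exact ((trL_h36 φ δ k).continuous.comp (hk_cont_h36 hH s k)).continuousOn
  have hFb : ∀ k, ∀ r ∈ Icc (R / 2) (3 * R / 2), ‖F k r‖ ≤ u k := by
    intro k r hr
    have a1 := hQ r hr
    have a2 := tr_le φ δ k (hk (fun θ => r * H θ + s) k)
    have a3 := h2 r s (by linarith [hr.1]) hs k
    have a4 : C2 * (r + 1) ≤ C2 * (3 * R / 2 + 1) := mul_le_mul_of_nonneg_left (by linarith [hr.2]) hC2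
    have a5 : 0 ≤ (nk k)⁻¹ * ‖fhat φ (δ * k.1) (δ * k.2)‖ :=
      mul_nonneg (inv_nonneg.2 (nk_nonneg_h36 k)) (norm_nonneg _)
    simp only [hF, hu]
    rw [norm_mul, Real.norm_eq_abs (tr _ _ _ _)]
    calc ‖qw w K R r‖ * |tr φ δ k (hk (fun θ => r * H θ + s) k)|
        ≤ Q * ((nk k)⁻¹ * ‖fhat φ (δ * k.1) (δ * k.2)‖ * (C2 * (3 * R / 2 + 1))) := by
          refine mul_le_mul a1 (a2.trans ?_) (abs_nonneg _) hQ0
          exact mul_le_mul_of_nonneg_left (a3.trans a4) a5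
      _ = _ := by ring
  have hsub : Set.uIoc (R / 2) (3 * R / 2) ⊆ Icc (R / 2) (3 * R / 2) := by
    rw [Set.uIoc_of_le hle]
    exact Ioc_subset_Icc_self
  have hsum : ∀ r ∈ Icc (R / 2) (3 * R / 2), HasSum (fun k => F k r)
      (qw w K R r * ∑' k : ℤ × ℤ, tr φ δ k (hk (fun θ => r * H θ + s) k)) := by
    intro r hr
    have b1 : Summable (fun k => F k r) := Summable.of_norm_bounded hus fun k => hFb k r hr
    have b2 : (∑' k, F k r) = qw w K R r * ∑' k : ℤ × ℤ, tr φ δ k (hk (fun θ => r * H θ + s) k) := by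
      simp only [hF]
      rw [tsum_mul_left]
    rw [← b2]
    exact b1.hasSum
  have hint : IntervalIntegrable (fun r => qw w K R r * ∑' k : ℤ × ℤ, tr φ δ k (hk (fun θ => r * H θ + s) k))
      volume (R / 2) (3 * R / 2) := by
    have c1 : ContinuousOn (fun r => ∑' k, F k r) (Icc (R / 2) (3 * R / 2)) :=
      continuousOn_tsum hFc hus hFb
    have c2 : ContinuousOn (fun r => qw w K R r * ∑' k : ℤ × ℤ, tr φ δ k (hk (fun θ => r * H θ + s) k))
        (Icc (R / 2) (3 * R / 2)) := c1.congr fun r hr => (hsum r hr).tsum_eq.symm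
    exact ContinuousOn.intervalIntegrable_of_Icc hle c2
  refine ⟨hint, ?_⟩
  -- exchange
  have hex : HasSum (fun k => ∫ r in (R / 2)..(3 * R / 2), F k r)
      (∫ r in (R / 2)..(3 * R / 2), qw w K R r * ∑' k : ℤ × ℤ, tr φ δ k (hk (fun θ => r * H θ + s) k)) := by
    refine intervalIntegral.hasSum_integral_of_dominated_convergence (fun k _ => u k) ?_ ?_ ?_ ?_ ?_
    · intro k
      exact ((hFc k).mono hsub).aestronglyMeasurable measurableSet_uIoc
    · intro k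
      exact Eventually.of_forall fun r hr => hFb k r (hsub hr)
    · exact Eventually.of_forall fun r _ => hus
    · exact intervalIntegrable_const
    · exact Eventually.of_forall fun r hr => hsum r (hsub hr)
  have hterm : ∀ k, ∫ r in (R / 2)..(3 * R / 2), F k r = trL_h36 φ δ k
      (∫ r in (R / 2)..(3 * R / 2), ((qw w K R r : ℝ) : ℂ) * hk (fun θ => r * H θ + s) k) := by
    intro k
    have hi : IntervalIntegrable (fun r => ((qw w K R r : ℝ) : ℂ) * hk (fun θ => r * H θ + s) k)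
        volume (R / 2) (3 * R / 2) := by
      refine ContinuousOn.intervalIntegrable_of_Icc hle ?_
      exact (Complex.continuous_ofReal.comp_continuousOn hqc).mul (hk_cont_h36 hH s k).continuousOn
    rw [← ContinuousLinearMap.intervalIntegral_comp_comm _ hi]
    congr 1
    funext r
    simp only [hF]
    rw [← trL_eq_h36, ← Complex.real_smul, map_smul, smul_eq_mul]
  simp only [hterm] at hex
  have hL : Summable (fun k => trL_h36 φ δ k (Lk W H K R s k)) := by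
    refine Summable.of_norm_bounded (hs1.mul_left (C3 * R)) fun k => ?_
    rw [trL_eq_h36, Real.norm_eq_abs]
    have a2 := tr_le φ δ k (Lk W H K R s k)
    have a5 : 0 ≤ (nk k)⁻¹ * ‖fhat φ (δ * k.1) (δ * k.2)‖ :=
      mul_nonneg (inv_nonneg.2 (nk_nonneg_h36 k)) (norm_nonneg _)
    refine a2.trans ?_
    rw [mul_comm (C3 * R)]
    exact mul_le_mul_of_nonneg_left (h3 R K s hR hK hs k) a5
  have hdiff := hex.sub hL.hasSum
  simp only [trL_eq_h36] at hdiff
  rw [← hdiff.tsum_eq]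
  have hfin : HasSum (fun k : ℤ × ℤ => C4 * (|s| + R ^ (-2 : ℝ)) * ((nk k)⁻¹ * ‖fhat φ (δ * k.1) (δ * k.2)‖))
      (C4 * (|s| + R ^ (-2 : ℝ)) * ∑' k : ℤ × ℤ, (nk k)⁻¹ * ‖fhat φ (δ * k.1) (δ * k.2)‖) :=
    hs1.hasSum.mul_left _
  have hnn : 0 ≤ C4 * (|s| + R ^ (-2 : ℝ)) := by positivity
  rw [← Real.norm_eq_abs]
  refine (tsum_of_norm_bounded hfin fun k => ?_).trans ?_
  · have a5 : 0 ≤ (nk k)⁻¹ * ‖fhat φ (δ * k.1) (δ * k.2)‖ :=
      mul_nonneg (inv_nonneg.2 (nk_nonneg_h36 k)) (norm_nonneg _)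
    rw [← trL_eq_h36, ← trL_eq_h36, ← map_sub, trL_eq_h36, Real.norm_eq_abs]
    refine (tr_le _ _ _ _).trans ?_
    rw [mul_comm (C4 * (|s| + R ^ (-2 : ℝ)))]
    exact mul_le_mul_of_nonneg_left (h4 R K s hR hK hs k) a5
  · calc C4 * (|s| + R ^ (-2 : ℝ)) * ∑' k : ℤ × ℤ, (nk k)⁻¹ * ‖fhat φ (δ * k.1) (δ * k.2)‖
        ≤ C4 * (|s| + R ^ (-2 : ℝ)) * (C1 / δ) := mul_le_mul_of_nonneg_left hs2 hnn
      _ = C4 * C1 * (|s| + R ^ (-2 : ℝ)) / δ := by ring

end Pool.Agent.Helper92.EO
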