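import Pool.Agent.Helper92.EO.Poi
import Pool.Agent.Helper22.AE.P3

/-!
# EO-O7: one-sided bounds for the lattice error

PROOF. Exactly as `err_le_poisson` (AE/P4): `δ = R^(-1/2) ≤ 1`, `r ∈ [R/2, 3R/2]`; `supp_affine` gives the support functions `r H`, `r H ± δ` for `R ≥ R₁`;
`le_smc` / `smc_le` (AE/P3): `smc (r H - δ) ≤ cnt H r ≤ smc (r H + δ)`; `smc_real`; `area_bound` (AE/G6) with `s = ± δ`:
`|vol (dom (r H ± δ)) - r² area H| ≤ C r δ ≤ 2 C R^(1/2)`.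
-/

open MeasureTheory Real Set Filter Topology

set_option autoImplicit false

namespace Pool.Agent.Helper92.EO

open Pool.Agent.Helper22.AE

theorem one_sided {H : ℝ → ℝ} (hH : IsSupp H) {φ : ℝ × ℝ → ℝ} (hφ : IsBump φ) :
    ∃ C R₁ : ℝ, 0 ≤ C ∧ 1 ≤ R₁ ∧ ∀ R : ℝ, R₁ ≤ R → ∀ r ∈ Icc (R / 2) (3 * R / 2),
      cnt H r - area H * r ^ 2 ≤ C * R ^ (1 / 2 : ℝ) +
        ∑' k : ℤ × ℤ, tr φ (R ^ (-(1 / 2) : ℝ)) k (hk (fun θ => r * H θ + R ^ (-(1 / 2) : ℝ)) k) ∧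
      -(C * R ^ (1 / 2 : ℝ)) +
        ∑' k : ℤ × ℤ, tr φ (R ^ (-(1 / 2) : ℝ)) k (hk (fun θ => r * H θ + -R ^ (-(1 / 2) : ℝ)) k) ≤
        cnt H r - area H * r ^ 2 := by
  obtain ⟨C, R₁, hR₁, hC⟩ := area_bound hH
  obtain ⟨R₂, hR₂, hS⟩ := supp_affine hH
  refine ⟨2 * |C|, max (2 * R₁) (max (2 * R₂) 1), by positivity,
    (le_max_right _ _).trans (le_max_right _ _), ?_⟩
  intro R hR r hr
  have hRa : 2 * R₁ ≤ R := (le_max_left _ _).trans hR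
  have hRb : 2 * R₂ ≤ R := ((le_max_left _ _).trans (le_max_right _ _)).trans hR
  have hRc : 1 ≤ R := ((le_max_right _ _).trans (le_max_right _ _)).trans hR
  have hRp : 0 < R := by linarith
  have hr1 : R₁ ≤ r := by linarith [hr.1]
  have hr2 : R₂ ≤ r := by linarith [hr.1]
  have hrp : 0 < r := by linarith [hr.1]
  set δ : ℝ := R ^ (-(1 / 2) : ℝ) with hδdef
  have hδ0 : 0 < δ := Real.rpow_pos_of_pos hRp _
  have hδ1 : δ ≤ 1 := Real.rpow_le_one_of_one_le_of_nonpos hRc (by norm_num)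
  have hδR : R * δ = R ^ (1 / 2 : ℝ) := by
    rw [hδdef]
    nth_rewrite 1 [← Real.rpow_one R]
    rw [← Real.rpow_add hRp]
    norm_num
  have hsupp0 : IsSupp (fun θ => r * H θ) := by
    have h := hS r hr2 0 (by norm_num)
    simpa using h
  have hsuppp : IsSupp (fun θ => r * H θ + δ) :=
    hS r hr2 δ (by rw [abs_of_pos hδ0]; exact hδ1)
  have hsuppm : IsSupp (fun θ => r * H θ + -δ) :=
    hS r hr2 (-δ) (by rw [abs_neg, abs_of_pos hδ0]; exact hδ1)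
  have hbd : C * r * δ ≤ 2 * |C| * R ^ (1 / 2 : ℝ) := by
    have h1 : C * r ≤ |C| * (2 * R) :=
      mul_le_mul (le_abs_self C) (by linarith [hr.2]) hrp.le (abs_nonneg C)
    have h2 : C * r * δ ≤ |C| * (2 * R) * δ := mul_le_mul_of_nonneg_right h1 hδ0.le
    refine h2.trans (le_of_eq ?_)
    rw [← hδR]
    ring
  have hap := hC r hr1 δ (by rw [abs_of_pos hδ0]; exact hδ1)
  have ham := hC r hr1 (-δ) (by rw [abs_neg, abs_of_pos hδ0]; exact hδ1)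
  rw [abs_of_pos hδ0] at hap
  rw [abs_neg, abs_of_pos hδ0] at ham
  have hcnt : cnt H r = (Nat.card {k : ℤ × ℤ // ((k.1 : ℝ), (k.2 : ℝ)) ∈ dom (fun θ => r * H θ)} : ℝ) := rfl
  have h1 : cnt H r ≤ smc φ δ (fun θ => r * H θ + δ) := by
    rw [hcnt]
    exact le_smc hsupp0 hsuppp hφ hδ0 (fun θ => le_rfl)
  have h2 : smc φ δ (fun θ => r * H θ + -δ) ≤ cnt H r := by
    rw [hcnt]
    exact smc_le hsuppm hsupp0 hφ hδ0 (fun θ => by linarith)
  rw [smc_real hsuppp hφ hδ0 hδ1] at h1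
  rw [smc_real hsuppm hφ hδ0 hδ1] at h2
  have h3 := (abs_le.1 (hap.trans hbd))
  have h4 := (abs_le.1 (ham.trans hbd))
  constructor
  · linarith [h3.2]
  · linarith [h4.1]

end Pool.Agent.Helper92.EO
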