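import Pool.Agent.Helper92.EO.One
import Pool.Agent.Helper92.EO.Avg2

/-!
# EO-O10: the averaged error between two sums

PROOF. `Av w H K R = ∫ qw * err`, `qw ≥ 0` (`qw_nonneg`), `∫ qw ≤ 2` (`qw_int`); `one_sided` for `r ∈ [R/2, 3R/2]`; `avg_sum` with `s = ± δ`, `δ = R^(-1/2)`:
`C (δ + R^(-2)) / δ ≤ 2 C ≤ 2 C R^(1/2)`. Integrability of `qw * err`: `cnt H` is monotone on `[0, ∞)` (`H > 0`), so it is interval integrable
(`MonotoneOn.intervalIntegrable`), times the continuous function `qw` (`qw_cont`).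
-/

open MeasureTheory Real Set Filter Topology

set_option autoImplicit false

namespace Pool.Agent.Helper92.EO

open Pool.Agent.Helper22.AE

private lemma av_finite (G : ℝ → ℝ) :
    {k : ℤ × ℤ | ∀ θ : ℝ, (k.1 : ℝ) * cos θ + (k.2 : ℝ) * sin θ ≤ G θ}.Finite := by
  apply Set.Finite.subset (Set.Finite.prod (Set.finite_Icc (-⌈G π⌉) ⌈G 0⌉) (Set.finite_Icc (-⌈G (-(π / 2))⌉) ⌈G (π / 2)⌉))
  intro k hk
  have hk' : ∀ θ : ℝ, (k.1 : ℝ) * cos θ + (k.2 : ℝ) * sin θ ≤ G θ := hk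
  have h1 := hk' 0
  have h2 := hk' π
  have h3 := hk' (π / 2)
  have h4 := hk' (-(π / 2))
  simp only [cos_zero, sin_zero, cos_pi, sin_pi, cos_pi_div_two, sin_pi_div_two, cos_neg, sin_neg, mul_one,
    mul_zero, add_zero, zero_add, mul_neg] at h1 h2 h3 h4
  rw [Set.mem_prod, Set.mem_Icc, Set.mem_Icc]
  refine ⟨⟨?_, ?_⟩, ?_, ?_⟩
  · have : (-(⌈G π⌉ : ℝ)) ≤ k.1 := by linarith [Int.le_ceil (G π)]
    exact_mod_cast this
  · have : (k.1 : ℝ) ≤ ⌈G 0⌉ := by linarith [Int.le_ceil (G 0)]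
    exact_mod_cast this
  · have : (-(⌈G (-(π / 2))⌉ : ℝ)) ≤ k.2 := by linarith [Int.le_ceil (G (-(π / 2)))]
    exact_mod_cast this
  · have : (k.2 : ℝ) ≤ ⌈G (π / 2)⌉ := by linarith [Int.le_ceil (G (π / 2))]
    exact_mod_cast this

theorem cnt_mono {H : ℝ → ℝ} (hH : IsSupp H) : MonotoneOn (cnt H) (Ici 0) := by
  intro R _ R' _ h
  unfold cnt
  have hf := av_finite (fun θ => R' * H θ)
  have h1 : Nat.card {k : ℤ × ℤ | ∀ θ : ℝ, (k.1 : ℝ) * cos θ + (k.2 : ℝ) * sin θ ≤ R * H θ} ≤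
      Nat.card {k : ℤ × ℤ | ∀ θ : ℝ, (k.1 : ℝ) * cos θ + (k.2 : ℝ) * sin θ ≤ R' * H θ} := by
    apply Nat.card_mono hf
    intro k hk θ
    exact (hk θ).trans (mul_le_mul_of_nonneg_right h (hH.pos θ).le)
  exact_mod_cast h1

private lemma av_err_int {H : ℝ → ℝ} (hH : IsSupp H) {R : ℝ} (hR : 0 < R) :
    IntervalIntegrable (fun r => cnt H r - area H * r ^ 2) volume (R / 2) (3 * R / 2) := by
  refine IntervalIntegrable.sub ?_ (Continuous.intervalIntegrable (by fun_prop) _ _)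
  refine MonotoneOn.intervalIntegrable ((cnt_mono hH).mono ?_)
  rw [uIcc_of_le (by linarith)]
  intro x hx
  have : 0 < R / 2 := by linarith
  exact this.le.trans hx.1

private lemma av_cont {w W : ℝ → ℝ} (hw : IsKer w W) {K R : ℝ} (hK : 0 < K) (hR : 0 < R) :
    ContinuousOn (qw w K R) (uIcc (R / 2) (3 * R / 2)) := by
  rw [uIcc_of_le (by linarith)]
  exact qw_cont hw hK hR

private lemma av_int {w W : ℝ → ℝ} (hw : IsKer w W) {H : ℝ → ℝ} (hH : IsSupp H) {K R : ℝ} (hK : 0 < K)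
    (hR : 0 < R) : IntervalIntegrable (fun r => qw w K R r * (cnt H r - area H * r ^ 2)) volume
      (R / 2) (3 * R / 2) :=
  (av_err_int hH hR).continuousOn_mul (av_cont hw hK hR)

private lemma av_qw {w W : ℝ → ℝ} (hw : IsKer w W) {K R : ℝ} (hK : 0 < K) (hR : 0 < R) (E : ℝ) :
    IntervalIntegrable (fun r => qw w K R r * E) volume (R / 2) (3 * R / 2) ∧
      (0 ≤ E → ∫ r in (R / 2)..(3 * R / 2), qw w K R r * E ≤ 2 * E) := by
  refine ⟨((av_cont hw hK hR).mul continuousOn_const).intervalIntegrable, fun hE => ?_⟩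
  rw [intervalIntegral.integral_mul_const]
  exact mul_le_mul_of_nonneg_right (qw_int hw hK hR) hE

private lemma av_qw0 {w W : ℝ → ℝ} (hw : IsKer w W) {K R : ℝ} (hK : 0 < K) (hR : 0 < R) :
    0 ≤ ∫ r in (R / 2)..(3 * R / 2), qw w K R r :=
  intervalIntegral.integral_nonneg (by linarith) fun r hr => qw_nonneg hw hK hR hr

private lemma av_upper {w W : ℝ → ℝ} (hw : IsKer w W) {H : ℝ → ℝ} (hH : IsSupp H) {K R E : ℝ} (hK : 0 < K)
    (hR : 0 < R) (hE : 0 ≤ E) {S : ℝ → ℝ}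
    (hS : IntervalIntegrable (fun r => qw w K R r * S r) volume (R / 2) (3 * R / 2))
    (h : ∀ r ∈ Icc (R / 2) (3 * R / 2), cnt H r - area H * r ^ 2 ≤ E + S r) :
    Av w H K R ≤ 2 * E + ∫ r in (R / 2)..(3 * R / 2), qw w K R r * S r := by
  obtain ⟨h1, h2⟩ := av_qw hw hK hR E
  have h3 : Av w H K R ≤ ∫ r in (R / 2)..(3 * R / 2), (qw w K R r * E + qw w K R r * S r) := by
    refine intervalIntegral.integral_mono_on (by linarith) (av_int hw hH hK hR) (h1.add hS) ?_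
    intro r hr
    rw [← mul_add]
    exact mul_le_mul_of_nonneg_left (h r hr) (qw_nonneg hw hK hR hr)
  rw [intervalIntegral.integral_add h1 hS] at h3
  linarith [h2 hE]

private lemma av_lower {w W : ℝ → ℝ} (hw : IsKer w W) {H : ℝ → ℝ} (hH : IsSupp H) {K R E : ℝ} (hK : 0 < K)
    (hR : 0 < R) (hE : 0 ≤ E) {S : ℝ → ℝ}
    (hS : IntervalIntegrable (fun r => qw w K R r * S r) volume (R / 2) (3 * R / 2))
    (h : ∀ r ∈ Icc (R / 2) (3 * R / 2), -E + S r ≤ cnt H r - area H * r ^ 2) :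
    -(2 * E) + ∫ r in (R / 2)..(3 * R / 2), qw w K R r * S r ≤ Av w H K R := by
  obtain ⟨h1, h2⟩ := av_qw hw hK hR E
  have h3 : (∫ r in (R / 2)..(3 * R / 2), (qw w K R r * S r - qw w K R r * E)) ≤ Av w H K R := by
    refine intervalIntegral.integral_mono_on (by linarith) (hS.sub h1) (av_int hw hH hK hR) ?_
    intro r hr
    rw [← mul_sub]
    refine mul_le_mul_of_nonneg_left ?_ (qw_nonneg hw hK hR hr)
    linarith [h r hr]
  rw [intervalIntegral.integral_sub hS h1] at h3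
  linarith [h2 hE]

theorem Av_bounds {w W : ℝ → ℝ} (hw : IsKer w W) {H : ℝ → ℝ} (hH : IsSupp H) {φ : ℝ × ℝ → ℝ} (hφ : IsBump φ) :
    ∃ C R₁ : ℝ, 0 ≤ C ∧ 1 ≤ R₁ ∧ ∀ R K : ℝ, R₁ ≤ R → 1 ≤ K →
      Av w H K R ≤ C * R ^ (1 / 2 : ℝ) + ∑' k : ℤ × ℤ, tr φ (R ^ (-(1 / 2) : ℝ)) k (Lk W H K R (R ^ (-(1 / 2) : ℝ)) k) ∧
      -(C * R ^ (1 / 2 : ℝ)) + ∑' k : ℤ × ℤ, tr φ (R ^ (-(1 / 2) : ℝ)) k (Lk W H K R (-R ^ (-(1 / 2) : ℝ)) k) ≤ Av w H K R := by
  obtain ⟨C0, R₁, hC0, hR₁, hone⟩ := one_sided hH hφ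
  obtain ⟨C1, hC1, hsum⟩ := avg_sum hw hH hφ
  refine ⟨2 * C0 + 2 * C1, R₁, by positivity, hR₁, fun R K hR hK => ?_⟩
  have hR1 : 1 ≤ R := hR₁.trans hR
  have hR0 : 0 < R := by linarith
  have hK0 : 0 < K := by linarith
  set δ : ℝ := R ^ (-(1 / 2) : ℝ) with hδdef
  have hδ : 0 < δ := Real.rpow_pos_of_pos hR0 _
  have hδ1 : δ ≤ 1 := Real.rpow_le_one_of_one_le_of_nonpos hR1 (by norm_num)
  have hs1 : |δ| ≤ 1 := by rw [abs_of_pos hδ]; exact hδ1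
  have hs2 : |-δ| ≤ 1 := by rw [abs_neg]; exact hs1
  obtain ⟨i1, j1⟩ := hsum R K δ δ hR1 hK hs1 hδ hδ1
  obtain ⟨i2, j2⟩ := hsum R K (-δ) δ hR1 hK hs2 hδ hδ1
  have hE : 0 ≤ C0 * R ^ (1 / 2 : ℝ) := mul_nonneg hC0 (Real.rpow_nonneg hR0.le _)
  have hup := av_upper hw hH hK0 hR0 hE i1 (fun r hr => (hone R hR r hr).1)
  have hlo := av_lower hw hH hK0 hR0 hE i2 (fun r hr => (hone R hR r hr).2)
  have hrt : 1 ≤ R ^ (1 / 2 : ℝ) := Real.one_le_rpow hR1 (by norm_num)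
  have hpow : R ^ (-2 : ℝ) ≤ δ := Real.rpow_le_rpow_of_exponent_le hR1 (by norm_num)
  have herr : ∀ s : ℝ, |s| = δ → C1 * (|s| + R ^ (-2 : ℝ)) / δ ≤ 2 * C1 * R ^ (1 / 2 : ℝ) := by
    intro s hs
    rw [hs, div_le_iff₀ hδ]
    have h1 : C1 * (δ + R ^ (-2 : ℝ)) ≤ C1 * (2 * δ) := mul_le_mul_of_nonneg_left (by linarith) hC1
    have h2 : 2 * C1 * δ ≤ 2 * C1 * R ^ (1 / 2 : ℝ) * δ := by
      refine mul_le_mul_of_nonneg_right ?_ hδ.le
      exact le_mul_of_one_le_right (by positivity) hrt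
    linarith
  have e1 := herr δ (abs_of_pos hδ)
  have e2 := herr (-δ) (by rw [abs_neg, abs_of_pos hδ])
  have k1 := (abs_le.1 (j1.trans e1)).2
  have k2 := (abs_le.1 (j2.trans e2)).1
  constructor
  · linarith
  · linarith

/-- an upper bound for the error gives an upper bound for the average -/
theorem Av_le {w W : ℝ → ℝ} (hw : IsKer w W) {H : ℝ → ℝ} (hH : IsSupp H) {K R E : ℝ} (hK : 0 < K) (hR : 0 < R) (hE : 0 ≤ E)
    (h : ∀ r ∈ Icc (R / 2) (3 * R / 2), cnt H r - area H * r ^ 2 ≤ E) : Av w H K R ≤ 2 * E := by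
  have h1 := av_upper hw hH hK hR hE (S := fun _ => 0) (by
    simp only [mul_zero]
    exact intervalIntegrable_const) (fun r hr => by rw [add_zero]; exact h r hr)
  simpa using h1

theorem Av_ge {w W : ℝ → ℝ} (hw : IsKer w W) {H : ℝ → ℝ} (hH : IsSupp H) {K R E : ℝ} (hK : 0 < K) (hR : 0 < R) (hE : 0 ≤ E)
    (h : ∀ r ∈ Icc (R / 2) (3 * R / 2), -E ≤ cnt H r - area H * r ^ 2) : -(2 * E) ≤ Av w H K R := by
  have h1 := av_lower hw hH hK hR hE (S := fun _ => 0) (by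
    simp only [mul_zero]
    exact intervalIntegrable_const) (fun r hr => by rw [add_zero]; exact h r hr)
  simpa using h1

end Pool.Agent.Helper92.EO
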