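import Pool.Agent.Helper22.AE.Defs

/-!
# ExactOrder (MP_fb29e9_nt), part O (lower bounds): definitions

Paper proof: /team-store/h92_EO_O.md. Idea: the lattice error is averaged over the radius with a band limited kernel; the average has an
explicit main term for every `C²` support function.
-/

open MeasureTheory Real Set Filter Topology

set_option autoImplicit false

namespace Pool.Agent.Helper92.EO

open Pool.Agent.Helper22.AE

/-- a nonnegative kernel `w` with Fourier transform `W` supported in `[-1, 1]` -/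
structure IsKer (w W : ℝ → ℝ) : Prop where
  cont : Continuous w
  nonneg : ∀ u, 0 ≤ w u
  decay : ∃ C : ℝ, ∀ u, w u * (1 + u ^ 2) ^ 2 ≤ C
  int_one : ∫ u, w u = 1
  four : ∀ x : ℝ, ∫ u : ℝ, ((w u : ℝ) : ℂ) * ee (-(x * u)) = ((W x : ℝ) : ℂ)
  smooth : ContDiff ℝ 1 W
  supp : ∀ x, 1 ≤ |x| → W x = 0
  Wnn : ∀ x, 0 ≤ W x
  lower : ∃ c : ℝ, 0 < c ∧ ∀ x, |x| ≤ 1 / 2 → c ≤ W x

/-- the weight of the average over the radius -/
noncomputable def qw (w : ℝ → ℝ) (K R r : ℝ) : ℝ := K * w (K * (r - R)) * (R / r)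

/-- the averaged lattice error -/
noncomputable def Av (w : ℝ → ℝ) (H : ℝ → ℝ) (K R : ℝ) : ℝ :=
  ∫ r in (R / 2)..(3 * R / 2), qw w K R r * (cnt H r - area H * r ^ 2)

open Classical in
/-- the lattice points with `0 < |k| ≤ M` -/
noncomputable def kset (M : ℝ) : Finset (ℤ × ℤ) := (box ⌈M⌉₊).filter (fun k => k ≠ 0 ∧ nk k ≤ M)

/-- the main term -/
noncomputable def mainT (W : ℝ → ℝ) (H : ℝ → ℝ) (M K R : ℝ) : ℝ :=
  R ^ (1 / 2 : ℝ) / π * ∑ k ∈ kset M, nk k ^ (-(3 / 2) : ℝ) * sqrt (rho H (tk k)) * W (nk k * H (tk k) / K) *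
    cos (2 * π * (R * (nk k * H (tk k))) - 3 * π / 4)

/-- the half-range boundary integral -/
noncomputable def hk (G : ℝ → ℝ) (k : ℤ × ℤ) : ℂ :=
  ∫ α in (-(π / 2))..(π / 2), ((cos α * rho G (tk k + α) : ℝ) : ℂ) * ee (-(nk k * gph G k α))

/-- the term of the frequency `k` (it is `0` for `k = 0`, since `nk 0 = 0`) -/
noncomputable def tr (φ : ℝ × ℝ → ℝ) (δ : ℝ) (k : ℤ × ℤ) (z : ℂ) : ℝ :=
  (π * nk k)⁻¹ * (Complex.I * z * fhat φ (δ * k.1) (δ * k.2)).re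

/-- the integrand of the averaged half-range integral -/
noncomputable def Li (W : ℝ → ℝ) (H : ℝ → ℝ) (K R s : ℝ) (k : ℤ × ℤ) (α : ℝ) : ℂ :=
  ((cos α * (R * rho H (tk k + α) + s) * W (nk k * gph H k α / K) : ℝ) : ℂ) *
    ee (-(nk k * (R * gph H k α + s * cos α)))

/-- the averaged half-range integral -/
noncomputable def Lk (W : ℝ → ℝ) (H : ℝ → ℝ) (K R s : ℝ) (k : ℤ × ℤ) : ℂ :=
  ∫ α in (-(π / 2))..(π / 2), Li W H K R s k α

/-- its asymptotic value -/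
noncomputable def mk (W : ℝ → ℝ) (H : ℝ → ℝ) (K R : ℝ) (k : ℤ × ℤ) : ℂ :=
  (((R / nk k) ^ (1 / 2 : ℝ) * sqrt (rho H (tk k)) * W (nk k * H (tk k) / K) : ℝ) : ℂ) *
    ee (1 / 8 - R * (nk k * H (tk k)))

end Pool.Agent.Helper92.EO
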