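import Pool.Agent.Helper92.EO.OBase

/-!
# EO-O17: simultaneous approximation

PROOF. Pigeonhole: `n = s.card`; the points `j X`, `0 ≤ j ≤ q^n`, give `q^n + 1` vectors `(⌊q · fract (j X lam i)⌋)_{i ∈ s}` with entries in `{0, .., q-1}`, so two of them, `j < j'`, agree
(`Finset.exists_ne_map_eq_of_card_lt_of_maps_to`, target `Fintype.piFinset` or functions `s → Fin q`). `R = (j' - j) X ∈ [X, X q^n]`, and
`R lam i = (j' X lam i) - (j X lam i)` differs from an integer by at most `|fract - fract| ≤ 1/q`.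
-/

open MeasureTheory Real Set Filter Topology

set_option autoImplicit false

namespace Pool.Agent.Helper92.EO

open Pool.Agent.Helper22.AE

theorem dirichlet {ι : Type*} (s : Finset ι) (lam : ι → ℝ) {q : ℕ} (hq : 1 ≤ q) {X : ℝ} (hX : 0 < X) :
    ∃ R : ℝ, X ≤ R ∧ R ≤ X * (q : ℝ) ^ s.card ∧ ∀ i ∈ s, ∃ z : ℤ, |R * lam i - z| ≤ 1 / q := by
  classical
  have hq0 : (0 : ℝ) < q := by exact_mod_cast hq
  have hlt : ∀ x : ℝ, ⌊(q : ℝ) * Int.fract x⌋₊ < q := by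
    intro x
    rw [Nat.floor_lt (mul_nonneg hq0.le (Int.fract_nonneg x))]
    calc (q : ℝ) * Int.fract x < q * 1 := by
          apply mul_lt_mul_of_pos_left (Int.fract_lt_one x) hq0
      _ = q := mul_one _
  let F : Fin (q ^ s.card + 1) → (s → Fin q) := fun j i => ⟨⌊(q : ℝ) * Int.fract ((j : ℕ) * X * lam i)⌋₊, hlt _⟩
  have hcard : Fintype.card (s → Fin q) < Fintype.card (Fin (q ^ s.card + 1)) := by
    simp
  obtain ⟨a, b, hab, hF⟩ := Fintype.exists_ne_map_eq_of_card_lt F hcard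
  have key : ∀ a b : Fin (q ^ s.card + 1), a < b → F a = F b →
      ∃ R : ℝ, X ≤ R ∧ R ≤ X * (q : ℝ) ^ s.card ∧ ∀ i ∈ s, ∃ z : ℤ, |R * lam i - z| ≤ 1 / q := by
    intro a b hab hF
    have h1 : (1 : ℝ) ≤ ((b : ℕ) : ℝ) - ((a : ℕ) : ℝ) := by
      have : (a : ℕ) + 1 ≤ (b : ℕ) := hab
      have h2 : (((a : ℕ) + 1 : ℕ) : ℝ) ≤ ((b : ℕ) : ℝ) := by exact_mod_cast this
      push_cast at h2
      linarith
    have h2 : ((b : ℕ) : ℝ) - ((a : ℕ) : ℝ) ≤ (q : ℝ) ^ s.card := by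
      have h3 : ((b : ℕ) : ℝ) ≤ (q : ℝ) ^ s.card := by
        have : (b : ℕ) ≤ q ^ s.card := Nat.lt_succ_iff.mp b.2
        exact_mod_cast this
      have h4 : (0 : ℝ) ≤ ((a : ℕ) : ℝ) := Nat.cast_nonneg _
      linarith
    refine ⟨(((b : ℕ) : ℝ) - ((a : ℕ) : ℝ)) * X, ?_, ?_, ?_⟩
    · nlinarith
    · nlinarith
    · intro i hi
      refine ⟨⌊((b : ℕ) : ℝ) * X * lam i⌋ - ⌊((a : ℕ) : ℝ) * X * lam i⌋, ?_⟩
      have hfa := Int.self_sub_floor (((a : ℕ) : ℝ) * X * lam i)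
      have hfb := Int.self_sub_floor (((b : ℕ) : ℝ) * X * lam i)
      have e1 : (((b : ℕ) : ℝ) - ((a : ℕ) : ℝ)) * X * lam i -
          ((⌊((b : ℕ) : ℝ) * X * lam i⌋ - ⌊((a : ℕ) : ℝ) * X * lam i⌋ : ℤ) : ℝ) =
          Int.fract (((b : ℕ) : ℝ) * X * lam i) - Int.fract (((a : ℕ) : ℝ) * X * lam i) := by
        rw [← hfa, ← hfb]
        push_cast
        ring
      rw [e1]
      have hFi := congrFun hF ⟨i, hi⟩
      have hn : ⌊(q : ℝ) * Int.fract (((a : ℕ) : ℝ) * X * lam i)⌋₊ = ⌊(q : ℝ) * Int.fract (((b : ℕ) : ℝ) * X * lam i)⌋₊ :=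
        congrArg Fin.val hFi
      set A := Int.fract (((a : ℕ) : ℝ) * X * lam i) with hA
      set B := Int.fract (((b : ℕ) : ℝ) * X * lam i) with hB
      have hA0 : 0 ≤ A := Int.fract_nonneg _
      have hB0 : 0 ≤ B := Int.fract_nonneg _
      have a1 := Nat.floor_le (mul_nonneg hq0.le hA0)
      have a2 := Nat.lt_floor_add_one ((q : ℝ) * A)
      have b1 := Nat.floor_le (mul_nonneg hq0.le hB0)
      have b2 := Nat.lt_floor_add_one ((q : ℝ) * B)
      rw [hn] at a1 a2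
      have h5 : |(q : ℝ) * (B - A)| ≤ 1 := by
        rw [abs_le]; constructor <;> linarith
      rw [abs_mul, abs_of_pos hq0] at h5
      rw [le_div_iff₀ hq0, mul_comm]
      exact h5
  rcases lt_or_gt_of_ne hab with h | h
  · exact key a b h hF
  · exact key b a h hF.symm

end Pool.Agent.Helper92.EO
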