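import Pool.Agent.Helper92.EO.Kb
import Pool.Agent.Helper92.EO.Lat
import Pool.Agent.Helper92.EO.Dir

/-!
# EO-O18: radii with a very negative main term

PROOF. Let `A ≥ 1`, `|H| ≤ B`, `B ≥ 1`, `rho H ≥ r₀ > 0`, `W ≥ c₀` on `[-1/2, 1/2]`. Given `X ≥ X₁` put `K = (log X)^(1/2) / (9 A) ≥ 1`; `dirichlet` with `s = kset (A K)`,
`lam k = nk k * H (tk k)`, `q = 24`: `R ∈ [X, X 24^n]`, `n ≤ 25 A² K²` (`kset_card`), `n log 24 ≤ 80 A² K² ≤ log X`, so `log R ≤ 2 log X`.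
All `cos(2π R lam k - 3π/4) ≤ cos(3π/4 - π/12) = -1/2` (`2π/24 = π/12`, integer shifts by periodicity). All the other factors are `≥ 0`, so
`mainT ≤ -(R^(1/2)/(2π)) ∑_{k ∈ kset (K/(2B))} nk k^(-3/2) r₀^(1/2) c₀` (for these `k`: `nk k H / K ≤ 1/2`; `kset (K/(2B)) ⊆ kset (A K)`) `≤ -c R^(1/2) K^(1/2)` by `lat_lower`
(`K/(2B) ≥ 2` for `X ≥ X₁`).
-/

open MeasureTheory Real Set Filter Topology

set_option autoImplicit false

namespace Pool.Agent.Helper92.EO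

open Pool.Agent.Helper22.AE

private lemma low_min {f : ℝ → ℝ} (hf : Continuous f) (hp : Function.Periodic f (2 * π)) :
    ∃ t0 : ℝ, ∀ θ, f t0 ≤ f θ := by
  obtain ⟨t0, -, h0⟩ := isCompact_Icc.exists_isMinOn (s := Icc (0 : ℝ) (2 * π))
    (nonempty_Icc.2 (by positivity)) hf.continuousOn
  refine ⟨t0, fun θ => ?_⟩
  obtain ⟨y, hy, hy'⟩ := hp.exists_mem_Ico₀ (by positivity) θ
  rw [hy']
  exact h0 ⟨hy.1, hy.2.le⟩

private lemma low_max {f : ℝ → ℝ} (hf : Continuous f) (hp : Function.Periodic f (2 * π)) :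
    ∃ t0 : ℝ, ∀ θ, f θ ≤ f t0 := by
  obtain ⟨t0, h⟩ := low_min (f := fun θ => -f θ) hf.neg (fun θ => by simp [hp θ])
  exact ⟨t0, fun θ => by have := h θ; linarith⟩

private lemma low_per_deriv {f : ℝ → ℝ} {c : ℝ} (hp : Function.Periodic f c) : Function.Periodic (deriv f) c := by
  intro x
  have h : (fun y => f (y + c)) = f := funext hp
  have h2 : deriv (fun y => f (y + c)) x = deriv f (x + c) := deriv_comp_add_const f c x
  rw [← h2, h]

private lemma low_rho {H : ℝ → ℝ} (hH : IsSupp H) : ∃ r : ℝ, 0 < r ∧ ∀ θ, r ≤ rho H θ := by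
  have hc2 : Continuous (deriv (deriv H)) := by
    have h1 : ContDiff ℝ 1 (deriv H) := by
      have h : ContDiff ℝ (1 + 1) H := by
        have e : (1 + 1 : WithTop ℕ∞) = 2 := by norm_num
        rw [e]
        exact hH.smooth
      exact (contDiff_succ_iff_deriv.1 h).2.2
    exact h1.continuous_deriv le_rfl
  have hc : Continuous (rho H) := by
    unfold rho
    exact hH.smooth.continuous.add hc2
  have hp : Function.Periodic (rho H) (2 * π) := by
    intro x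
    unfold rho
    rw [hH.per x, low_per_deriv (low_per_deriv hH.per) x]
  obtain ⟨t, ht⟩ := low_min hc hp
  exact ⟨rho H t, hH.rho_pos t, ht⟩

private lemma low_cos {x : ℝ} {z : ℤ} (h : |x - z| ≤ 1 / ((24 : ℕ) : ℝ)) : cos (2 * π * x - 3 * π / 4) ≤ -(1 / 2) := by
  have h24 : ((24 : ℕ) : ℝ) = 24 := by norm_num
  rw [h24, abs_le] at h
  have hπ := pi_pos
  have e : cos (2 * π * x - 3 * π / 4) = cos (3 * π / 4 - 2 * π * (x - z)) := by
    rw [← cos_neg]
    have : -(2 * π * x - 3 * π / 4) = (3 * π / 4 - 2 * π * (x - z)) - z * (2 * π) := by ring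
    rw [this, cos_sub_int_mul_two_pi]
  rw [e]
  have e2 : cos (π - π / 3) = -(1 / 2) := by rw [cos_pi_sub, cos_pi_div_three]
  rw [← e2]
  apply cos_le_cos_of_nonneg_of_le_pi
  · nlinarith
  · nlinarith
  · nlinarith

private lemma low_log24 : Real.log 24 ≤ 81 / 25 := by
  have h2 := Real.log_two_lt_d9
  have h3 : Real.log ((24 : ℝ) ^ 3) ≤ Real.log ((2 : ℝ) ^ 14) := by
    apply Real.log_le_log (by norm_num) (by norm_num)
  rw [Real.log_pow, Real.log_pow] at h3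
  push_cast at h3
  linarith

theorem low {w W : ℝ → ℝ} (hw : IsKer w W) {H : ℝ → ℝ} (hH : IsSupp H) {A : ℝ} (hA : 1 ≤ A) :
    ∃ c X₁ : ℝ, 0 < c ∧ 2 ≤ X₁ ∧ ∀ X : ℝ, X₁ ≤ X → ∃ R K : ℝ, X ≤ R ∧ log R ≤ 2 * log X ∧ 1 ≤ K ∧
      K = (log X) ^ (1 / 2 : ℝ) / (9 * A) ∧ mainT W H (A * K) K R ≤ -(c * R ^ (1 / 2 : ℝ) * K ^ (1 / 2 : ℝ)) := by
  obtain ⟨c₀, hc₀, hW⟩ := hw.lower
  obtain ⟨r₀, hr₀, hρ⟩ := low_rho hH
  obtain ⟨tB, htB⟩ := low_max hH.smooth.continuous hH.per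
  obtain ⟨cl, hcl, hlat⟩ := lat_lower
  set B : ℝ := max 1 (H tB) with hBdef
  have hB1 : 1 ≤ B := le_max_left _ _
  have hB0 : 0 < B := by linarith
  have hHB : ∀ θ, H θ ≤ B := fun θ => (htB θ).trans (le_max_right _ _)
  have hπ := pi_pos
  have hA0 : 0 < A := by linarith
  refine ⟨sqrt r₀ * c₀ * cl * (1 / (2 * B)) ^ (1 / 2 : ℝ) / (2 * π), exp ((36 * A * B) ^ 2), by positivity, ?_, ?_⟩
  · have h1 : (1 : ℝ) ≤ 36 * A * B := by nlinarith
    have h2 : (1 : ℝ) ≤ (36 * A * B) ^ 2 := by nlinarith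
    have := add_one_le_exp ((36 * A * B) ^ 2)
    linarith
  intro X hX
  have hX0 : 0 < X := lt_of_lt_of_le (exp_pos _) hX
  have hlogX : (36 * A * B) ^ 2 ≤ log X := by
    rw [le_log_iff_exp_le hX0]
    exact hX
  have hlog0 : 0 ≤ log X := le_trans (by positivity) hlogX
  have hsq : 36 * A * B ≤ (log X) ^ (1 / 2 : ℝ) := by
    rw [← sqrt_eq_rpow]
    exact le_sqrt_of_sq_le hlogX
  set K : ℝ := (log X) ^ (1 / 2 : ℝ) / (9 * A) with hK
  have hK4 : 4 * B ≤ K := by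
    rw [hK, le_div_iff₀ (by positivity)]
    nlinarith
  have hK1 : 1 ≤ K := by linarith
  have hK0 : 0 < K := by linarith
  have hK2 : 81 * A ^ 2 * K ^ 2 = log X := by
    rw [hK, ← sqrt_eq_rpow, div_pow, sq_sqrt hlog0]
    field_simp
    ring
  obtain ⟨R, hR1, hR2, hR3⟩ := dirichlet (kset (A * K)) (fun k => nk k * H (tk k)) (q := 24) (by norm_num) hX0
  have hR0 : 0 < R := lt_of_lt_of_le hX0 hR1
  refine ⟨R, K, hR1, ?_, hK1, rfl, ?_⟩
  · have hAK : 1 ≤ A * K := by nlinarith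
    have hcard := kset_card hAK
    have h1 : log R ≤ log (X * ((24 : ℕ) : ℝ) ^ (kset (A * K)).card) := log_le_log hR0 hR2
    rw [log_mul hX0.ne' (by positivity), log_pow] at h1
    have h24 : log ((24 : ℕ) : ℝ) ≤ 81 / 25 := by
      have := low_log24
      norm_num at this ⊢
      linarith
    have h24' : 0 ≤ log ((24 : ℕ) : ℝ) := log_natCast_nonneg 24
    have h2 : ((kset (A * K)).card : ℝ) * log ((24 : ℕ) : ℝ) ≤ (25 * (A * K) ^ 2) * (81 / 25) :=
      mul_le_mul hcard h24 h24' (by positivity)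
    have h3 : (25 * (A * K) ^ 2) * (81 / 25) = log X := by
      rw [← hK2]; ring
    have h4 := h2.trans h3.le
    calc log R ≤ _ := h1
      _ ≤ log X + log X := by gcongr
      _ = 2 * log X := by ring
  · set t : ℤ × ℤ → ℝ := fun k => nk k ^ (-(3 / 2) : ℝ) * sqrt (rho H (tk k)) * W (nk k * H (tk k) / K) with ht
    have hnk0 : ∀ k : ℤ × ℤ, 0 ≤ nk k := fun k => norm_nonneg _
    have ht0 : ∀ k, 0 ≤ t k := fun k =>
      mul_nonneg (mul_nonneg (rpow_nonneg (hnk0 k) _) (sqrt_nonneg _)) (hw.Wnn _)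
    have h1 : ∑ k ∈ kset (A * K), nk k ^ (-(3 / 2) : ℝ) * sqrt (rho H (tk k)) * W (nk k * H (tk k) / K) *
        cos (2 * π * (R * (nk k * H (tk k))) - 3 * π / 4) ≤ ∑ k ∈ kset (A * K), -(1 / 2) * t k := by
      apply Finset.sum_le_sum
      intro k hk
      obtain ⟨z, hz⟩ := hR3 k hk
      have hcos := low_cos hz
      have := mul_le_mul_of_nonneg_left hcos (ht0 k)
      simp only [ht] at this ⊢
      linarith
    have hsub : kset (K / (2 * B)) ⊆ kset (A * K) := by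
      intro k hk
      rw [mem_kset] at hk ⊢
      refine ⟨hk.1, hk.2.trans ?_⟩
      have h5 : K / (2 * B) ≤ K := div_le_self hK0.le (by linarith)
      nlinarith
    have h2 : ∑ k ∈ kset (K / (2 * B)), sqrt r₀ * c₀ * nk k ^ (-(3 / 2) : ℝ) ≤ ∑ k ∈ kset (A * K), t k := by
      refine le_trans ?_ (Finset.sum_le_sum_of_subset_of_nonneg hsub (fun k _ _ => ht0 k))
      apply Finset.sum_le_sum
      intro k hk
      rw [mem_kset] at hk
      have hx0 : 0 ≤ nk k * H (tk k) / K := div_nonneg (mul_nonneg (hnk0 k) (hH.pos _).le) hK0.le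
      have hx1 : nk k * H (tk k) / K ≤ 1 / 2 := by
        rw [div_le_iff₀ hK0]
        have h6 : nk k * H (tk k) ≤ (K / (2 * B)) * B :=
          mul_le_mul hk.2 (hHB _) (hH.pos _).le (by positivity)
        have h7 : (K / (2 * B)) * B = 1 / 2 * K := by field_simp
        linarith
      have hw1 := hW (nk k * H (tk k) / K) (by rw [abs_of_nonneg hx0]; exact hx1)
      have hs : sqrt r₀ ≤ sqrt (rho H (tk k)) := sqrt_le_sqrt (hρ _)
      have hn : 0 ≤ nk k ^ (-(3 / 2) : ℝ) := rpow_nonneg (hnk0 k) _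
      simp only [ht]
      calc sqrt r₀ * c₀ * nk k ^ (-(3 / 2) : ℝ) = nk k ^ (-(3 / 2) : ℝ) * sqrt r₀ * c₀ := by ring
        _ ≤ nk k ^ (-(3 / 2) : ℝ) * sqrt (rho H (tk k)) * W (nk k * H (tk k) / K) := by
          apply mul_le_mul _ hw1 hc₀.le (by positivity)
          exact mul_le_mul_of_nonneg_left hs hn
    have h3 : cl * (K / (2 * B)) ^ (1 / 2 : ℝ) ≤ ∑ k ∈ kset (K / (2 * B)), nk k ^ (-(3 / 2) : ℝ) := by
      apply hlat
      rw [le_div_iff₀ (by positivity)]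
      linarith
    have h4 : sqrt r₀ * c₀ * (cl * (K / (2 * B)) ^ (1 / 2 : ℝ)) ≤ ∑ k ∈ kset (A * K), t k := by
      refine le_trans ?_ h2
      rw [← Finset.mul_sum]
      exact mul_le_mul_of_nonneg_left h3 (by positivity)
    have hKB : (K / (2 * B)) ^ (1 / 2 : ℝ) = (1 / (2 * B)) ^ (1 / 2 : ℝ) * K ^ (1 / 2 : ℝ) := by
      rw [← mul_rpow (by positivity) hK0.le]
      congr 1
      ring
    have hR12 : 0 ≤ R ^ (1 / 2 : ℝ) / π := by positivity
    unfold mainT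
    calc R ^ (1 / 2 : ℝ) / π * ∑ k ∈ kset (A * K), nk k ^ (-(3 / 2) : ℝ) * sqrt (rho H (tk k)) *
          W (nk k * H (tk k) / K) * cos (2 * π * (R * (nk k * H (tk k))) - 3 * π / 4)
        ≤ R ^ (1 / 2 : ℝ) / π * ∑ k ∈ kset (A * K), -(1 / 2) * t k := mul_le_mul_of_nonneg_left h1 hR12
      _ = -(R ^ (1 / 2 : ℝ) / (2 * π) * ∑ k ∈ kset (A * K), t k) := by
          rw [← Finset.mul_sum]
          field_simp
      _ ≤ -(R ^ (1 / 2 : ℝ) / (2 * π) * (sqrt r₀ * c₀ * (cl * (K / (2 * B)) ^ (1 / 2 : ℝ)))) := by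
          apply neg_le_neg
          exact mul_le_mul_of_nonneg_left h4 (by positivity)
      _ = -(sqrt r₀ * c₀ * cl * (1 / (2 * B)) ^ (1 / 2 : ℝ) / (2 * π) * R ^ (1 / 2 : ℝ) * K ^ (1 / 2 : ℝ)) := by
          rw [hKB]
          field_simp

end Pool.Agent.Helper92.EO
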