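import Pool.Agent.Helper92.EO.Kb
import Pool.Agent.Helper92.EO.Lat
import Pool.Agent.Helper22.AE.C1
import Pool.Agent.Helper22.AE.C3
import Pool.Agent.Helper22.AE.G6

/-!
# EO-O14: the part near the stationary point

PROOF. `κ = nk k ≥ 1`, `a = T / (R κ)^(1/2) ≤ T R^(-1/2)`. For `|α| ≤ a`, with `ρ = rho H (tk k)`, `ω` the (uniform) modulus of continuity of `rho H` (continuous and periodic) at `a`:
`|cos α - 1| ≤ a²/2`; `|R rho H (tk k + α) + s - R ρ| ≤ R ω + |s|`; `W(κ gph H k α / K) - W(κ H(tk k)/K)` is at most `C (κ/K) B a²/2 ≤ C B T²/(2R)`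
(`W` Lipschitz, `|gph H k α - H (tk k)| ≤ B (1 - cos α)`); and the phase:
`κ (R gph H k α + s cos α) = κ (R H(tk k) + s) - κ R ρ α²/2 + error`, `|error| ≤ κ R (ω a²/2 + B a⁴/24) + κ |s| a²/2 ≤ ω T²/2 + B T⁴/(24 R) + T²/(2R)`
(`gph H k α = H(tk k) - ∫_0^α rho H (tk k + t) sin t dt`), `|e(x) - e(y)| ≤ 2π|x - y|`. So the integrand differs from
`R ρ W(κ H/K) e(-(κ(R H + s))) e(κ R ρ α²/2)` by at most `o(1) R` uniformly (`T` fixed, `R → ∞`), and the integral over `[-a, a]` by
`o(1) R · 2a = o(1) 2 T (R/κ)^(1/2)`.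
-/

open MeasureTheory Real Set Filter Topology

set_option autoImplicit false

namespace Pool.Agent.Helper92.EO

open Pool.Agent.Helper22.AE

private lemma i92_deriv {H : ℝ → ℝ} (hH : ContDiff ℝ 2 H) : ContDiff ℝ 1 (deriv H) :=
  ((contDiff_succ_iff_deriv (n := 1)).1 hH).2.2

private lemma i92_rho_cont {H : ℝ → ℝ} (hH : ContDiff ℝ 2 H) : Continuous (rho H) := by
  unfold rho
  exact hH.continuous.add ((i92_deriv hH).continuous_deriv le_rfl)

private lemma i92_gph_cont {H : ℝ → ℝ} (hH : ContDiff ℝ 2 H) (k : ℤ × ℤ) : Continuous (gph H k) := by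
  have h1 := hH.continuous
  have h2 := (i92_deriv hH).continuous
  unfold gph
  fun_prop

private lemma i92_tk (k : ℤ × ℤ) : |tk k| ≤ 4 := by
  have h1 := Complex.neg_pi_lt_arg (cz k)
  have h2 := Complex.arg_le_pi (cz k)
  have h3 := Real.pi_lt_four
  unfold tk
  rw [abs_le]
  constructor <;> linarith

/-- bound and modulus of continuity of the radius of curvature -/
private lemma i92_rho {H : ℝ → ℝ} (hH : ContDiff ℝ 2 H) : ∃ B : ℝ, 1 ≤ B ∧ (∀ (k : ℤ × ℤ) (t : ℝ), |t| ≤ 1 → |rho H (tk k + t)| ≤ B) ∧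
    ∀ ω : ℝ, 0 < ω → ∃ d : ℝ, 0 < d ∧ ∀ (k : ℤ × ℤ) (t : ℝ), |t| ≤ 1 → |t| ≤ d → |rho H (tk k + t) - rho H (tk k)| ≤ ω := by
  have hc := i92_rho_cont hH
  have hK : IsCompact (Icc (-5 : ℝ) 5) := isCompact_Icc
  obtain ⟨B, hB⟩ := hK.exists_bound_of_continuousOn hc.continuousOn
  have hmem : ∀ (k : ℤ × ℤ) (t : ℝ), |t| ≤ 1 → tk k + t ∈ Icc (-5 : ℝ) 5 := by
    intro k t ht
    have h1 := abs_le.1 (i92_tk k)
    have h2 := abs_le.1 ht
    constructor <;> linarith [h1.1, h1.2, h2.1, h2.2]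
  refine ⟨max B 1, le_max_right _ _, fun k t ht => ?_, fun ω hω => ?_⟩
  · have h := hB _ (hmem k t ht)
    rw [Real.norm_eq_abs] at h
    exact h.trans (le_max_left _ _)
  · have hu := hK.uniformContinuousOn_of_continuous hc.continuousOn
    rw [Metric.uniformContinuousOn_iff_le] at hu
    obtain ⟨d, hd, hu⟩ := hu ω hω
    refine ⟨d, hd, fun k t ht htd => ?_⟩
    have h := hu (tk k + t) (hmem k t ht) (tk k + 0) (hmem k 0 (by simp)) (by
      rw [Real.dist_eq]
      have e : tk k + t - (tk k + 0) = t := by ring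
      rw [e]
      exact htd)
    rw [Real.dist_eq, add_zero] at h
    exact h

/-- a mean value bound on `[-a, a]` -/
private lemma i92_mvt {f f' : ℝ → ℝ} {a M : ℝ} (hf : ∀ t, HasDerivAt f (f' t) t) (hM : ∀ t, |t| ≤ a → |f' t| ≤ M)
    {α : ℝ} (hα : |α| ≤ a) : |f α - f 0| ≤ M * |α| := by
  have ha : 0 ≤ a := (abs_nonneg _).trans hα
  have h := (convex_Icc (-a) a).norm_image_sub_le_of_norm_hasDerivWithin_le (f := f) (f' := f') (C := M)
    (fun x _ => (hf x).hasDerivWithinAt) (fun x hx => by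
      rw [Real.norm_eq_abs]
      exact hM x (abs_le.2 hx)) (x := 0) (y := α) ⟨by linarith, ha⟩ (abs_le.1 hα)
  simpa [Real.norm_eq_abs] using h

private lemma i92_sub_sin {a t : ℝ} (ht : |t| ≤ a) : |t - sin t| ≤ a ^ 2 * |t| := by
  have h := i92_mvt (f := fun t => t - sin t) (f' := fun t => 1 - cos t) (a := a) (M := a ^ 2)
    (fun t => (hasDerivAt_id t).sub (hasDerivAt_sin t)) (fun u hu => ?_) ht
  · simpa using h
  · have h1 := cos_le_one u
    have h2 := one_sub_sq_div_two_le_cos (x := u)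
    have h3 : u ^ 2 ≤ a ^ 2 := by
      rw [← sq_abs u]
      exact pow_le_pow_left₀ (abs_nonneg _) hu 2
    rw [abs_of_nonneg (by linarith)]
    nlinarith [sq_nonneg u]

private lemma i92_gph {H : ℝ → ℝ} (hH : ContDiff ℝ 2 H) {B ω a : ℝ} (hB0 : 0 ≤ B) (hω0 : 0 ≤ ω) (k : ℤ × ℤ)
    (hB : ∀ t, |t| ≤ a → |rho H (tk k + t)| ≤ B) (hω : ∀ t, |t| ≤ a → |rho H (tk k + t) - rho H (tk k)| ≤ ω)
    {α : ℝ} (hα : |α| ≤ a) :
    |gph H k α - H (tk k)| ≤ B * a ^ 2 ∧ |gph H k α - H (tk k) + rho H (tk k) * α ^ 2 / 2| ≤ (ω + B * a ^ 2) * a ^ 2 := by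
  have ha : 0 ≤ a := (abs_nonneg _).trans hα
  have h0 : gph H k 0 = H (tk k) := by simp [gph]
  constructor
  · have h := i92_mvt (fun t => gph_hasDerivAt hH k t) (a := a) (M := B * a) (fun t ht => ?_) hα
    · rw [h0] at h
      refine h.trans ?_
      have h1 : B * a * |α| ≤ B * a * a := mul_le_mul_of_nonneg_left hα (mul_nonneg hB0 ha)
      refine h1.trans (le_of_eq (by ring))
    · rw [abs_neg, abs_mul]
      have h1 : |sin t| ≤ a := (abs_sin_le_abs).trans ht
      exact mul_le_mul (hB t ht) h1 (abs_nonneg _) hB0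
  · have hd : ∀ t, HasDerivAt (fun t => gph H k t - H (tk k) + rho H (tk k) * t ^ 2 / 2)
        (-(rho H (tk k + t) * sin t) + rho H (tk k) * t) t := by
      intro t
      have h1 := gph_hasDerivAt hH k t
      have h2 : HasDerivAt (fun t : ℝ => rho H (tk k) * t ^ 2 / 2) (rho H (tk k) * t) t := by
        have h3 := ((hasDerivAt_pow 2 t).const_mul (rho H (tk k))).div_const 2
        refine h3.congr_deriv ?_
        simp
        ring
      exact (h1.sub_const _).add h2
    have h := i92_mvt hd (a := a) (M := (ω + B * a ^ 2) * a) (fun t ht => ?_) hα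
    · simp only [h0] at h
      have e : H (tk k) - H (tk k) + rho H (tk k) * (0 : ℝ) ^ 2 / 2 = 0 := by ring
      rw [e, sub_zero] at h
      refine h.trans ?_
      have h1 : (ω + B * a ^ 2) * a * |α| ≤ (ω + B * a ^ 2) * a * a := mul_le_mul_of_nonneg_left hα (by positivity)
      refine h1.trans (le_of_eq (by ring))
    · have e : -(rho H (tk k + t) * sin t) + rho H (tk k) * t =
          -((rho H (tk k + t) - rho H (tk k)) * sin t) + rho H (tk k) * (t - sin t) := by ring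
      rw [e]
      refine (abs_add_le _ _).trans ?_
      rw [abs_neg, abs_mul, abs_mul]
      have h1 : |sin t| ≤ a := (abs_sin_le_abs).trans ht
      have h2 := i92_sub_sin ht
      have h3 : |rho H (tk k)| ≤ B := by
        have := hB 0 (by simpa using ha)
        simpa using this
      have h4 : |rho H (tk k + t) - rho H (tk k)| * |sin t| ≤ ω * a := mul_le_mul (hω t ht) h1 (abs_nonneg _) hω0
      have h5 : |rho H (tk k)| * |t - sin t| ≤ B * (a ^ 2 * a) :=
        mul_le_mul h3 (h2.trans (mul_le_mul_of_nonneg_left ht (sq_nonneg _))) (abs_nonneg _) hB0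
      nlinarith [h4, h5]

private lemma i92_ee (x y : ℝ) : ‖ee x - ee y‖ ≤ 2 * π * |x - y| := by
  have h1 : ee x = ee y * ee (x - y) := by
    rw [← ee_add]
    congr 1
    ring
  have h2 : ee x - ee y = ee y * (ee (x - y) - 1) := by
    rw [h1]
    ring
  rw [h2, norm_mul, ee_norm, one_mul]
  have h3 := norm_exp_I_mul_ofReal_sub_one_le (x := 2 * π * (x - y))
  have h4 : ee (x - y) = Complex.exp (Complex.I * ((2 * π * (x - y) : ℝ) : ℂ)) := by
    unfold ee
    rw [mul_comm]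
  rw [h4]
  refine h3.trans (le_of_eq ?_)
  rw [Real.norm_eq_abs, abs_mul, abs_of_pos (by positivity : (0:ℝ) < 2 * π)]

private lemma i92_W {w W : ℝ → ℝ} (hw : IsKer w W) : ∃ C : ℝ, 0 ≤ C ∧ ∀ x y, |W x - W y| ≤ C * |x - y| := by
  obtain ⟨C, hC, h⟩ := W_deriv_bound hw
  refine ⟨C, hC, fun x y => ?_⟩
  have h1 := convex_univ.norm_image_sub_le_of_norm_deriv_le (𝕜 := ℝ) (f := W) (C := C) (s := univ)
    (fun x _ => (hw.smooth.differentiable (by norm_num)) x) (fun x _ => by
      rw [Real.norm_eq_abs]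
      exact h x) (x := y) (y := x) (mem_univ _) (mem_univ _)
  simpa [Real.norm_eq_abs] using h1

/-- the difference of two products -/
private lemma i92_prod {A1 A2 x y d1 d2 M : ℝ} (h1 : |A1 - A2| ≤ d1) (h2 : |x - y| ≤ d2) (h3 : |A2| ≤ M) :
    ‖((A1 : ℝ) : ℂ) * ee x - ((A2 : ℝ) : ℂ) * ee y‖ ≤ d1 + M * (2 * π * d2) := by
  have e : ((A1 : ℝ) : ℂ) * ee x - ((A2 : ℝ) : ℂ) * ee y = ((A1 - A2 : ℝ) : ℂ) * ee x + ((A2 : ℝ) : ℂ) * (ee x - ee y) := by
    push_cast
    ring
  rw [e]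
  refine (norm_add_le _ _).trans ?_
  rw [norm_mul, norm_mul, ee_norm, mul_one, Complex.norm_real, Complex.norm_real, Real.norm_eq_abs, Real.norm_eq_abs]
  have hM : 0 ≤ M := (abs_nonneg _).trans h3
  have h4 : ‖ee x - ee y‖ ≤ 2 * π * d2 := (i92_ee x y).trans (mul_le_mul_of_nonneg_left h2 (by positivity))
  exact add_le_add h1 (mul_le_mul h3 h4 (norm_nonneg _) hM)

theorem inner {w W : ℝ → ℝ} (hw : IsKer w W) {H : ℝ → ℝ} (hH : IsSupp H) {T η : ℝ} (hT : 1 ≤ T) (hη : 0 < η) :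
    ∃ R₁ : ℝ, 1 ≤ R₁ ∧ ∀ R K s : ℝ, R₁ ≤ R → 1 ≤ K → |s| ≤ R ^ (-(1 / 2) : ℝ) → ∀ k : ℤ × ℤ, k ≠ 0 →
      ‖(∫ α in (-(T / (R * nk k) ^ (1 / 2 : ℝ)))..(T / (R * nk k) ^ (1 / 2 : ℝ)), Li W H K R s k α) -
        ((R * rho H (tk k) * W (nk k * H (tk k) / K) : ℝ) : ℂ) * ee (-(nk k * (R * H (tk k) + s))) *
          ∫ α in (-(T / (R * nk k) ^ (1 / 2 : ℝ)))..(T / (R * nk k) ^ (1 / 2 : ℝ)), ee (nk k * R * rho H (tk k) * α ^ 2 / 2)‖ ≤
        η * (R / nk k) ^ (1 / 2 : ℝ) := by
  obtain ⟨B, hB1, hB, hωd⟩ := i92_rho hH.smooth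
  obtain ⟨CW, hCW0, hCW⟩ := i92_W hw
  have hB0 : 0 ≤ B := by linarith
  have hT0 : 0 < T := by linarith
  have hpi := Real.pi_pos
  -- constants
  set ε : ℝ := η / (2 * T) with hε
  have hε0 : 0 < ε := by positivity
  set C1 : ℝ := 1 + B * (2 * π * T ^ 2) with hC1
  have hC10 : 0 < C1 := by positivity
  set C2 : ℝ := T ^ 2 * (B + 1) + 1 + B * (CW * B * T ^ 2) + B * (2 * π * (B * T ^ 4 + T ^ 2)) with hC2
  have hC20 : 0 < C2 := by positivity
  obtain ⟨d, hd, hωd⟩ := hωd (ε / (2 * C1)) (by positivity)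
  refine ⟨max 1 (max (T ^ 2) (max (T ^ 2 / d ^ 2) (2 * C2 / ε))), le_max_left _ _, ?_⟩
  intro R K s hR hK hs k hk
  have hR1 : 1 ≤ R := (le_max_left _ _).trans hR
  have hR2 : T ^ 2 ≤ R := ((le_max_left _ _).trans (le_max_right _ _)).trans hR
  have hR3 : T ^ 2 / d ^ 2 ≤ R := ((le_max_left _ _).trans ((le_max_right _ _).trans (le_max_right _ _))).trans hR
  have hR4 : 2 * C2 / ε ≤ R := ((le_max_right _ _).trans ((le_max_right _ _).trans (le_max_right _ _))).trans hR
  have hR0 : 0 < R := by linarith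
  have hκ1 := nk_ge_one hk
  set κ := nk k with hκ
  have hκ0 : 0 < κ := by linarith
  have hK0 : 0 < K := by linarith
  have hs1 : |s| ≤ 1 := hs.trans (Real.rpow_le_one_of_one_le_of_nonpos hR1 (by norm_num))
  have hRκ : 0 < R * κ := by positivity
  set a : ℝ := T / (R * κ) ^ (1 / 2 : ℝ) with ha
  have hsq : ((R * κ) ^ (1 / 2 : ℝ)) ^ 2 = R * κ := by
    rw [← Real.rpow_natCast, ← Real.rpow_mul hRκ.le]
    norm_num
  have hden : 0 < (R * κ) ^ (1 / 2 : ℝ) := Real.rpow_pos_of_pos hRκ _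
  have ha0 : 0 < a := by positivity
  have ha2 : a ^ 2 = T ^ 2 / (R * κ) := by
    rw [ha, div_pow, hsq]
  have ha2R : a ^ 2 ≤ T ^ 2 / R := by
    rw [ha2]
    apply div_le_div_of_nonneg_left (by positivity) hR0
    nlinarith
  have ha1 : a ≤ 1 := by
    have h1 : a ^ 2 ≤ 1 := ha2R.trans (by rw [div_le_one hR0]; exact hR2)
    by_contra h
    have h2 : 1 < a := lt_of_not_ge h
    nlinarith
  have had : a ≤ d := by
    have h1 : a ^ 2 ≤ d ^ 2 := by
      refine ha2R.trans ?_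
      rw [div_le_iff₀ (by positivity)] at hR3
      rw [div_le_iff₀ hR0]
      linarith
    exact (pow_le_pow_iff_left₀ ha0.le hd.le (by norm_num)).1 h1
  -- the pointwise bound
  set ω : ℝ := ε / (2 * C1) with hωdef
  have hω0 : 0 ≤ ω := by positivity
  have hpt : ∀ α : ℝ, |α| ≤ a → ‖Li W H K R s k α - ((R * rho H (tk k) * W (κ * H (tk k) / K) : ℝ) : ℂ) * ee (-(κ * (R * H (tk k) + s))) *
      ee (κ * R * rho H (tk k) * α ^ 2 / 2)‖ ≤ ε * R := by
    intro α hα
    have hB' : ∀ t, |t| ≤ a → |rho H (tk k + t)| ≤ B := fun t ht => hB k t (ht.trans ha1)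
    have hω' : ∀ t, |t| ≤ a → |rho H (tk k + t) - rho H (tk k)| ≤ ω := fun t ht => hωd k t (ht.trans ha1) (ht.trans had)
    obtain ⟨hg1, hg2⟩ := i92_gph hH.smooth hB0 hω0 k hB' hω' hα
    have hr0 : |rho H (tk k)| ≤ B := by
      have := hB k 0 (by simp)
      simpa using this
    have hcos : |cos α - 1| ≤ a ^ 2 := by
      have h1 := cos_le_one α
      have h2 := one_sub_sq_div_two_le_cos (x := α)
      have h3 : α ^ 2 ≤ a ^ 2 := by
        rw [← sq_abs α]
        exact pow_le_pow_left₀ (abs_nonneg _) hα 2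
      rw [abs_of_nonpos (by linarith)]
      nlinarith [sq_nonneg α]
    have e1 : ((R * rho H (tk k) * W (κ * H (tk k) / K) : ℝ) : ℂ) * ee (-(κ * (R * H (tk k) + s))) *
      ee (κ * R * rho H (tk k) * α ^ 2 / 2) = ((R * rho H (tk k) * W (κ * H (tk k) / K) : ℝ) : ℂ) *
      ee (-(κ * (R * H (tk k) + s)) + κ * R * rho H (tk k) * α ^ 2 / 2) := by
      rw [ee_add, mul_assoc]
    rw [e1]
    unfold Li
    rw [← hκ]
    -- amplitude
    have hWv : |W (κ * gph H k α / K) - W (κ * H (tk k) / K)| ≤ CW * B * T ^ 2 / R := by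
      refine (hCW _ _).trans ?_
      have e2 : κ * gph H k α / K - κ * H (tk k) / K = κ / K * (gph H k α - H (tk k)) := by ring
      rw [e2, abs_mul, abs_of_pos (by positivity : 0 < κ / K)]
      have h1 : κ / K ≤ κ := div_le_self hκ0.le hK
      have h2 : κ / K * |gph H k α - H (tk k)| ≤ κ * (B * a ^ 2) := mul_le_mul h1 hg1 (abs_nonneg _) hκ0.le
      have h3 : κ * (B * a ^ 2) = B * T ^ 2 / R := by
        rw [ha2]
        field_simp
      rw [h3] at h2
      refine (mul_le_mul_of_nonneg_left h2 hCW0).trans (le_of_eq (by ring))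
    have hA2 : |R * rho H (tk k) * W (κ * H (tk k) / K)| ≤ R * B := by
      rw [abs_mul, abs_mul, abs_of_pos hR0]
      have h1 := W_le_one hw (κ * H (tk k) / K)
      have h2 : R * |rho H (tk k)| * |W (κ * H (tk k) / K)| ≤ R * B * 1 :=
        mul_le_mul (mul_le_mul_of_nonneg_left hr0 hR0.le) h1 (abs_nonneg _) (by positivity)
      linarith
    have hA1 : |cos α * (R * rho H (tk k + α) + s) * W (κ * gph H k α / K) - R * rho H (tk k) * W (κ * H (tk k) / K)| ≤
        T ^ 2 * (B + 1) + (R * ω + 1) + R * B * (CW * B * T ^ 2 / R) := by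
      have e3 : cos α * (R * rho H (tk k + α) + s) * W (κ * gph H k α / K) - R * rho H (tk k) * W (κ * H (tk k) / K) =
        (cos α - 1) * (R * rho H (tk k + α) + s) * W (κ * gph H k α / K) +
        (R * (rho H (tk k + α) - rho H (tk k)) + s) * W (κ * gph H k α / K) +
        R * rho H (tk k) * (W (κ * gph H k α / K) - W (κ * H (tk k) / K)) := by ring
      rw [e3]
      refine (abs_add_three _ _ _).trans ?_
      have hW1 := W_le_one hw (κ * gph H k α / K)
      have hx1 : |R * rho H (tk k + α) + s| ≤ R * B + 1 := by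
        refine (abs_add_le _ _).trans ?_
        rw [abs_mul, abs_of_pos hR0]
        exact add_le_add (mul_le_mul_of_nonneg_left (hB' α hα) hR0.le) hs1
      have hx2 : |R * (rho H (tk k + α) - rho H (tk k)) + s| ≤ R * ω + 1 := by
        refine (abs_add_le _ _).trans ?_
        rw [abs_mul, abs_of_pos hR0]
        exact add_le_add (mul_le_mul_of_nonneg_left (hω' α hα) hR0.le) hs1
      refine add_le_add (add_le_add ?_ ?_) ?_
      · rw [abs_mul, abs_mul]
        have h4 : |cos α - 1| * |R * rho H (tk k + α) + s| * |W (κ * gph H k α / K)| ≤ a ^ 2 * (R * B + 1) * 1 :=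
          mul_le_mul (mul_le_mul hcos hx1 (abs_nonneg _) (sq_nonneg _)) hW1 (abs_nonneg _) (by positivity)
        refine h4.trans ?_
        have h5 : a ^ 2 * (R * B + 1) * 1 ≤ T ^ 2 / R * (R * (B + 1)) := by
          rw [mul_one]
          apply mul_le_mul ha2R (by nlinarith) (by positivity) (by positivity)
        refine h5.trans (le_of_eq (by field_simp))
      · rw [abs_mul]
        have h4 := mul_le_mul hx2 hW1 (abs_nonneg _) (by positivity)
        linarith
      · rw [abs_mul, abs_mul, abs_of_pos hR0]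
        exact mul_le_mul (mul_le_mul_of_nonneg_left hr0 hR0.le) hWv (abs_nonneg _) (by positivity)
    -- phase
    have hph : |-(κ * (R * gph H k α + s * cos α)) - (-(κ * (R * H (tk k) + s)) + κ * R * rho H (tk k) * α ^ 2 / 2)| ≤
        ω * T ^ 2 + (B * T ^ 4 + T ^ 2) / R := by
      have e4 : -(κ * (R * gph H k α + s * cos α)) - (-(κ * (R * H (tk k) + s)) + κ * R * rho H (tk k) * α ^ 2 / 2) =
        -(κ * R * (gph H k α - H (tk k) + rho H (tk k) * α ^ 2 / 2)) + -(κ * s * (cos α - 1)) := by ring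
      rw [e4]
      refine (abs_add_le _ _).trans ?_
      have h6 : |κ * R * (gph H k α - H (tk k) + rho H (tk k) * α ^ 2 / 2)| =
          κ * R * |gph H k α - H (tk k) + rho H (tk k) * α ^ 2 / 2| := by
        rw [abs_mul, abs_of_pos (by positivity : 0 < κ * R)]
      have h7 : |κ * s * (cos α - 1)| = κ * |s| * |cos α - 1| := by
        rw [abs_mul, abs_mul, abs_of_pos hκ0]
      rw [abs_neg, abs_neg, h6, h7]
      have h8 : κ * R * |gph H k α - H (tk k) + rho H (tk k) * α ^ 2 / 2| ≤ κ * R * ((ω + B * a ^ 2) * a ^ 2) :=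
        mul_le_mul_of_nonneg_left hg2 (by positivity)
      have h9 : κ * R * a ^ 2 = T ^ 2 := by
        rw [ha2]
        field_simp
      have h10 : κ * R * ((ω + B * a ^ 2) * a ^ 2) = (ω + B * a ^ 2) * T ^ 2 := by
        rw [← h9]
        ring
      have h11 : (ω + B * a ^ 2) * T ^ 2 ≤ (ω + B * (T ^ 2 / R)) * T ^ 2 := by
        apply mul_le_mul_of_nonneg_right _ (sq_nonneg _)
        have := mul_le_mul_of_nonneg_left ha2R hB0
        linarith
      have h12 : κ * |s| * |cos α - 1| ≤ κ * 1 * a ^ 2 :=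
        mul_le_mul (mul_le_mul_of_nonneg_left hs1 hκ0.le) hcos (abs_nonneg _) (by positivity)
      have h13 : κ * 1 * a ^ 2 = T ^ 2 / R := by
        rw [ha2]
        field_simp
      have h14 : (ω + B * (T ^ 2 / R)) * T ^ 2 + T ^ 2 / R = ω * T ^ 2 + (B * T ^ 4 + T ^ 2) / R := by ring
      linarith
    have hfin := i92_prod hA1 hph hA2
    refine hfin.trans ?_
    have e5 : T ^ 2 * (B + 1) + (R * ω + 1) + R * B * (CW * B * T ^ 2 / R) + R * B * (2 * π * (ω * T ^ 2 + (B * T ^ 4 + T ^ 2) / R)) =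
        R * (C1 * ω) + C2 := by
      rw [hC1, hC2]
      field_simp
      ring
    rw [e5]
    have e6 : C1 * ω = ε / 2 := by
      rw [hωdef]
      field_simp
    rw [e6]
    have h15 : C2 ≤ ε / 2 * R := by
      rw [div_le_iff₀ hε0] at hR4
      linarith
    linarith
  -- integration
  have hcont1 : Continuous (fun α => Li W H K R s k α) := by
    have h1 := i92_rho_cont hH.smooth
    have h2 := i92_gph_cont hH.smooth k
    have h3 := hw.smooth.continuous
    have h4 := ee_cont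
    unfold Li
    fun_prop
  have hcont2 : Continuous (fun α => ((R * rho H (tk k) * W (κ * H (tk k) / K) : ℝ) : ℂ) * ee (-(κ * (R * H (tk k) + s))) *
      ee (κ * R * rho H (tk k) * α ^ 2 / 2)) := by
    have h4 := ee_cont
    fun_prop
  rw [← intervalIntegral.integral_const_mul, ← intervalIntegral.integral_sub (hcont1.intervalIntegrable _ _)
    (hcont2.intervalIntegrable _ _)]
  have hI := intervalIntegral.norm_integral_le_of_norm_le_const (a := -a) (b := a) (C := ε * R)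
    (f := fun α => Li W H K R s k α - ((R * rho H (tk k) * W (κ * H (tk k) / K) : ℝ) : ℂ) * ee (-(κ * (R * H (tk k) + s))) *
      ee (κ * R * rho H (tk k) * α ^ 2 / 2)) (fun α hα => by
        apply hpt
        rw [uIoc_of_le (by linarith)] at hα
        exact abs_le.2 ⟨hα.1.le, hα.2⟩)
  refine hI.trans ?_
  have e7 : |a - -a| = 2 * a := by
    rw [sub_neg_eq_add, abs_of_pos (by positivity)]
    ring
  rw [e7]
  have e8 : R * a = T * (R / κ) ^ (1 / 2 : ℝ) := by
    rw [ha, Real.mul_rpow hR0.le hκ0.le, Real.div_rpow hR0.le hκ0.le]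
    have h16 : R = R ^ (1 / 2 : ℝ) * R ^ (1 / 2 : ℝ) := by
      rw [← Real.rpow_add hR0]
      norm_num
    have h17 : 0 < R ^ (1 / 2 : ℝ) := Real.rpow_pos_of_pos hR0 _
    have h18 : 0 < κ ^ (1 / 2 : ℝ) := Real.rpow_pos_of_pos hκ0 _
    nth_rewrite 1 [h16]
    field_simp
  have e9 : ε * R * (2 * a) = η * (R / κ) ^ (1 / 2 : ℝ) := by
    have : ε * R * (2 * a) = 2 * ε * (R * a) := by ring
    rw [this, e8, hε]
    field_simp
  rw [e9]

end Pool.Agent.Helper92.EO
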