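import Pool.Agent.Helper92.EO.Kb
import Pool.Agent.Helper22.AE.C1
import Pool.Agent.Helper22.AE.C3
import Pool.Agent.Helper22.AE.G6

/-!
# EO-O11: the part away from the stationary point

PROOF. `0 < a ≤ π/2`. With `E α = e(-(nk k (R gph H k α + s cos α)))`, `gph_hasDerivAt` (AE/C1): `E' = 2πi nk k (R rho H (tk k + α) + s) sin α E`. So on `[a, π/2]`
`Li α = (1/(2πi nk k)) f α E' α`, `f α = (cos α / sin α) W(nk k gph H k α / K)`, and by parts
`∫_a^{π/2} Li = (1/(2πi nk k)) (f(π/2) E(π/2) - f(a) E(a) - ∫ f' E)`, `f(π/2) = 0`, `|f(a)| ≤ cot a ≤ 1/a` (`a ≤ tan a`),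
`f' = -W/sin² - cos α rho H (tk k + α) (nk k / K) W'(..)`, `∫_a^{π/2} 1/sin² = cot a ≤ 1/a`, and the last part is at most `(π/2) B C nk k / K`.
Total at most `(1/(2π nk k)) (2/a) + C'/K ≤ 1/(nk k a) + C'`. The interval `[-π/2, -a]` in the same way (or by the substitution `α ↦ -α`).
-/

open MeasureTheory Real Set Filter Topology

set_option autoImplicit false

namespace Pool.Agent.Helper92.EO

open Pool.Agent.Helper22.AE

private lemma outer_cot {a : ℝ} (ha : 0 < a) (ha2 : a ≤ π / 2) : cos a / sin a ≤ 1 / a := by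
  have hπ := pi_pos
  have hs : 0 < sin a := sin_pos_of_pos_of_lt_pi ha (by linarith)
  rw [div_le_div_iff₀ hs ha]
  rcases eq_or_lt_of_le ha2 with h | h
  · rw [h, cos_pi_div_two, sin_pi_div_two]; norm_num
  · have hc : 0 < cos a := cos_pos_of_mem_Ioo ⟨by linarith, h⟩
    have h1 := le_tan ha.le h
    rw [tan_eq_sin_div_cos, le_div_iff₀ hc] at h1
    linarith

private lemma outer_gen {W : ℝ → ℝ} (hWc : ContDiff ℝ 1 W) (hW1 : ∀ x, |W x| ≤ 1) {CW : ℝ}
    (hCW : ∀ x, |deriv W x| ≤ CW) {r g : ℝ → ℝ} (hr : Continuous r) {B : ℝ} (hB : ∀ x, |r x| ≤ B)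
    (hg : ∀ α, HasDerivAt g (-(r α * sin α)) α) {R K s a n : ℝ} (hn : 0 < n) (hK : 1 ≤ K)
    (ha : 0 < a) (ha2 : a ≤ π / 2) :
    ‖∫ α in a..(π / 2), ((cos α * (R * r α + s) * W (n * g α / K) : ℝ) : ℂ) * ee (-(n * (R * g α + s * cos α)))‖ ≤
      1 / (n * a) + CW * B := by
  have hπ := pi_pos
  have hK0 : 0 < K := by linarith
  have hCW0 : 0 ≤ CW := (abs_nonneg _).trans (hCW 0)
  have hB0 : 0 ≤ B := (abs_nonneg _).trans (hB 0)
  have hgc : Continuous g := continuous_iff_continuousAt.2 fun α => (hg α).continuousAt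
  have hdW : Continuous (deriv W) := hWc.continuous_deriv le_rfl
  have hWd : Differentiable ℝ W := hWc.differentiable (by norm_num)
  have hsin : ∀ α ∈ Icc a (π / 2), 0 < sin α := fun α hα =>
    sin_pos_of_pos_of_lt_pi (lt_of_lt_of_le ha hα.1) (by linarith [hα.2])
  have hcos : ∀ α ∈ Icc a (π / 2), 0 ≤ cos α := fun α hα =>
    cos_nonneg_of_mem_Icc ⟨by linarith [hα.1], hα.2⟩
  have huIcc : uIcc a (π / 2) = Icc a (π / 2) := uIcc_of_le ha2
  set u : ℝ → ℂ := fun α => ((cos α / sin α * W (n * g α / K) : ℝ) : ℂ) with hu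
  set u' : ℝ → ℂ := fun α => ((-(1 / sin α ^ 2) * W (n * g α / K) +
    cos α / sin α * (deriv W (n * g α / K) * (n * (-(r α * sin α)) / K)) : ℝ) : ℂ) with hu'
  set v : ℝ → ℂ := fun α => ee (-(n * (R * g α + s * cos α))) with hv
  set v' : ℝ → ℂ := fun α => ((n * (R * r α + s) * sin α : ℝ) : ℂ) * (2 * π * Complex.I * v α) with hv'
  have hvn : ∀ α, ‖v α‖ = 1 := fun α => ee_norm _
  have hcot : ∀ α ∈ Icc a (π / 2), HasDerivAt (fun x => cos x / sin x) (-(1 / sin α ^ 2)) α := by
    intro α hα
    have h := (hasDerivAt_cos α).div (hasDerivAt_sin α) (hsin α hα).ne'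
    refine h.congr_deriv ?_
    have h1 := sin_sq_add_cos_sq α
    have h2 := (hsin α hα).ne'
    field_simp
    linarith
  have hder_u : ∀ α ∈ uIcc a (π / 2), HasDerivAt u (u' α) α := by
    intro α hα
    rw [huIcc] at hα
    have h2 : HasDerivAt (fun x => W (n * g x / K)) (deriv W (n * g α / K) * (n * (-(r α * sin α)) / K)) α := by
      have h3 : HasDerivAt (fun x => n * g x / K) (n * (-(r α * sin α)) / K) α :=
        ((hg α).const_mul n).div_const K
      exact (hWd (n * g α / K)).hasDerivAt.comp α h3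
    exact ((hcot α hα).mul h2).ofReal_comp
  have hder_v : ∀ α ∈ uIcc a (π / 2), HasDerivAt v (v' α) α := by
    intro α _
    have h3 : HasDerivAt (fun x => -(n * (R * g x + s * cos x))) (n * (R * r α + s) * sin α) α := by
      have h4 := (((hg α).const_mul R).add ((hasDerivAt_cos α).const_mul s)).const_mul n |>.neg
      refine h4.congr_deriv ?_
      ring
    have h5 := (ee_hasDerivAt (-(n * (R * g α + s * cos α)))).scomp α h3
    refine h5.congr_deriv ?_
    simp only [hv', hv, Complex.real_smul]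
  have hvc : Continuous v := ee_cont.comp (by fun_prop)
  have hv'c : Continuous v' := by
    simp only [hv']
    fun_prop
  have hWg : Continuous (fun α => W (n * g α / K)) := hWc.continuous.comp (by fun_prop)
  have hdWg : Continuous (fun α => deriv W (n * g α / K)) := hdW.comp (by fun_prop)
  have hu'c : ContinuousOn u' (uIcc a (π / 2)) := by
    rw [huIcc]
    simp only [hu']
    apply Complex.continuous_ofReal.comp_continuousOn
    apply ContinuousOn.add
    · apply ContinuousOn.mul _ hWg.continuousOn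
      apply ContinuousOn.neg
      apply continuousOn_const.div (continuous_sin.pow 2).continuousOn
      intro α hα
      exact (pow_pos (hsin α hα) 2).ne'
    · apply ContinuousOn.mul
      · exact continuous_cos.continuousOn.div continuous_sin.continuousOn fun α hα => (hsin α hα).ne'
      · apply ContinuousOn.mul hdWg.continuousOn
        fun_prop
  have hibp := intervalIntegral.integral_mul_deriv_eq_deriv_mul hder_u hder_v hu'c.intervalIntegrable
    (hv'c.intervalIntegrable _ _)
  have hLi : ∫ α in a..(π / 2), u α * v' α = (2 * π * n * Complex.I) *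
      ∫ α in a..(π / 2), ((cos α * (R * r α + s) * W (n * g α / K) : ℝ) : ℂ) * ee (-(n * (R * g α + s * cos α))) := by
    rw [← intervalIntegral.integral_const_mul]
    apply intervalIntegral.integral_congr
    intro α hα
    rw [huIcc] at hα
    have h2 : ((sin α : ℝ) : ℂ) ≠ 0 := by exact_mod_cast (hsin α hα).ne'
    simp only [hu, hv', hv]
    push_cast at h2 ⊢
    field_simp
  have hb1 : ‖u (π / 2) * v (π / 2)‖ = 0 := by
    simp [hu]
  have haI : a ∈ Icc a (π / 2) := ⟨le_rfl, ha2⟩
  have hcota0 : 0 ≤ cos a / sin a := div_nonneg (hcos a haI) (hsin a haI).le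
  have hb2 : ‖u a * v a‖ ≤ 1 / a := by
    rw [norm_mul, hvn, mul_one]
    simp only [hu]
    rw [Complex.norm_real, norm_eq_abs, abs_mul, abs_of_nonneg hcota0]
    calc cos a / sin a * |W (n * g a / K)| ≤ cos a / sin a * 1 := mul_le_mul_of_nonneg_left (hW1 _) hcota0
      _ ≤ 1 / a := by rw [mul_one]; exact outer_cot ha ha2
  have hcsc : IntervalIntegrable (fun α => 1 / sin α ^ 2) volume a (π / 2) := by
    apply ContinuousOn.intervalIntegrable
    rw [huIcc]
    apply continuousOn_const.div (continuous_sin.pow 2).continuousOn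
    intro α hα
    exact (pow_pos (hsin α hα) 2).ne'
  have hcscI : ∫ α in a..(π / 2), 1 / sin α ^ 2 = cos a / sin a := by
    have h := intervalIntegral.integral_eq_sub_of_hasDerivAt (f := fun x => -(cos x / sin x))
      (f' := fun α => 1 / sin α ^ 2) (a := a) (b := π / 2) (fun α hα => by
        rw [huIcc] at hα
        have := (hcot α hα).neg
        refine this.congr_deriv ?_
        ring) hcsc
    rw [h]
    simp [cos_pi_div_two]
  have hb3 : ‖∫ α in a..(π / 2), u' α * v α‖ ≤ 1 / a + (π / 2) * (CW * B * n) := by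
    have h1 : ‖∫ α in a..(π / 2), u' α * v α‖ ≤ ∫ α in a..(π / 2), (1 / sin α ^ 2 + CW * B * n) := by
      apply intervalIntegral.norm_integral_le_of_norm_le ha2
      · refine Filter.Eventually.of_forall fun α hα => ?_
        have hα' : α ∈ Icc a (π / 2) := ⟨hα.1.le, hα.2⟩
        have hs := hsin α hα'
        rw [norm_mul, hvn, mul_one]
        simp only [hu']
        rw [Complex.norm_real, norm_eq_abs]
        refine (abs_add_le _ _).trans ?_
        apply add_le_add
        · rw [abs_mul, abs_neg, abs_of_nonneg (by positivity)]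
          calc 1 / sin α ^ 2 * |W (n * g α / K)| ≤ 1 / sin α ^ 2 * 1 :=
                mul_le_mul_of_nonneg_left (hW1 _) (by positivity)
            _ = _ := mul_one _
        · have e : cos α / sin α * (deriv W (n * g α / K) * (n * (-(r α * sin α)) / K)) =
              -(cos α * deriv W (n * g α / K) * r α * n / K) := by
            field_simp
          rw [e, abs_neg, abs_div, abs_mul, abs_mul, abs_mul, abs_of_pos hn, abs_of_pos hK0]
          have h5 : |cos α| * |deriv W (n * g α / K)| * |r α| * n ≤ 1 * CW * B * n := by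
            have := hCW (n * g α / K)
            have := hB α
            have := abs_cos_le_one α
            gcongr
          calc |cos α| * |deriv W (n * g α / K)| * |r α| * n / K ≤ |cos α| * |deriv W (n * g α / K)| * |r α| * n := by
                apply div_le_self (by positivity) hK
            _ ≤ CW * B * n := by linarith
      · exact hcsc.add intervalIntegrable_const
    refine h1.trans ?_
    rw [intervalIntegral.integral_add hcsc intervalIntegrable_const, hcscI, intervalIntegral.integral_const, smul_eq_mul]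
    apply add_le_add (outer_cot ha ha2)
    apply mul_le_mul_of_nonneg_right (by linarith) (by positivity)
  have hfin : (2 * π * n) * ‖∫ α in a..(π / 2), ((cos α * (R * r α + s) * W (n * g α / K) : ℝ) : ℂ) *
      ee (-(n * (R * g α + s * cos α)))‖ ≤ 1 / a + (1 / a + (π / 2) * (CW * B * n)) := by
    have h1 : ‖∫ α in a..(π / 2), u α * v' α‖ ≤ 0 + 1 / a + (1 / a + (π / 2) * (CW * B * n)) := by
      rw [hibp]
      refine (norm_sub_le _ _).trans ?_
      apply add_le_add _ hb3
      refine (norm_sub_le _ _).trans ?_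
      rw [hb1]
      exact add_le_add le_rfl hb2
    rw [hLi, norm_mul] at h1
    have h2 : ‖(2 * (π : ℂ) * (n : ℂ) * Complex.I)‖ = 2 * π * n := by
      rw [norm_mul, norm_mul, norm_mul, Complex.norm_I, Complex.norm_real, Complex.norm_real, norm_eq_abs, norm_eq_abs,
        abs_of_pos hπ, abs_of_pos hn]
      norm_num
    rw [h2] at h1
    linarith
  have h2πn : 0 < 2 * π * n := by positivity
  rw [← le_div_iff₀' h2πn] at hfin
  refine hfin.trans ?_
  rw [div_le_iff₀ h2πn]
  have e : (1 / (n * a) + CW * B) * (2 * π * n) = 2 * π * (1 / a) + 2 * π * (CW * B * n) := by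
    field_simp
  rw [e]
  have h1a : 0 < 1 / a := by positivity
  have h3 : 0 ≤ CW * B * n := by positivity
  have hπ3 := pi_gt_three
  nlinarith

private lemma outer_rho {H : ℝ → ℝ} (hH : IsSupp H) : Continuous (rho H) ∧ ∃ B : ℝ, ∀ θ, |rho H θ| ≤ B := by
  have hc : Continuous (rho H) := by
    have h1 : ContDiff ℝ 1 (deriv H) := by
      have h : ContDiff ℝ (1 + 1) H := by
        have e : (1 + 1 : WithTop ℕ∞) = 2 := by norm_num
        rw [e]
        exact hH.smooth
      exact (contDiff_succ_iff_deriv.1 h).2.2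
    have h2 : Continuous (deriv (deriv H)) := h1.continuous_deriv le_rfl
    unfold rho
    exact hH.smooth.continuous.add h2
  have hper : ∀ {f : ℝ → ℝ}, Function.Periodic f (2 * π) → Function.Periodic (deriv f) (2 * π) := by
    intro f hf x
    have h : (fun y => f (y + 2 * π)) = f := funext hf
    have h2 : deriv (fun y => f (y + 2 * π)) x = deriv f (x + 2 * π) := deriv_comp_add_const f _ x
    rw [← h2, h]
  have hp : Function.Periodic (rho H) (2 * π) := by
    intro x
    unfold rho
    rw [hH.per x, hper (hper hH.per) x]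
  refine ⟨hc, ?_⟩
  obtain ⟨t0, -, h0⟩ := isCompact_Icc.exists_isMaxOn (s := Icc (0 : ℝ) (2 * π))
    (nonempty_Icc.2 (by positivity)) (f := fun θ => |rho H θ|) hc.abs.continuousOn
  refine ⟨|rho H t0|, fun θ => ?_⟩
  obtain ⟨y, hy, hy'⟩ := hp.exists_mem_Ico₀ (by positivity) θ
  rw [hy']
  exact h0 ⟨hy.1, hy.2.le⟩

theorem outer {w W : ℝ → ℝ} (hw : IsKer w W) {H : ℝ → ℝ} (hH : IsSupp H) :
    ∃ C : ℝ, 0 ≤ C ∧ ∀ R K s a : ℝ, 1 ≤ R → 1 ≤ K → |s| ≤ 1 → 0 < a → a ≤ π / 2 → ∀ k : ℤ × ℤ, k ≠ 0 →
      ‖∫ α in a..(π / 2), Li W H K R s k α‖ ≤ 1 / (nk k * a) + C ∧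
      ‖∫ α in (-(π / 2))..(-a), Li W H K R s k α‖ ≤ 1 / (nk k * a) + C := by
  obtain ⟨CW, hCW0, hCW⟩ := W_deriv_bound hw
  obtain ⟨hρc, B, hB⟩ := outer_rho hH
  have hB0 : 0 ≤ B := (abs_nonneg _).trans (hB 0)
  refine ⟨CW * B, by positivity, ?_⟩
  intro R K s a _ hK _ ha ha2 k hk
  have hn := nk_pos hk
  constructor
  · have := outer_gen hw.smooth (W_le_one hw) hCW (r := fun α => rho H (tk k + α)) (g := gph H k)
      (by fun_prop) (fun x => hB _) (fun α => gph_hasDerivAt hH.smooth k α) (R := R) (s := s) hn hK ha ha2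
    exact this
  · have h := outer_gen hw.smooth (W_le_one hw) hCW (r := fun α => rho H (tk k + -α)) (g := fun α => gph H k (-α))
      (by fun_prop) (fun x => hB _) (fun α => by
        have h1 := (gph_hasDerivAt hH.smooth k (-α)).scomp α (hasDerivAt_neg α)
        refine h1.congr_deriv ?_
        simp) (R := R) (s := s) hn hK ha ha2
    have e : ∫ α in (-(π / 2))..(-a), Li W H K R s k α = ∫ α in a..(π / 2), Li W H K R s k (-α) := by
      rw [intervalIntegral.integral_comp_neg]
    rw [e]
    have e2 : ∀ α, Li W H K R s k (-α) = ((cos α * (R * rho H (tk k + -α) + s) * W (nk k * gph H k (-α) / K) : ℝ) : ℂ) *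
        ee (-(nk k * (R * gph H k (-α) + s * cos α))) := by
      intro α
      unfold Li
      rw [cos_neg]
    simp only [e2]
    exact h

end Pool.Agent.Helper92.EO
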