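import Pool.Agent.Helper92.EO.Fre
import Pool.Agent.Helper92.EO.Inner
import Pool.Agent.Helper92.EO.Outer

/-!
# EO-O15: the asymptotic value for small frequencies

PROOF. `κ = nk k`, `ρ = rho H (tk k) ∈ [r₀, B]`, `r₀ > 0`. Choose `T` large and split `[-π/2, π/2]` at `± a`, `a = T/(Rκ)^(1/2) ≤ π/2` (`R ≥ R₁`).
Outer pieces (`outer`): `2/(κ a) + 2C = (2/T) (R/κ)^(1/2) + 2 C`, and `2 C ≤ (η/8) (R/κ)^(1/2)` since `κ ≤ R^(1/4)`.
Inner piece (`inner` with `η/8`). The Gaussian integral: substitution `x = (κRρ)^(1/2) α`: `∫_{-a}^{a} e(κRρα²/2) dα = (κRρ)^(-1/2) ∫_{-Y}^{Y} e(x²/2) dx`, `Y = T ρ^(1/2)`, and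
`fresnel`: it is `(κRρ)^(-1/2) (e(1/8) + O(1/(T ρ^(1/2))))`. `R ρ (κRρ)^(-1/2) = (R/κ)^(1/2) ρ^(1/2)`.
Finally `|e(-(κ(R H + s))) - e(-κ R H)| ≤ 2π κ |s| ≤ 2π R^(-1/4)`.
-/

open MeasureTheory Real Set Filter Topology

set_option autoImplicit false

namespace Pool.Agent.Helper92.EO

open Pool.Agent.Helper22.AE

private lemma h22k_deriv_cd {H : ℝ → ℝ} (hH : ContDiff ℝ 2 H) : ContDiff ℝ 1 (deriv H) := by
  have h := (contDiff_succ_iff_deriv (n := 1) (f := H)).1 (by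
    rw [one_add_one_eq_two]; exact hH)
  exact h.2.2

private lemma h22k_rho_cont {H : ℝ → ℝ} (hH : ContDiff ℝ 2 H) : Continuous (rho H) := by
  have h2 : Continuous (deriv (deriv H)) := (h22k_deriv_cd hH).continuous_deriv (le_refl _)
  exact hH.continuous.add h2

private lemma h22k_gph_cont {H : ℝ → ℝ} (hH : ContDiff ℝ 2 H) (k : ℤ × ℤ) : Continuous (gph H k) := by
  have h1 := hH.continuous
  have h2 := (h22k_deriv_cd hH).continuous
  unfold gph
  fun_prop

private lemma h22k_Li_cont {w W : ℝ → ℝ} (hw : IsKer w W) {H : ℝ → ℝ} (hH : IsSupp H) (K R s : ℝ) (k : ℤ × ℤ) :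
    Continuous (Li W H K R s k) := by
  have h1 := h22k_rho_cont hH.smooth
  have h2 := h22k_gph_cont hH.smooth k
  have h3 := hw.smooth.continuous
  have h4 := ee_cont
  unfold Li
  refine Continuous.mul ?_ ?_
  · apply Complex.continuous_ofReal.comp
    fun_prop
  · apply ee_cont.comp
    fun_prop

private lemma h22k_rho_bdd {H : ℝ → ℝ} (hH : IsSupp H) : ∃ B : ℝ, 0 < B ∧ ∀ θ, rho H θ ≤ B := by
  have hp : Function.Periodic (rho H) (2 * π) := by
    intro θ
    have h1 : Function.Periodic (deriv H) (2 * π) := by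
      intro x
      have := deriv_comp_add_const H (2 * π) x
      rw [← this]
      congr 1
      funext y
      exact hH.per y
    have h2 : Function.Periodic (deriv (deriv H)) (2 * π) := by
      intro x
      have := deriv_comp_add_const (deriv H) (2 * π) x
      rw [← this]
      congr 1
      funext y
      exact h1 y
    unfold rho
    rw [hH.per, h2]
  obtain ⟨t0, -, h0⟩ := isCompact_Icc.exists_isMaxOn (s := Icc (0 : ℝ) (2 * π))
    (nonempty_Icc.2 (by positivity)) (h22k_rho_cont hH.smooth).continuousOn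
  refine ⟨rho H t0, hH.rho_pos t0, fun θ => ?_⟩
  obtain ⟨y, hy, hy'⟩ := hp.exists_mem_Ico₀ (by positivity) θ
  rw [hy']
  exact h0 ⟨hy.1, hy.2.le⟩

private lemma h22k_ee_lip (x y : ℝ) : ‖ee x - ee y‖ ≤ 2 * π * |x - y| := by
  have h1 : ee x - ee y = ee y * (Complex.exp (Complex.I * ((2 * π * (x - y) : ℝ) : ℂ)) - 1) := by
    have h : ee x = ee y * Complex.exp (Complex.I * ((2 * π * (x - y) : ℝ) : ℂ)) := by
      unfold ee
      rw [← Complex.exp_add]
      congr 1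
      push_cast
      ring
    rw [h]
    ring
  rw [h1, norm_mul, ee_norm, one_mul]
  refine (Real.norm_exp_I_mul_ofReal_sub_one_le).trans ?_
  rw [Real.norm_eq_abs, abs_mul, abs_of_pos (by positivity : (0 : ℝ) < 2 * π)]

private lemma h22k_gauss {Cf : ℝ} (hCf : ∀ Y : ℝ, 0 < Y → ‖(∫ x in (-Y)..Y, ee (x ^ 2 / 2)) - ee (1 / 8)‖ ≤ Cf / Y)
    {κ R ρ T : ℝ} (hκ : 0 < κ) (hR : 0 < R) (hρ : 0 < ρ) (hT : 0 < T) :
    ‖(∫ α in (-(T / sqrt (R * κ)))..(T / sqrt (R * κ)), ee (κ * R * ρ * α ^ 2 / 2)) -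
      (((sqrt (κ * R * ρ))⁻¹ : ℝ) : ℂ) * ee (1 / 8)‖ ≤ (sqrt (κ * R * ρ))⁻¹ * (Cf / (T * sqrt ρ)) := by
  have hc : 0 < sqrt (κ * R * ρ) := Real.sqrt_pos.2 (by positivity)
  have hY : 0 < T * sqrt ρ := mul_pos hT (Real.sqrt_pos.2 hρ)
  have h1 : ∀ α : ℝ, ee (κ * R * ρ * α ^ 2 / 2) = (fun x : ℝ => ee (x ^ 2 / 2)) (sqrt (κ * R * ρ) * α) := by
    intro α
    show _ = ee ((sqrt (κ * R * ρ) * α) ^ 2 / 2)
    rw [mul_pow, Real.sq_sqrt (by positivity)]
  have h2 : sqrt (κ * R * ρ) * (T / sqrt (R * κ)) = T * sqrt ρ := by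
    rw [Real.sqrt_mul (by positivity), Real.sqrt_mul hκ.le, Real.sqrt_mul hR.le]
    have := Real.sqrt_pos.2 hκ
    have := Real.sqrt_pos.2 hR
    field_simp
  have h3 : (∫ α in (-(T / sqrt (R * κ)))..(T / sqrt (R * κ)), ee (κ * R * ρ * α ^ 2 / 2)) =
      (((sqrt (κ * R * ρ))⁻¹ : ℝ) : ℂ) * ∫ x in (-(T * sqrt ρ))..(T * sqrt ρ), ee (x ^ 2 / 2) := by
    have h4 := intervalIntegral.integral_comp_mul_left (a := -(T / sqrt (R * κ))) (b := T / sqrt (R * κ))
      (fun x : ℝ => ee (x ^ 2 / 2)) hc.ne'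
    rw [mul_neg, h2, Complex.real_smul] at h4
    rw [← h4]
    exact intervalIntegral.integral_congr fun α _ => h1 α
  rw [h3, ← mul_sub, norm_mul, Complex.norm_real, Real.norm_of_nonneg (by positivity)]
  exact mul_le_mul_of_nonneg_left (hCf _ hY) (by positivity)

private lemma h22k_alg {x y T : ℝ} (hx : 0 < x) (hy : 0 < y) (hT : 0 < T) :
    1 / ((y * y) * (T / (x * y))) = x / y / T := by
  field_simp

theorem key {w W : ℝ → ℝ} (hw : IsKer w W) {H : ℝ → ℝ} (hH : IsSupp H) {η : ℝ} (hη : 0 < η) :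
    ∃ R₁ : ℝ, 1 ≤ R₁ ∧ ∀ R K s : ℝ, R₁ ≤ R → 1 ≤ K → |s| ≤ R ^ (-(1 / 2) : ℝ) → ∀ k : ℤ × ℤ, k ≠ 0 → nk k ≤ R ^ (1 / 4 : ℝ) →
      ‖Lk W H K R s k - mk W H K R k‖ ≤ η * (R / nk k) ^ (1 / 2 : ℝ) := by
  obtain ⟨B, hB, hBr⟩ := h22k_rho_bdd hH
  obtain ⟨Cf, hCf0, hCf⟩ := fresnel
  obtain ⟨Co, hCo0, hCo⟩ := outer hw hH
  set T : ℝ := 1 + 8 * (2 + Cf) / η with hT
  have hT1 : 1 ≤ T := by
    have : 0 ≤ 8 * (2 + Cf) / η := by positivity
    linarith
  have hT0 : 0 < T := by linarith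
  have hTη : (2 + Cf) / T ≤ η / 8 := by
    rw [div_le_iff₀ hT0, hT]
    have : η / 8 * (1 + 8 * (2 + Cf) / η) = η / 8 + (2 + Cf) := by field_simp
    rw [this]
    linarith
  obtain ⟨R₀, hR₀1, hin⟩ := inner hw hH hT1 (η := η / 8) (by positivity)
  set M : ℝ := 1 + T + 16 * Co / η + 16 * π * sqrt B / η with hM
  have hM1 : 1 ≤ M := by
    have h1 : 0 ≤ 16 * Co / η := by positivity
    have h2 : 0 ≤ 16 * π * sqrt B / η := by positivity
    linarith
  refine ⟨max R₀ (M ^ 4), hR₀1.trans (le_max_left _ _), ?_⟩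
  intro R K s hR hK hs k hk hkR
  have hR0 : R₀ ≤ R := (le_max_left _ _).trans hR
  have hRM : M ^ 4 ≤ R := (le_max_right _ _).trans hR
  have hR1 : 1 ≤ R := hR₀1.trans hR0
  have hRpos : 0 < R := by linarith
  have hκ1 : 1 ≤ nk k := nk_ge_one hk
  have hκ : 0 < nk k := by linarith
  -- R^(1/4)
  set q : ℝ := R ^ (1 / 4 : ℝ) with hq
  have hq4 : q ^ 4 = R := by
    rw [hq, ← Real.rpow_natCast, ← Real.rpow_mul hRpos.le]
    norm_num
  have hqpos : 0 < q := Real.rpow_pos_of_pos hRpos _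
  have hqM : M ≤ q := by
    by_contra hcon
    rw [not_le] at hcon
    have : q ^ 4 < M ^ 4 := pow_lt_pow_left₀ hcon hqpos.le (by norm_num)
    rw [hq4] at this
    linarith
  have hq1 : 1 ≤ q := hM1.trans hqM
  have hsR : sqrt R = q ^ 2 := by
    rw [Real.sqrt_eq_iff_mul_self_eq hRpos.le (by positivity)]
    rw [← hq4]
    ring
  have hs' : |s| ≤ (q ^ 2)⁻¹ := by
    refine hs.trans (le_of_eq ?_)
    rw [Real.rpow_neg hRpos.le, ← Real.sqrt_eq_rpow, hsR]
  have hs1 : |s| ≤ 1 := by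
    refine hs'.trans ?_
    apply inv_le_one_of_one_le₀
    exact one_le_pow₀ hq1
  -- S = sqrt (R / κ)
  set S : ℝ := sqrt (R / nk k) with hS
  have hSq : q ≤ S := by
    rw [hS]
    apply Real.le_sqrt_of_sq_le
    rw [le_div_iff₀ hκ]
    calc q ^ 2 * nk k ≤ q ^ 2 * q := by
          apply mul_le_mul_of_nonneg_left hkR (by positivity)
      _ ≤ q ^ 2 * q ^ 2 := by
          apply mul_le_mul_of_nonneg_left _ (by positivity)
          exact le_self_pow₀ hq1 (by norm_num)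
      _ = R := by rw [← hq4]; ring
  have hSpos : 0 < S := by linarith
  have hSeq : (R / nk k) ^ (1 / 2 : ℝ) = S := by rw [hS, Real.sqrt_eq_rpow]
  have hRκ : (R * nk k) ^ (1 / 2 : ℝ) = sqrt (R * nk k) := by rw [Real.sqrt_eq_rpow]
  -- the cut
  set a : ℝ := T / sqrt (R * nk k) with ha
  have hsRκ : 0 < sqrt (R * nk k) := Real.sqrt_pos.2 (by positivity)
  have ha0 : 0 < a := div_pos hT0 hsRκ
  have ha1 : a ≤ π / 2 := by
    have h1 : a ≤ 1 := by
      rw [ha, div_le_one hsRκ]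
      apply Real.le_sqrt_of_sq_le
      have hTq : T ≤ q := by
        have h1 : 0 ≤ 16 * Co / η := by positivity
        have h2 : 0 ≤ 16 * π * sqrt B / η := by positivity
        linarith
      calc T ^ 2 ≤ q ^ 2 := pow_le_pow_left₀ hT0.le hTq 2
        _ ≤ q ^ 4 := pow_le_pow_right₀ hq1 (by norm_num)
        _ = R := hq4
        _ ≤ R * nk k := le_mul_of_one_le_right hRpos.le hκ1
    have := Real.pi_gt_three
    linarith
  have hκa : 1 / (nk k * a) = S / T := by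
    rw [ha, hS, Real.sqrt_mul hRpos.le, Real.sqrt_div hRpos.le]
    have h1 := Real.sqrt_pos.2 hκ
    have h2 := Real.sqrt_pos.2 hRpos
    calc 1 / (nk k * (T / (sqrt R * sqrt (nk k)))) =
        1 / ((sqrt (nk k) * sqrt (nk k)) * (T / (sqrt R * sqrt (nk k)))) := by rw [Real.mul_self_sqrt hκ.le]
      _ = _ := h22k_alg h2 h1 hT0
  obtain ⟨ho1, ho2⟩ := hCo R K s a hR1 hK hs1 ha0 ha1 k hk
  rw [hκa] at ho1 ho2
  have hi := hin R K s hR0 hK hs k hk
  rw [hSeq, hRκ, ← ha] at hi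
  -- the splitting
  have hint : ∀ x y : ℝ, IntervalIntegrable (Li W H K R s k) volume x y :=
    fun x y => (h22k_Li_cont hw hH K R s k).intervalIntegrable x y
  have hsplit : Lk W H K R s k = (∫ α in (-(π / 2))..(-a), Li W H K R s k α) +
      (∫ α in (-a)..a, Li W H K R s k α) + ∫ α in a..(π / 2), Li W H K R s k α := by
    unfold Lk
    rw [intervalIntegral.integral_add_adjacent_intervals (hint _ _) (hint _ _),
      intervalIntegral.integral_add_adjacent_intervals (hint _ _) (hint _ _)]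
  set ρ : ℝ := rho H (tk k) with hρdef
  have hρ : 0 < ρ := hH.rho_pos _
  have hsρ : 0 < sqrt ρ := Real.sqrt_pos.2 hρ
  set h0 : ℝ := H (tk k) with hh0
  set Wk : ℝ := W (nk k * h0 / K) with hWk
  have hWk1 : |Wk| ≤ 1 := W_le_one hw _
  set G : ℂ := ∫ α in (-a)..a, ee (nk k * R * ρ * α ^ 2 / 2) with hG
  have hg := h22k_gauss hCf hκ hRpos hρ hT0
  rw [← ha, ← hG] at hg
  have hcoef : R * ρ * (sqrt (nk k * R * ρ))⁻¹ = S * sqrt ρ := by
    rw [hS, Real.sqrt_div hRpos.le, Real.sqrt_mul (by positivity), Real.sqrt_mul hκ.le]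
    have h1 := Real.sqrt_pos.2 hκ
    have h2 := Real.sqrt_pos.2 hRpos
    have e1 : R = sqrt R * sqrt R := (Real.mul_self_sqrt hRpos.le).symm
    have e2 : ρ = sqrt ρ * sqrt ρ := (Real.mul_self_sqrt hρ.le).symm
    field_simp
    calc R * ρ = (sqrt R * sqrt R) * (sqrt ρ * sqrt ρ) := by rw [← e1, ← e2]
      _ = _ := by ring
  -- the constant
  set c : ℂ := ((R * ρ * Wk : ℝ) : ℂ) * ee (-(nk k * (R * h0 + s))) with hc
  have hcn : ‖c‖ ≤ R * ρ := by
    rw [hc, norm_mul, ee_norm, mul_one, Complex.norm_real, Real.norm_eq_abs, abs_mul, abs_of_pos (by positivity)]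
    exact mul_le_of_le_one_right (by positivity) hWk1
  have hterm : ‖c * G - mk W H K R k‖ ≤ S * (Cf / T) + S * (sqrt B * (2 * π * q⁻¹)) := by
    have h1 : c * G - mk W H K R k = c * (G - (((sqrt (nk k * R * ρ))⁻¹ : ℝ) : ℂ) * ee (1 / 8)) +
        (c * ((((sqrt (nk k * R * ρ))⁻¹ : ℝ) : ℂ) * ee (1 / 8)) - mk W H K R k) := by ring
    rw [h1]
    refine (norm_add_le _ _).trans (add_le_add ?_ ?_)
    · rw [norm_mul]
      calc ‖c‖ * ‖G - (((sqrt (nk k * R * ρ))⁻¹ : ℝ) : ℂ) * ee (1 / 8)‖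
          ≤ (R * ρ) * ((sqrt (nk k * R * ρ))⁻¹ * (Cf / (T * sqrt ρ))) :=
            mul_le_mul hcn hg (norm_nonneg _) (by positivity)
        _ = (R * ρ * (sqrt (nk k * R * ρ))⁻¹) * (Cf / (T * sqrt ρ)) := by ring
        _ = S * (Cf / T) := by
            rw [hcoef]
            field_simp
    · have h2 : c * ((((sqrt (nk k * R * ρ))⁻¹ : ℝ) : ℂ) * ee (1 / 8)) =
          ((S * sqrt ρ * Wk : ℝ) : ℂ) * ee (1 / 8 - nk k * (R * h0 + s)) := by
        have e : (1 / 8 - nk k * (R * h0 + s) : ℝ) = 1 / 8 + -(nk k * (R * h0 + s)) := by ring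
        rw [e, ee_add, hc, ← hcoef]
        push_cast
        ring
      have h3 : mk W H K R k = ((S * sqrt ρ * Wk : ℝ) : ℂ) * ee (1 / 8 - R * (nk k * h0)) := by
        unfold mk
        rw [hSeq]
      rw [h2, h3, ← mul_sub, norm_mul, Complex.norm_real, Real.norm_eq_abs]
      have h4 : |S * sqrt ρ * Wk| ≤ S * sqrt B := by
        rw [abs_mul, abs_of_pos (by positivity)]
        calc S * sqrt ρ * |Wk| ≤ S * sqrt ρ * 1 := mul_le_mul_of_nonneg_left hWk1 (by positivity)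
          _ ≤ S * sqrt B := by
            rw [mul_one]
            exact mul_le_mul_of_nonneg_left (Real.sqrt_le_sqrt (hBr _)) hSpos.le
      have h5 : ‖ee (1 / 8 - nk k * (R * h0 + s)) - ee (1 / 8 - R * (nk k * h0))‖ ≤ 2 * π * q⁻¹ := by
        refine (h22k_ee_lip _ _).trans ?_
        apply mul_le_mul_of_nonneg_left _ (by positivity)
        have e : (1 / 8 - nk k * (R * h0 + s)) - (1 / 8 - R * (nk k * h0)) = -(nk k * s) := by ring
        rw [e, abs_neg, abs_mul, abs_of_pos hκ]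
        calc nk k * |s| ≤ q * (q ^ 2)⁻¹ := mul_le_mul hkR hs' (abs_nonneg _) hqpos.le
          _ = q⁻¹ := by field_simp
      calc |S * sqrt ρ * Wk| * ‖ee (1 / 8 - nk k * (R * h0 + s)) - ee (1 / 8 - R * (nk k * h0))‖
          ≤ (S * sqrt B) * (2 * π * q⁻¹) := mul_le_mul h4 h5 (norm_nonneg _) (by positivity)
        _ = S * (sqrt B * (2 * π * q⁻¹)) := by ring
  have hfin1 : sqrt B * (2 * π * q⁻¹) ≤ η / 8 := by
    have h1 : 16 * π * sqrt B / η ≤ q := by
      have h1 : 0 ≤ 16 * Co / η := by positivity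
      linarith
    rw [div_le_iff₀ hη] at h1
    have h2 : sqrt B * (2 * π * q⁻¹) = (16 * π * sqrt B) / (8 * q) := by
      field_simp
      norm_num
    rw [h2, div_le_div_iff₀ (by positivity) (by norm_num)]
    calc 16 * π * sqrt B * 8 ≤ (q * η) * 8 := mul_le_mul_of_nonneg_right h1 (by norm_num)
      _ = η * (8 * q) := by ring
  have hfin2 : 2 * Co ≤ η / 8 * S := by
    have h1 : 16 * Co / η ≤ S := by
      have h1 : 0 ≤ 16 * π * sqrt B / η := by positivity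
      linarith
    rw [div_le_iff₀ hη] at h1
    linarith
  rw [hSeq, hsplit]
  have hdec : (∫ α in (-(π / 2))..(-a), Li W H K R s k α) +
      (∫ α in (-a)..a, Li W H K R s k α) + (∫ α in a..(π / 2), Li W H K R s k α) - mk W H K R k =
      (∫ α in (-(π / 2))..(-a), Li W H K R s k α) + (∫ α in a..(π / 2), Li W H K R s k α) +
      ((∫ α in (-a)..a, Li W H K R s k α) - c * G) + (c * G - mk W H K R k) := by ring
  rw [hdec]
  have hA := norm_add₄_le (a := ∫ α in (-(π / 2))..(-a), Li W H K R s k α) (b := ∫ α in a..(π / 2), Li W H K R s k α)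
    (c := (∫ α in (-a)..a, Li W H K R s k α) - c * G) (d := c * G - mk W H K R k)
  have h2T : 2 * (S / T) + S * (Cf / T) = S * ((2 + Cf) / T) := by ring
  have h3T : S * ((2 + Cf) / T) ≤ S * (η / 8) := mul_le_mul_of_nonneg_left hTη hSpos.le
  have h4T : S * (sqrt B * (2 * π * q⁻¹)) ≤ S * (η / 8) := mul_le_mul_of_nonneg_left hfin1 hSpos.le
  have hSη : 0 ≤ η * S := by positivity
  linarith

end Pool.Agent.Helper92.EO
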