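import Pool.Agent.Helper92.EO.Outer
import Pool.Agent.Helper92.EO.Lat

/-!
# EO-O12: large frequencies

PROOF. `|rho H| ≤ B` with `B ≥ 1`. Put `a = (A B)^(-1/2) ≤ 1 ≤ π/2`. For `|α| ≤ a`: `gph H k 0 = H (tk k) ≥ 2/A` and by `gph_hasDerivAt`
`|gph H k α - gph H k 0| ≤ B (1 - cos α) ≤ B a²/2 = 1/(2A)`, so `gph H k α ≥ 1/A` and `nk k gph / K ≥ nk k / (A K) > 1`, hence `W = 0`: the integrand
vanishes on `[-a, a]`. The remaining two pieces: `outer` with this `a` (`nk k ≥ 1`).
-/

open MeasureTheory Real Set Filter Topology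

set_option autoImplicit false

namespace Pool.Agent.Helper92.EO

open Pool.Agent.Helper22.AE

private lemma l92_deriv {H : ℝ → ℝ} (hH : ContDiff ℝ 2 H) : ContDiff ℝ 1 (deriv H) :=
  ((contDiff_succ_iff_deriv (n := 1)).1 hH).2.2

private lemma l92_rho_cont {H : ℝ → ℝ} (hH : ContDiff ℝ 2 H) : Continuous (rho H) := by
  unfold rho
  exact hH.continuous.add ((l92_deriv hH).continuous_deriv le_rfl)

private lemma l92_gph_cont {H : ℝ → ℝ} (hH : ContDiff ℝ 2 H) (k : ℤ × ℤ) : Continuous (gph H k) := by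
  have h1 := hH.continuous
  have h2 := (l92_deriv hH).continuous
  unfold gph
  fun_prop

private lemma l92_tk (k : ℤ × ℤ) : |tk k| ≤ 4 := by
  have h1 := Complex.neg_pi_lt_arg (cz k)
  have h2 := Complex.arg_le_pi (cz k)
  have h3 := Real.pi_lt_four
  unfold tk
  rw [abs_le]
  constructor <;> linarith

/-- bound and modulus of continuity of the radius of curvature -/
private lemma l92_rho {H : ℝ → ℝ} (hH : ContDiff ℝ 2 H) : ∃ B : ℝ, 1 ≤ B ∧ (∀ (k : ℤ × ℤ) (t : ℝ), |t| ≤ 1 → |rho H (tk k + t)| ≤ B) ∧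
    ∀ ω : ℝ, 0 < ω → ∃ d : ℝ, 0 < d ∧ ∀ (k : ℤ × ℤ) (t : ℝ), |t| ≤ 1 → |t| ≤ d → |rho H (tk k + t) - rho H (tk k)| ≤ ω := by
  have hc := l92_rho_cont hH
  have hK : IsCompact (Icc (-5 : ℝ) 5) := isCompact_Icc
  obtain ⟨B, hB⟩ := hK.exists_bound_of_continuousOn hc.continuousOn
  have hmem : ∀ (k : ℤ × ℤ) (t : ℝ), |t| ≤ 1 → tk k + t ∈ Icc (-5 : ℝ) 5 := by
    intro k t ht
    have h1 := abs_le.1 (l92_tk k)
    have h2 := abs_le.1 ht
    constructor <;> linarith [h1.1, h1.2, h2.1, h2.2]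
  refine ⟨max B 1, le_max_right _ _, fun k t ht => ?_, fun ω hω => ?_⟩
  · have h := hB _ (hmem k t ht)
    rw [Real.norm_eq_abs] at h
    exact h.trans (le_max_left _ _)
  · have hu := hK.uniformContinuousOn_of_continuous hc.continuousOn
    rw [Metric.uniformContinuousOn_iff_le] at hu
    obtain ⟨d, hd, hu⟩ := hu ω hω
    refine ⟨d, hd, fun k t ht htd => ?_⟩
    have h := hu (tk k + t) (hmem k t ht) (tk k + 0) (hmem k 0 (by simp)) (by
      rw [Real.dist_eq]
      have e : tk k + t - (tk k + 0) = t := by ring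
      rw [e]
      exact htd)
    rw [Real.dist_eq, add_zero] at h
    exact h

/-- a mean value bound on `[-a, a]` -/
private lemma l92_mvt {f f' : ℝ → ℝ} {a M : ℝ} (hf : ∀ t, HasDerivAt f (f' t) t) (hM : ∀ t, |t| ≤ a → |f' t| ≤ M)
    {α : ℝ} (hα : |α| ≤ a) : |f α - f 0| ≤ M * |α| := by
  have ha : 0 ≤ a := (abs_nonneg _).trans hα
  have h := (convex_Icc (-a) a).norm_image_sub_le_of_norm_hasDerivWithin_le (f := f) (f' := f') (C := M)
    (fun x _ => (hf x).hasDerivWithinAt) (fun x hx => by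
      rw [Real.norm_eq_abs]
      exact hM x (abs_le.2 hx)) (x := 0) (y := α) ⟨by linarith, ha⟩ (abs_le.1 hα)
  simpa [Real.norm_eq_abs] using h

private lemma l92_nz {k : ℤ × ℤ} (h : 0 < nk k) : k ≠ 0 := by
  rintro rfl
  have h1 : nk (0 : ℤ × ℤ) = 0 := by
    simp [nk, cz, Complex.ext_iff]
  linarith

private lemma l92_gph {H : ℝ → ℝ} (hH : ContDiff ℝ 2 H) {B a : ℝ} (hB0 : 0 ≤ B) (k : ℤ × ℤ)
    (hB : ∀ t, |t| ≤ a → |rho H (tk k + t)| ≤ B) {α : ℝ} (hα : |α| ≤ a) :
    |gph H k α - H (tk k)| ≤ B * a ^ 2 := by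
  have ha : 0 ≤ a := (abs_nonneg _).trans hα
  have h0 : gph H k 0 = H (tk k) := by simp [gph]
  have h := l92_mvt (fun t => gph_hasDerivAt hH k t) (a := a) (M := B * a) (fun t ht => ?_) hα
  · rw [h0] at h
    refine h.trans ?_
    have h1 : B * a * |α| ≤ B * a * a := mul_le_mul_of_nonneg_left hα (mul_nonneg hB0 ha)
    refine h1.trans (le_of_eq (by ring))
  · rw [abs_neg, abs_mul]
    have h1 : |sin t| ≤ a := (abs_sin_le_abs).trans ht
    exact mul_le_mul (hB t ht) h1 (abs_nonneg _) hB0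

theorem large {w W : ℝ → ℝ} (hw : IsKer w W) {H : ℝ → ℝ} (hH : IsSupp H) {A : ℝ} (hA : 1 ≤ A) (hA2 : ∀ θ, 2 ≤ A * H θ) :
    ∃ C : ℝ, 0 ≤ C ∧ ∀ R K s : ℝ, 1 ≤ R → 1 ≤ K → |s| ≤ 1 → ∀ k : ℤ × ℤ, A * K < nk k → ‖Lk W H K R s k‖ ≤ C := by
  obtain ⟨B, hB1, hB, -⟩ := l92_rho hH.smooth
  obtain ⟨C, hC0, hC⟩ := outer hw hH
  have hB0 : 0 ≤ B := by linarith
  have hAB : 1 ≤ A * B := by nlinarith
  have hABp : 0 < A * B := by linarith
  have hA0 : 0 < A := by linarith
  set a : ℝ := 1 / sqrt (A * B) with ha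
  have hsq : 1 ≤ sqrt (A * B) := Real.one_le_sqrt.2 hAB
  have ha0 : 0 < a := by positivity
  have ha1 : a ≤ 1 := by
    rw [ha, div_le_one (by linarith)]
    exact hsq
  have ha2 : a ^ 2 = 1 / (A * B) := by
    rw [ha, div_pow, Real.sq_sqrt hABp.le, one_pow]
  have hpi := Real.pi_gt_three
  refine ⟨2 * (1 / a + C), by positivity, ?_⟩
  intro R K s hR hK hs k hk
  have hK0 : 0 < K := by linarith
  have hκ0 : 0 < nk k := lt_of_le_of_lt (by positivity) hk
  have hk0 : k ≠ 0 := l92_nz hκ0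
  have hκ1 := nk_ge_one hk0
  obtain ⟨h1, h2⟩ := hC R K s a hR hK hs ha0 (by linarith) k hk0
  have hcont : Continuous (fun α => Li W H K R s k α) := by
    have h1 := l92_rho_cont hH.smooth
    have h2 := l92_gph_cont hH.smooth k
    have h3 := hw.smooth.continuous
    have h4 := ee_cont
    unfold Li
    fun_prop
  have hmid : ∫ α in (-a)..a, Li W H K R s k α = 0 := by
    have e : ∫ α in (-a)..a, Li W H K R s k α = ∫ α in (-a)..a, (0 : ℂ) := by
      apply intervalIntegral.integral_congr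
      intro α hα
      rw [uIcc_of_le (by linarith)] at hα
      have hα' : |α| ≤ a := abs_le.2 hα
      have hg := l92_gph hH.smooth hB0 k (fun t ht => hB k t (ht.trans ha1)) hα'
      have hH0 := hA2 (tk k)
      have e1 : B * a ^ 2 = 1 / A := by
        rw [ha2]
        have : B ≠ 0 := by linarith
        field_simp
      rw [e1] at hg
      have hg1 := (abs_le.1 hg).1
      have hg2 : 1 / A ≤ gph H k α := by
        have h3 : 2 / A ≤ H (tk k) := by
          rw [div_le_iff₀ hA0]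
          linarith
        have h4 : 2 / A = 1 / A + 1 / A := by ring
        linarith
      have hg3 : 1 ≤ nk k * gph H k α / K := by
        rw [le_div_iff₀ hK0]
        have h5 : nk k * (1 / A) ≤ nk k * gph H k α := mul_le_mul_of_nonneg_left hg2 hκ0.le
        have h6 : K ≤ nk k * (1 / A) := by
          rw [mul_one_div, le_div_iff₀ hA0]
          linarith
        linarith
      have hW : W (nk k * gph H k α / K) = 0 := hw.supp _ (hg3.trans (le_abs_self _))
      simp [Li, hW]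
    rw [e, intervalIntegral.integral_zero]
  have hsplit : Lk W H K R s k = (∫ α in (-(π / 2))..(-a), Li W H K R s k α) + (∫ α in (-a)..a, Li W H K R s k α) +
      ∫ α in a..(π / 2), Li W H K R s k α := by
    unfold Lk
    rw [intervalIntegral.integral_add_adjacent_intervals (hcont.intervalIntegrable _ _) (hcont.intervalIntegrable _ _),
      intervalIntegral.integral_add_adjacent_intervals (hcont.intervalIntegrable _ _) (hcont.intervalIntegrable _ _)]
  rw [hsplit, hmid, add_zero]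
  refine (norm_add_le _ _).trans ?_
  have h3 : 1 / (nk k * a) ≤ 1 / a := by
    apply one_div_le_one_div_of_le ha0
    nlinarith
  linarith

end Pool.Agent.Helper92.EO
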