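import Pool.Agent.Helper92.EO.OBase
import Pool.Agent.Helper22.AE.G5

/-!
# EO-O3: the Fourier transform as a sum of two half-range integrals

PROOF. `ft_polar` (AE/G5): `ft G k = -(1/(2πi|k|)) ∫_{-π}^{π} F(α) dα`, `F α = cos α rho G (tk k + α) e(-nk k gph G k α)`, `F` is `2π`-periodic. By periodicity
`∫_{-π}^{π} F = ∫_{-π/2}^{π/2} F + ∫_{π/2}^{3π/2} F` (`Function.Periodic.intervalIntegral_add_eq`), and in the second integral `α = π + β`:
`cos (π + β) = - cos β`, `tk k + π + β = tk (-k) + β mod 2π` (`tk (-k) = tk k ± π`: `Complex.arg_neg_eq_...`; alternatively use that both angles have the same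
sine and cosine, so they differ by a multiple of `2π`, `Real.Angle`), `nk (-k) = nk k`, `gph G k (π + β) = - gph G (-k) β` and
`e(nk k gph G (-k) β) = conj e(-nk (-k) gph G (-k) β)`. So the second integral is `- conj (hk G (-k))`.
-/

open MeasureTheory Real Set Filter Topology

set_option autoImplicit false

namespace Pool.Agent.Helper92.EO

open Pool.Agent.Helper22.AE

private lemma cz_neg3 (k : ℤ × ℤ) : cz (-k) = -cz k := by
  unfold cz
  apply Complex.ext <;> simp

theorem nk_neg (k : ℤ × ℤ) : nk (-k) = nk k := by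
  unfold nk
  rw [cz_neg3, norm_neg]

private lemma per_deriv3 {G : ℝ → ℝ} {c : ℝ} (h : Function.Periodic G c) :
    Function.Periodic (deriv G) c := by
  intro x
  have e : (fun y => G (y + c)) = G := by
    funext y
    exact h y
  have h2 := deriv_comp_add_const G c x
  rw [e] at h2
  exact h2.symm

private lemma tk_neg3 {k : ℤ × ℤ} (hk0 : k ≠ 0) : ∃ n : ℤ, tk (-k) = tk k + π + n * (2 * π) := by
  have hc : cz k ≠ 0 := by
    intro h
    have h1 := nk_pos hk0
    unfold nk at h1
    rw [h, norm_zero] at h1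
    exact lt_irrefl _ h1
  have h1 := Complex.arg_neg_coe_angle hc
  rw [← Real.Angle.coe_add, Real.Angle.angle_eq_iff_two_pi_dvd_sub] at h1
  obtain ⟨n, hn⟩ := h1
  refine ⟨n, ?_⟩
  unfold tk
  rw [cz_neg3]
  linarith

private noncomputable def ff3 (G : ℝ → ℝ) (k : ℤ × ℤ) (α : ℝ) : ℂ :=
  ((cos α * rho G (tk k + α) : ℝ) : ℂ) * ee (-(nk k * gph G k α))

private lemma ff3_per {G : ℝ → ℝ} (hG : IsSupp G) (k : ℤ × ℤ) :
    Function.Periodic (ff3 G k) (2 * π) := by
  intro α
  have hG1 := per_deriv3 hG.per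
  have hG2 := per_deriv3 hG1
  simp only [ff3, rho, gph]
  rw [cos_add_two_pi, sin_add_two_pi, ← add_assoc, hG.per, hG1, hG2]

private lemma ff3_cont {G : ℝ → ℝ} (hG : IsSupp G) (k : ℤ × ℤ) : Continuous (ff3 G k) := by
  have h1 : ContDiff ℝ 1 (deriv G) := by
    have h := (contDiff_succ_iff_deriv (n := 1) (f := G)).1 (by
      rw [one_add_one_eq_two]; exact hG.smooth)
    exact h.2.2
  have h2 : Continuous (deriv (deriv G)) := h1.continuous_deriv (le_refl _)
  have h3 : Continuous (deriv G) := h1.continuous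
  have h4 : Continuous G := hG.smooth.continuous
  have h5 : Continuous (rho G) := h4.add h2
  unfold ff3 gph
  refine Continuous.mul ?_ (ee_cont.comp ?_)
  · exact Complex.continuous_ofReal.comp
      (continuous_cos.mul (h5.comp (continuous_const.add continuous_id)))
  · refine (continuous_const.mul (Continuous.sub ?_ ?_)).neg
    · exact (h4.comp (continuous_const.add continuous_id)).mul continuous_cos
    · exact (h3.comp (continuous_const.add continuous_id)).mul continuous_sin

private lemma ff3_flip {G : ℝ → ℝ} (hG : IsSupp G) {k : ℤ × ℤ} (hk0 : k ≠ 0) (β : ℝ) :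
    ff3 G k (π + β) = -(starRingEnd ℂ) (ff3 G (-k) β) := by
  obtain ⟨n, hn⟩ := tk_neg3 hk0
  have hG1 := per_deriv3 hG.per
  have hG2 := per_deriv3 hG1
  have e : tk (-k) + β = (tk k + (π + β)) + n * (2 * π) := by rw [hn]; ring
  have e0 : G (tk (-k) + β) = G (tk k + (π + β)) := by rw [e]; exact hG.per.int_mul n _
  have e1 : deriv G (tk (-k) + β) = deriv G (tk k + (π + β)) := by rw [e]; exact hG1.int_mul n _
  have e2 : deriv (deriv G) (tk (-k) + β) = deriv (deriv G) (tk k + (π + β)) := by
    rw [e]; exact hG2.int_mul n _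
  simp only [ff3, rho, gph]
  rw [nk_neg, e0, e1, e2, map_mul, Complex.conj_ofReal, ← ee_neg, add_comm π β, cos_add_pi,
    sin_add_pi]
  have h1 : -(nk k * (G (tk k + (β + π)) * -cos β - deriv G (tk k + (β + π)) * -sin β)) =
      - -(nk k * (G (tk k + (β + π)) * cos β - deriv G (tk k + (β + π)) * sin β)) := by ring
  rw [h1]
  push_cast
  ring

theorem ft_half {G : ℝ → ℝ} (hG : IsSupp G) {k : ℤ × ℤ} (hk0 : k ≠ 0) :
    ft G k = -(1 / (2 * π * Complex.I * (nk k : ℂ))) * (hk G k - (starRingEnd ℂ) (hk G (-k))) := by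
  rw [ft_polar hG hk0]
  congr 1
  have hi : ∀ a b : ℝ, IntervalIntegrable (ff3 G k) volume a b := fun a b =>
    (ff3_cont hG k).intervalIntegrable a b
  have h0 : (∫ α in (-π)..π, ff3 G k α) =
      (∫ α in (-(π / 2))..(π / 2), ff3 G k α) + ∫ α in (π / 2)..(3 * π / 2), ff3 G k α := by
    rw [intervalIntegral.integral_add_adjacent_intervals (hi _ _) (hi _ _)]
    have h1 := (ff3_per hG k).intervalIntegral_add_eq (-π) (-(π / 2))
    have e1 : -π + 2 * π = π := by ring
    have e2 : -(π / 2) + 2 * π = 3 * π / 2 := by ring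
    rw [e1, e2] at h1
    exact h1
  have h2 : (∫ α in (π / 2)..(3 * π / 2), ff3 G k α) = -(starRingEnd ℂ) (hk G (-k)) := by
    have h3 := intervalIntegral.integral_comp_add_left (a := -(π / 2)) (b := π / 2) (ff3 G k) π
    have e1 : π + -(π / 2) = π / 2 := by ring
    have e2 : π + π / 2 = 3 * π / 2 := by ring
    rw [e1, e2] at h3
    rw [← h3]
    simp only [ff3_flip hG hk0]
    rw [intervalIntegral.integral_neg]
    congr 1
    unfold hk intervalIntegral
    rw [integral_conj, integral_conj, ← map_sub]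
    rfl
  change (∫ α in (-π)..π, ff3 G k α) = hk G k - _
  rw [h0, h2]
  rfl

end Pool.Agent.Helper92.EO
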