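import Pool.Agent.Helper92.EO.OBase

/-!
# EO-O2: simple consequences for the kernel

PROOFS. `W_le_one`: `|W x| = ‖∫ w u e(-x u)‖ ≤ ∫ w = 1` (`norm_integral_le_integral_norm`, `ee_norm`).
`W_cont`, `W_deriv_bound`: `W` is `C¹` with support in `[-1, 1]`: `deriv W` is continuous and vanishes outside `[-1, 1]`.
`w_int`: `w ≤ C / (1 + u²)²` is integrable (compare with `integrable_inv_one_add_sq`).
`w_scale`: substitution `v = K u` (`MeasureTheory.integral_comp_mul_left`).
`w_tail`: `K w(K u) ≤ C K / (K u)^4 ≤ C u^(-4)` for `|u| ≥ Y`, `K ≥ 1`; `∫_{|u| > Y} u^(-4) = (2/3) Y^(-3)`.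
`qw_int`: on `[R/2, 3R/2]` one has `0 < R / r ≤ 2`, so `0 ≤ qw ≤ 2 K w(K (r - R))` and the integral is at most `2 ∫ K w(K u) du = 2`.
-/

open MeasureTheory Real Set Filter Topology

set_option autoImplicit false

namespace Pool.Agent.Helper92.EO

open Pool.Agent.Helper22.AE

theorem W_le_one {w W : ℝ → ℝ} (hw : IsKer w W) (x : ℝ) : |W x| ≤ 1 := by
  have h1 : |W x| = ‖((W x : ℝ) : ℂ)‖ := by rw [Complex.norm_real, Real.norm_eq_abs]
  rw [h1, ← hw.four x]
  refine (norm_integral_le_integral_norm _).trans ?_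
  have h2 : ∀ u : ℝ, ‖((w u : ℝ) : ℂ) * ee (-(x * u))‖ = w u := by
    intro u
    rw [norm_mul, ee_norm, mul_one, Complex.norm_real, Real.norm_eq_abs, abs_of_nonneg (hw.nonneg u)]
  simp only [h2]
  rw [hw.int_one]

theorem W_deriv_bound {w W : ℝ → ℝ} (hw : IsKer w W) : ∃ C : ℝ, 0 ≤ C ∧ ∀ x, |deriv W x| ≤ C := by
  have hc : Continuous (deriv W) := hw.smooth.continuous_deriv le_rfl
  obtain ⟨C, hC⟩ := (isCompact_Icc (a := (-1 : ℝ)) (b := 1)).exists_bound_of_continuousOn hc.continuousOn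
  refine ⟨max C 0, le_max_right _ _, fun x => ?_⟩
  by_cases hx : x ∈ Icc (-1 : ℝ) 1
  · exact (hC x hx).trans (le_max_left _ _)
  · have h1 : 1 < |x| := by
      by_contra h
      rw [not_lt, abs_le] at h
      exact hx ⟨h.1, h.2⟩
    have h2 : W =ᶠ[𝓝 x] fun _ => 0 := by
      have h3 : ∀ᶠ y in 𝓝 x, 1 < |y| := (isOpen_lt continuous_const continuous_abs).mem_nhds h1
      filter_upwards [h3] with y hy
      exact hw.supp y hy.le
    rw [h2.deriv_eq, deriv_const, abs_zero]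
    exact le_max_right _ _

theorem w_int {w W : ℝ → ℝ} (hw : IsKer w W) : Integrable w := by
  obtain ⟨C, hC⟩ := hw.decay
  refine (integrable_inv_one_add_sq.const_mul C).mono' hw.cont.aestronglyMeasurable ?_
  refine Filter.Eventually.of_forall fun u => ?_
  rw [Real.norm_eq_abs, abs_of_nonneg (hw.nonneg u), ← div_eq_mul_inv, le_div_iff₀ (by positivity)]
  refine le_trans (mul_le_mul_of_nonneg_left ?_ (hw.nonneg u)) (hC u)
  nlinarith [sq_nonneg u]

/-- the scaled and translated kernel: change of variables -/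
private lemma kb_subst {F : Type*} [NormedAddCommGroup F] [NormedSpace ℝ F] (g : ℝ → F) {K : ℝ} (hK : 0 < K) (R : ℝ) :
    ∫ r : ℝ, K • g (K * (r - R)) = ∫ u, g u := by
  rw [integral_sub_right_eq_self (fun r => K • g (K * r)) R, integral_smul, Measure.integral_comp_mul_left,
    abs_of_pos (inv_pos.2 hK), smul_smul, mul_inv_cancel₀ hK.ne', one_smul]

theorem w_scale {w W : ℝ → ℝ} (hw : IsKer w W) {K : ℝ} (hK : 0 < K) (R x : ℝ) :
    ∫ r : ℝ, ((K * w (K * (r - R)) : ℝ) : ℂ) * ee (-(x * r)) = ((W (x / K) : ℝ) : ℂ) * ee (-(x * R)) := by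
  have h1 := kb_subst (fun u : ℝ => ((w u : ℝ) : ℂ) * ee (-(x * (R + u / K)))) hK R
  have h2 : ∀ r : ℝ, ((K * w (K * (r - R)) : ℝ) : ℂ) * ee (-(x * r)) =
      K • (((w (K * (r - R)) : ℝ) : ℂ) * ee (-(x * (R + (K * (r - R)) / K)))) := by
    intro r
    have e : R + (K * (r - R)) / K = r := by
      field_simp
      ring
    rw [e, Complex.real_smul]
    push_cast
    ring
  simp only [h2]
  rw [h1, ← hw.four (x / K), ← integral_mul_const]
  refine integral_congr_ae (Filter.Eventually.of_forall fun u => ?_)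
  beta_reduce
  rw [mul_assoc, ← ee_add]
  congr 2
  field_simp
  ring

private lemma kb_int {w W : ℝ → ℝ} (hw : IsKer w W) {K : ℝ} (hK : 0 < K) (R : ℝ) :
    Integrable fun r : ℝ => K * w (K * (r - R)) := by
  have h1 : Integrable fun r : ℝ => w (K * r) := (w_int hw).comp_mul_left' hK.ne'
  exact (h1.comp_sub_right R).const_mul K

private lemma kb_one {w W : ℝ → ℝ} (hw : IsKer w W) {K : ℝ} (hK : 0 < K) (R : ℝ) :
    ∫ r : ℝ, K * w (K * (r - R)) = 1 := by
  rw [← hw.int_one]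
  exact kb_subst w hK R

theorem w_tail {w W : ℝ → ℝ} (hw : IsKer w W) : ∃ C : ℝ, 0 ≤ C ∧ ∀ K R : ℝ, 1 ≤ K → 1 ≤ R →
    ∫ r in (Ioc (R / 2) (3 * R / 2))ᶜ, K * w (K * (r - R)) ≤ C * R ^ (-3 : ℝ) := by
  obtain ⟨C, hC⟩ := hw.decay
  have hC0 : 0 ≤ C := le_trans (mul_nonneg (hw.nonneg 0) (by positivity)) (hC 0)
  refine ⟨25 * C * π, by positivity, fun K R hK hR => ?_⟩
  have hK0 : 0 < K := by linarith
  have hR0 : 0 < R := by linarith
  -- the comparison function
  have hcmp : Integrable fun r : ℝ => 25 * C / R ^ 4 * (1 + ((r - R) / R) ^ 2)⁻¹ := by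
    have h1 : Integrable fun u : ℝ => (1 + (R⁻¹ * u) ^ 2)⁻¹ :=
      integrable_inv_one_add_sq.comp_mul_left' (inv_ne_zero hR0.ne')
    have h2 := (h1.comp_sub_right R).const_mul (25 * C / R ^ 4)
    refine h2.congr (Filter.Eventually.of_forall fun r => ?_)
    beta_reduce
    rw [inv_mul_eq_div]
  have hval : ∫ r : ℝ, 25 * C / R ^ 4 * (1 + ((r - R) / R) ^ 2)⁻¹ = 25 * C * π * R ^ (-3 : ℝ) := by
    rw [integral_const_mul, integral_sub_right_eq_self (fun r : ℝ => (1 + (r / R) ^ 2)⁻¹) R,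
      Measure.integral_comp_div (fun u : ℝ => (1 + u ^ 2)⁻¹) R, integral_univ_inv_one_add_sq, abs_of_pos hR0,
      smul_eq_mul]
    have e : R ^ (-3 : ℝ) = (R ^ 3)⁻¹ := by
      rw [Real.rpow_neg hR0.le]
      norm_cast
    rw [e]
    field_simp
  rw [← hval]
  have hnn : ∀ r : ℝ, 0 ≤ 25 * C / R ^ 4 * (1 + ((r - R) / R) ^ 2)⁻¹ := fun r => by positivity
  refine le_trans (setIntegral_mono_on (kb_int hw hK0 R).integrableOn hcmp.integrableOn
    measurableSet_Ioc.compl fun r hr => ?_) (setIntegral_le_integral hcmp (Filter.Eventually.of_forall hnn))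
  -- the pointwise bound
  have hu : R / 2 ≤ |r - R| := by
    rw [mem_compl_iff, mem_Ioc, not_and_or, not_lt, not_le] at hr
    rcases hr with hr | hr
    · rw [abs_of_nonpos (by linarith)]
      linarith
    · rw [abs_of_nonneg (by linarith)]
      linarith
  set u := r - R with hu'
  have hu2 : R ^ 2 ≤ 4 * u ^ 2 := by
    have := pow_le_pow_left₀ (by positivity) hu 2
    rw [sq_abs] at this
    linarith
  have hu0 : 0 < u ^ 2 := by nlinarith
  have h3 : w (K * u) ≤ C / (K * u) ^ 4 := by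
    have hp : 0 < (K * u) ^ 4 := by
      have e : (K * u) ^ 4 = K ^ 4 * (u ^ 2) ^ 2 := by ring
      rw [e]
      positivity
    rw [le_div_iff₀ hp]
    refine le_trans (mul_le_mul_of_nonneg_left ?_ (hw.nonneg _)) (hC _)
    nlinarith [sq_nonneg (K * u)]
  have h4 : K * w (K * u) ≤ C / u ^ 4 := by
    have e : (K * u) ^ 4 = K ^ 4 * (u ^ 2) ^ 2 := by ring
    have e2 : u ^ 4 = (u ^ 2) ^ 2 := by ring
    refine (mul_le_mul_of_nonneg_left h3 hK0.le).trans ?_
    rw [e, e2, ← mul_div_assoc, div_le_div_iff₀ (by positivity) (by positivity)]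
    have h5 : K ≤ K ^ 4 := by
      calc K = K ^ 1 := (pow_one K).symm
        _ ≤ K ^ 4 := pow_le_pow_right₀ hK (by norm_num)
    have h6 : 0 ≤ C * (u ^ 2) ^ 2 := by positivity
    nlinarith
  refine h4.trans ?_
  have e2 : u ^ 4 = (u ^ 2) ^ 2 := by ring
  have e3 : 25 * C / R ^ 4 * (1 + (u / R) ^ 2)⁻¹ = 25 * C / (R ^ 2 * (R ^ 2 + u ^ 2)) := by
    field_simp
  rw [e3, e2, div_le_div_iff₀ (by positivity) (by positivity)]
  have h7 : R ^ 2 * (R ^ 2 + u ^ 2) ≤ 25 * (u ^ 2) ^ 2 := by nlinarith [sq_nonneg R]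
  nlinarith

theorem qw_nonneg {w W : ℝ → ℝ} (hw : IsKer w W) {K R r : ℝ} (hK : 0 < K) (hR : 0 < R) (hr : r ∈ Icc (R / 2) (3 * R / 2)) :
    0 ≤ qw w K R r := by
  have h1 : 0 < r := by linarith [hr.1]
  unfold qw
  have := hw.nonneg (K * (r - R))
  positivity

theorem qw_cont {w W : ℝ → ℝ} (hw : IsKer w W) {K R : ℝ} (hK : 0 < K) (hR : 0 < R) :
    ContinuousOn (qw w K R) (Icc (R / 2) (3 * R / 2)) := by
  unfold qw
  refine ContinuousOn.mul ?_ ?_
  · exact (continuous_const.mul (hw.cont.comp (by fun_prop))).continuousOn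
  · refine continuousOn_const.div continuousOn_id fun r hr => ?_
    have : 0 < r := by linarith [hr.1]
    exact this.ne'

theorem qw_int {w W : ℝ → ℝ} (hw : IsKer w W) {K R : ℝ} (hK : 0 < K) (hR : 0 < R) :
    ∫ r in (R / 2)..(3 * R / 2), qw w K R r ≤ 2 := by
  have hle : R / 2 ≤ 3 * R / 2 := by linarith
  have hi := (kb_int hw hK R).const_mul 2
  have h1 : ∫ r in (R / 2)..(3 * R / 2), qw w K R r ≤ ∫ r in (R / 2)..(3 * R / 2), 2 * (K * w (K * (r - R))) := by
    refine intervalIntegral.integral_mono_on hle ?_ hi.intervalIntegrable fun r hr => ?_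
    · refine ContinuousOn.intervalIntegrable ?_
      rw [uIcc_of_le hle]
      exact qw_cont hw hK hR
    · have h2 : 0 < r := by linarith [hr.1]
      have h3 : R / r ≤ 2 := by
        rw [div_le_iff₀ h2]
        linarith [hr.1]
      have h4 : 0 ≤ K * w (K * (r - R)) := mul_nonneg hK.le (hw.nonneg _)
      unfold qw
      nlinarith
  refine h1.trans ?_
  rw [intervalIntegral.integral_of_le hle]
  refine (setIntegral_le_integral hi (Filter.Eventually.of_forall fun r => ?_)).trans ?_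
  · have h4 : 0 ≤ K * w (K * (r - R)) := mul_nonneg hK.le (hw.nonneg _)
    show 0 ≤ 2 * (K * w (K * (r - R)))
    positivity
  · rw [integral_const_mul, kb_one hw hK R]
    norm_num

end Pool.Agent.Helper92.EO
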