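import Pool.Agent.Helper92.EO.Key
import Pool.Agent.Helper92.EO.Large
import Pool.Agent.Helper92.EO.Av
import Pool.Agent.Helper22.AE.P1

/-!
# EO-O16: the main term of the averaged error

PROOF. `exists_bump` (AE/P1) gives `φ`. By `Av_bounds` it is enough that for `s = ± δ`, `δ = R^(-1/2)`:
`|∑_k tr φ δ k (Lk W H K R s k) - mainT W H (A K) K R| ≤ (η K^(1/2) + C) R^(1/2)`.
Split the sum at `kset (A K)` (`Summable`: `tr_le`, `Lk_bound`, `fhat_sum`).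
Outside (and `k ≠ 0`): `large` and `fhat_sum`: at most `C C'/δ = C'' R^(1/2)`.
Inside: `nk k ≤ A K ≤ A log R ≤ R^(1/4)`; `key` with `η'`; `|fhat φ (δ k) - 1| ≤ 2π δ nk k` (`φ` supported in the unit disc, `∫ φ = 1`) and `‖fhat‖ ≤ 1` (`fhat_le_one`):
`|tr φ δ k (Lk) - (π nk k)⁻¹ Re(i mk)| ≤ (π nk k)⁻¹ (η' (R/nk k)^(1/2) + B^(1/2) (R/nk k)^(1/2) 2π δ nk k) ≤ η'' R^(1/2) nk k^(-3/2)`, sum: `lat_upper`.
`(π nk k)⁻¹ Re (i mk) = (R^(1/2)/π) nk k^(-3/2) sqrt(rho) W cos(2π(R nk k H) - 3π/4)`, because `i e(1/8 - x) = e(3/8 - x)`, real part `cos(2π x - 3π/4)`.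
-/

open MeasureTheory Real Set Filter Topology

set_option autoImplicit false

namespace Pool.Agent.Helper92.EO

open Pool.Agent.Helper22.AE

private lemma h22m_deriv_cd {H : ℝ → ℝ} (hH : ContDiff ℝ 2 H) : ContDiff ℝ 1 (deriv H) := by
  have h := (contDiff_succ_iff_deriv (n := 1) (f := H)).1 (by
    rw [one_add_one_eq_two]; exact hH)
  exact h.2.2

private lemma h22m_rho_cont {H : ℝ → ℝ} (hH : ContDiff ℝ 2 H) : Continuous (rho H) := by
  have h2 : Continuous (deriv (deriv H)) := (h22m_deriv_cd hH).continuous_deriv (le_refl _)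
  exact hH.continuous.add h2

private lemma h22m_rho_bdd {H : ℝ → ℝ} (hH : IsSupp H) : ∃ B : ℝ, 0 < B ∧ ∀ θ, rho H θ ≤ B := by
  have hp : Function.Periodic (rho H) (2 * π) := by
    intro θ
    have h1 : Function.Periodic (deriv H) (2 * π) := by
      intro x
      have := deriv_comp_add_const H (2 * π) x
      rw [← this]
      congr 1
      funext y
      exact hH.per y
    have h2 : Function.Periodic (deriv (deriv H)) (2 * π) := by
      intro x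
      have := deriv_comp_add_const (deriv H) (2 * π) x
      rw [← this]
      congr 1
      funext y
      exact h1 y
    unfold rho
    rw [hH.per, h2]
  obtain ⟨t0, -, h0⟩ := isCompact_Icc.exists_isMaxOn (s := Icc (0 : ℝ) (2 * π))
    (nonempty_Icc.2 (by positivity)) (h22m_rho_cont hH.smooth).continuousOn
  refine ⟨rho H t0, hH.rho_pos t0, fun θ => ?_⟩
  obtain ⟨y, hy, hy'⟩ := hp.exists_mem_Ico₀ (by positivity) θ
  rw [hy']
  exact h0 ⟨hy.1, hy.2.le⟩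

private lemma h22m_ee_one (x : ℝ) : ‖ee x - 1‖ ≤ 2 * π * |x| := by
  have h1 : ee x = Complex.exp (Complex.I * ((2 * π * x : ℝ) : ℂ)) := by
    unfold ee
    rw [mul_comm]
  rw [h1]
  refine (Real.norm_exp_I_mul_ofReal_sub_one_le).trans ?_
  rw [Real.norm_eq_abs, abs_mul, abs_of_pos (by positivity : (0 : ℝ) < 2 * π)]

private lemma h22m_cs {x y p q : ℝ} (h : p ^ 2 + q ^ 2 ≤ 1) : |x * p + y * q| ≤ sqrt (x ^ 2 + y ^ 2) := by
  apply Real.abs_le_sqrt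
  nlinarith [sq_nonneg (x * q - y * p), sq_nonneg x, sq_nonneg y]

private lemma h22m_fhat {φ : ℝ × ℝ → ℝ} (hφ : IsBump φ) (x y : ℝ) : ‖fhat φ x y - 1‖ ≤ 2 * π * sqrt (x ^ 2 + y ^ 2) := by
  have hi : Integrable φ := integrable_of_integral_eq_one hφ.int_one
  have hic : Integrable (fun p : ℝ × ℝ => ((φ p : ℝ) : ℂ)) := hi.ofReal
  have hee : Continuous (fun p : ℝ × ℝ => ee (-(x * p.1 + y * p.2))) := by
    apply ee_cont.comp
    fun_prop
  have hie : Integrable (fun p : ℝ × ℝ => ee (-(x * p.1 + y * p.2)) * (φ p : ℂ)) := by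
    refine hi.mono' ?_ ?_
    · exact (hee.mul (Complex.continuous_ofReal.comp hφ.cont)).aestronglyMeasurable
    · refine Filter.Eventually.of_forall fun p => ?_
      rw [norm_mul, ee_norm, one_mul, Complex.norm_real, Real.norm_of_nonneg (hφ.nonneg p)]
  have h1 : fhat φ x y - 1 = ∫ p : ℝ × ℝ, (ee (-(x * p.1 + y * p.2)) - 1) * (φ p : ℂ) := by
    have h2 : (1 : ℂ) = ∫ p : ℝ × ℝ, ((φ p : ℝ) : ℂ) := by
      rw [integral_complex_ofReal, hφ.int_one, Complex.ofReal_one]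
    rw [fhat]
    conv_lhs => rw [h2]
    rw [← integral_sub hie hic]
    congr 1
    funext p
    ring
  rw [h1]
  refine (norm_integral_le_integral_norm _).trans ?_
  calc ∫ p : ℝ × ℝ, ‖(ee (-(x * p.1 + y * p.2)) - 1) * (φ p : ℂ)‖
      ≤ ∫ p : ℝ × ℝ, (2 * π * sqrt (x ^ 2 + y ^ 2)) * φ p := by
        apply integral_mono_of_nonneg
        · exact Filter.Eventually.of_forall fun p => norm_nonneg _
        · exact hi.const_mul _
        · refine Filter.Eventually.of_forall fun p => ?_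
          show ‖(ee (-(x * p.1 + y * p.2)) - 1) * (φ p : ℂ)‖ ≤ (2 * π * sqrt (x ^ 2 + y ^ 2)) * φ p
          rw [norm_mul, Complex.norm_real, Real.norm_of_nonneg (hφ.nonneg p)]
          by_cases hp : 1 < p.1 ^ 2 + p.2 ^ 2
          · rw [hφ.supp p hp, mul_zero, mul_zero]
          · apply mul_le_mul_of_nonneg_right _ (hφ.nonneg p)
            refine (h22m_ee_one _).trans ?_
            rw [abs_neg]
            exact mul_le_mul_of_nonneg_left (h22m_cs (not_lt.1 hp)) (by positivity)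
    _ = 2 * π * sqrt (x ^ 2 + y ^ 2) := by
        rw [integral_const_mul, hφ.int_one, mul_one]

private lemma h22m_nk (k : ℤ × ℤ) : sqrt ((k.1 : ℝ) ^ 2 + (k.2 : ℝ) ^ 2) = nk k := by
  unfold nk cz
  rw [Complex.norm_def, Complex.normSq_mk]
  congr 1
  ring

private lemma h22m_fhat_k {φ : ℝ × ℝ → ℝ} (hφ : IsBump φ) {δ : ℝ} (hδ : 0 < δ) (k : ℤ × ℤ) :
    ‖fhat φ (δ * k.1) (δ * k.2) - 1‖ ≤ 2 * π * (δ * nk k) := by
  refine (h22m_fhat hφ _ _).trans (le_of_eq ?_)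
  congr 1
  rw [← h22m_nk]
  have : (δ * (k.1 : ℝ)) ^ 2 + (δ * (k.2 : ℝ)) ^ 2 = δ ^ 2 * ((k.1 : ℝ) ^ 2 + (k.2 : ℝ) ^ 2) := by ring
  rw [this, Real.sqrt_mul (by positivity), Real.sqrt_sq hδ.le]

private lemma h22m_pow {R n : ℝ} (hR : 0 < R) (hn : 0 < n) :
    (π * n)⁻¹ * (R / n) ^ (1 / 2 : ℝ) = R ^ (1 / 2 : ℝ) / π * n ^ (-(3 / 2) : ℝ) := by
  have h1 : n ^ (-(3 / 2) : ℝ) = n⁻¹ * (n ^ (1 / 2 : ℝ))⁻¹ := by
    rw [← Real.rpow_neg hn.le, ← Real.rpow_neg_one n, ← Real.rpow_add hn]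
    norm_num
  rw [h1, Real.div_rpow hR.le hn.le]
  have := Real.rpow_pos_of_pos hn (1 / 2)
  field_simp

private lemma h22m_term (W : ℝ → ℝ) (H : ℝ → ℝ) {K R : ℝ} (hR : 0 < R) {k : ℤ × ℤ} (hk : 0 < nk k) :
    (π * nk k)⁻¹ * (Complex.I * mk W H K R k).re = R ^ (1 / 2 : ℝ) / π * (nk k ^ (-(3 / 2) : ℝ) * sqrt (rho H (tk k)) *
      W (nk k * H (tk k) / K) * cos (2 * π * (R * (nk k * H (tk k))) - 3 * π / 4)) := by
  have h1 : (Complex.I * mk W H K R k).re = (R / nk k) ^ (1 / 2 : ℝ) * sqrt (rho H (tk k)) * W (nk k * H (tk k) / K) *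
      cos (2 * π * (R * (nk k * H (tk k))) - 3 * π / 4) := by
    unfold mk
    set x : ℝ := R * (nk k * H (tk k)) with hx
    set c : ℝ := (R / nk k) ^ (1 / 2 : ℝ) * sqrt (rho H (tk k)) * W (nk k * H (tk k) / K) with hc
    have h2 : ee (1 / 8 - x) = ⟨cos (2 * π * (1 / 8 - x)), sin (2 * π * (1 / 8 - x))⟩ := by
      unfold ee
      apply Complex.ext
      · exact Complex.exp_ofReal_mul_I_re _
      · exact Complex.exp_ofReal_mul_I_im _
    rw [h2]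
    have h3 : (Complex.I * ((c : ℂ) * ⟨cos (2 * π * (1 / 8 - x)), sin (2 * π * (1 / 8 - x))⟩)).re =
        -(c * sin (2 * π * (1 / 8 - x))) := by
      simp
    rw [h3]
    have h4 : sin (2 * π * (1 / 8 - x)) = -cos (2 * π * x - 3 * π / 4) := by
      have h5 : 2 * π * (1 / 8 - x) = (3 * π / 4 - 2 * π * x) - π / 2 := by ring
      rw [h5, Real.sin_sub_pi_div_two, ← Real.cos_neg]
      congr 2
      ring
    rw [h4]
    ring
  rw [h1]
  have h2 := h22m_pow hR hk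
  calc (π * nk k)⁻¹ * ((R / nk k) ^ (1 / 2 : ℝ) * sqrt (rho H (tk k)) * W (nk k * H (tk k) / K) *
      cos (2 * π * (R * (nk k * H (tk k))) - 3 * π / 4)) =
      ((π * nk k)⁻¹ * (R / nk k) ^ (1 / 2 : ℝ)) * (sqrt (rho H (tk k)) * W (nk k * H (tk k) / K) *
      cos (2 * π * (R * (nk k * H (tk k))) - 3 * π / 4)) := by ring
    _ = _ := by
      rw [h2]
      ring

private lemma h22m_in {w W : ℝ → ℝ} (hw : IsKer w W) {H : ℝ → ℝ} {φ : ℝ × ℝ → ℝ} (hφ : IsBump φ)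
    {B : ℝ} (hB : 0 < B) (hBr : ∀ θ, rho H θ ≤ B) {R K s δ η : ℝ} (hR : 0 < R) (hδ : 0 < δ) {k : ℤ × ℤ} (hk : 0 < nk k)
    (hkey : ‖Lk W H K R s k - mk W H K R k‖ ≤ η / 2 * (R / nk k) ^ (1 / 2 : ℝ))
    (hδk : sqrt B * (2 * π * (δ * nk k)) ≤ η / 2) :
    |tr φ δ k (Lk W H K R s k) - (π * nk k)⁻¹ * (Complex.I * mk W H K R k).re| ≤
      η * R ^ (1 / 2 : ℝ) * nk k ^ (-(3 / 2) : ℝ) := by
  have hS : 0 ≤ (R / nk k) ^ (1 / 2 : ℝ) := by positivity
  have h0 : 0 ≤ (π * nk k)⁻¹ := by positivity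
  have hmk : ‖mk W H K R k‖ ≤ (R / nk k) ^ (1 / 2 : ℝ) * sqrt B := by
    unfold mk
    rw [norm_mul, ee_norm, mul_one, Complex.norm_real, Real.norm_eq_abs, abs_mul, abs_mul, abs_of_nonneg hS,
      abs_of_nonneg (Real.sqrt_nonneg _)]
    calc (R / nk k) ^ (1 / 2 : ℝ) * sqrt (rho H (tk k)) * |W (nk k * H (tk k) / K)|
        ≤ (R / nk k) ^ (1 / 2 : ℝ) * sqrt (rho H (tk k)) * 1 :=
          mul_le_mul_of_nonneg_left (W_le_one hw _) (by positivity)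
      _ ≤ (R / nk k) ^ (1 / 2 : ℝ) * sqrt B := by
          rw [mul_one]
          exact mul_le_mul_of_nonneg_left (Real.sqrt_le_sqrt (hBr _)) hS
  set F : ℂ := fhat φ (δ * k.1) (δ * k.2) with hF
  have hF1 : ‖F‖ ≤ 1 := fhat_le_one hφ _ _
  have hF2 : ‖F - 1‖ ≤ 2 * π * (δ * nk k) := h22m_fhat_k hφ hδ k
  have h1 : tr φ δ k (Lk W H K R s k) - (π * nk k)⁻¹ * (Complex.I * mk W H K R k).re =
      (π * nk k)⁻¹ * (Complex.I * (Lk W H K R s k * F - mk W H K R k)).re := by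
    unfold tr
    rw [← hF, ← mul_sub, ← Complex.sub_re]
    congr 2
    ring
  rw [h1, abs_mul, abs_of_nonneg h0]
  have h2 : |(Complex.I * (Lk W H K R s k * F - mk W H K R k)).re| ≤ η * (R / nk k) ^ (1 / 2 : ℝ) := by
    refine (Complex.abs_re_le_norm _).trans ?_
    rw [norm_mul, Complex.norm_I, one_mul]
    have h3 : Lk W H K R s k * F - mk W H K R k = (Lk W H K R s k - mk W H K R k) * F + mk W H K R k * (F - 1) := by ring
    rw [h3]
    refine (norm_add_le _ _).trans ?_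
    rw [norm_mul, norm_mul]
    have h4 : ‖Lk W H K R s k - mk W H K R k‖ * ‖F‖ ≤ η / 2 * (R / nk k) ^ (1 / 2 : ℝ) := by
      calc ‖Lk W H K R s k - mk W H K R k‖ * ‖F‖ ≤ ‖Lk W H K R s k - mk W H K R k‖ * 1 :=
            mul_le_mul_of_nonneg_left hF1 (norm_nonneg _)
        _ ≤ _ := by rw [mul_one]; exact hkey
    have h5 : ‖mk W H K R k‖ * ‖F - 1‖ ≤ η / 2 * (R / nk k) ^ (1 / 2 : ℝ) := by
      calc ‖mk W H K R k‖ * ‖F - 1‖ ≤ ((R / nk k) ^ (1 / 2 : ℝ) * sqrt B) * (2 * π * (δ * nk k)) :=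
            mul_le_mul hmk hF2 (norm_nonneg _) (by positivity)
        _ = (sqrt B * (2 * π * (δ * nk k))) * (R / nk k) ^ (1 / 2 : ℝ) := by ring
        _ ≤ _ := mul_le_mul_of_nonneg_right hδk hS
    linarith
  have hη : 0 ≤ η := by
    have : 0 ≤ sqrt B * (2 * π * (δ * nk k)) := by positivity
    linarith
  calc (π * nk k)⁻¹ * |(Complex.I * (Lk W H K R s k * F - mk W H K R k)).re|
      ≤ (π * nk k)⁻¹ * (η * (R / nk k) ^ (1 / 2 : ℝ)) := mul_le_mul_of_nonneg_left h2 h0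
    _ = η * ((π * nk k)⁻¹ * (R / nk k) ^ (1 / 2 : ℝ)) := by ring
    _ = η * (R ^ (1 / 2 : ℝ) / π * nk k ^ (-(3 / 2) : ℝ)) := by rw [h22m_pow hR hk]
    _ ≤ η * R ^ (1 / 2 : ℝ) * nk k ^ (-(3 / 2) : ℝ) := by
        rw [mul_assoc]
        apply mul_le_mul_of_nonneg_left _ hη
        apply mul_le_mul_of_nonneg_right _ (by positivity)
        apply div_le_self (by positivity)
        linarith [Real.pi_gt_three]

open Classical in
private lemma h22m_sum {W : ℝ → ℝ} {H : ℝ → ℝ} {φ : ℝ × ℝ → ℝ} {R K M s δ η C1 C2 C3 : ℝ} (hR : 0 < R)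
    (hC1 : 0 ≤ C1)
    (hsum : Summable (fun k : ℤ × ℤ => (nk k)⁻¹ * ‖fhat φ (δ * k.1) (δ * k.2)‖))
    (hle : ∑' k : ℤ × ℤ, (nk k)⁻¹ * ‖fhat φ (δ * k.1) (δ * k.2)‖ ≤ C2)
    (hL : ∀ k : ℤ × ℤ, ‖Lk W H K R s k‖ ≤ C3)
    (hout : ∀ k : ℤ × ℤ, M < nk k → ‖Lk W H K R s k‖ ≤ C1)
    (hin : ∀ k ∈ kset M, |tr φ δ k (Lk W H K R s k) - (π * nk k)⁻¹ * (Complex.I * mk W H K R k).re| ≤
      η * R ^ (1 / 2 : ℝ) * nk k ^ (-(3 / 2) : ℝ)) :
    |∑' k : ℤ × ℤ, tr φ δ k (Lk W H K R s k) - mainT W H M K R| ≤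
      C1 * C2 + η * R ^ (1 / 2 : ℝ) * ∑ k ∈ kset M, nk k ^ (-(3 / 2) : ℝ) := by
  set f : ℤ × ℤ → ℝ := fun k => tr φ δ k (Lk W H K R s k) with hf
  set m : ℤ × ℤ → ℝ := fun k => if k ∈ kset M then (π * nk k)⁻¹ * (Complex.I * mk W H K R k).re else 0 with hm
  have hfs : Summable f := by
    refine Summable.of_norm_bounded (hsum.mul_left C3) fun k => ?_
    rw [Real.norm_eq_abs]
    refine (tr_le φ δ k _).trans ?_
    rw [mul_comm C3]
    exact mul_le_mul_of_nonneg_left (hL k) (mul_nonneg (inv_nonneg.2 (norm_nonneg _)) (norm_nonneg _))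
  have hms : Summable m := summable_of_ne_finset_zero (s := kset M) fun k hk => by simp [hm, hk]
  have hmsum : ∑' k, m k = mainT W H M K R := by
    rw [tsum_eq_sum (s := kset M) fun k hk => by simp [hm, hk], mainT, Finset.mul_sum]
    refine Finset.sum_congr rfl fun k hk => ?_
    have hk0 : 0 < nk k := lt_of_lt_of_le one_pos (nk_ge_one (mem_kset.1 hk).1)
    simp only [hm, hk, if_true]
    rw [h22m_term W H hR hk0]
  set g : ℤ × ℤ → ℝ := fun k => C1 * ((nk k)⁻¹ * ‖fhat φ (δ * k.1) (δ * k.2)‖) +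
    (if k ∈ kset M then η * R ^ (1 / 2 : ℝ) * nk k ^ (-(3 / 2) : ℝ) else 0) with hg
  have hgs2 : Summable (fun k : ℤ × ℤ => if k ∈ kset M then η * R ^ (1 / 2 : ℝ) * nk k ^ (-(3 / 2) : ℝ) else 0) :=
    summable_of_ne_finset_zero (s := kset M) fun k hk => by simp [hk]
  have hgs : Summable g := (hsum.mul_left C1).add hgs2
  have hb : ∀ k, ‖f k - m k‖ ≤ g k := by
    intro k
    rw [Real.norm_eq_abs]
    by_cases hk : k ∈ kset M
    · simp only [hf, hm, hg, hk, if_true]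
      have h1 : 0 ≤ C1 * ((nk k)⁻¹ * ‖fhat φ (δ * k.1) (δ * k.2)‖) :=
        mul_nonneg hC1 (mul_nonneg (inv_nonneg.2 (norm_nonneg _)) (norm_nonneg _))
      linarith [hin k hk]
    · simp only [hf, hm, hg, hk, if_false, sub_zero, add_zero]
      refine (tr_le φ δ k _).trans ?_
      rw [mul_comm C1]
      by_cases hk0 : k = 0
      · have : nk k = 0 := by
          rw [hk0, ← h22m_nk]
          simp
        rw [this]
        simp
      · have hM : M < nk k := by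
          by_contra hcon
          exact hk (mem_kset.2 ⟨hk0, not_lt.1 hcon⟩)
        exact mul_le_mul_of_nonneg_left (hout k hM) (mul_nonneg (inv_nonneg.2 (norm_nonneg _)) (norm_nonneg _))
  have h1 : ∑' k, f k - mainT W H M K R = ∑' k, (f k - m k) := by
    rw [← hmsum, hfs.tsum_sub hms]
  rw [h1]
  have h2 : |∑' k, (f k - m k)| ≤ ∑' k, g k := by
    have h3 : Summable fun k => ‖f k - m k‖ := Summable.of_nonneg_of_le (fun k => norm_nonneg _) hb hgs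
    rw [← Real.norm_eq_abs]
    exact (norm_tsum_le_tsum_norm h3).trans (h3.tsum_le_tsum hb hgs)
  refine h2.trans ?_
  have h3 : ∑' k, g k = C1 * (∑' k : ℤ × ℤ, (nk k)⁻¹ * ‖fhat φ (δ * k.1) (δ * k.2)‖) +
      η * R ^ (1 / 2 : ℝ) * ∑ k ∈ kset M, nk k ^ (-(3 / 2) : ℝ) := by
    have h4 : ∑' k : ℤ × ℤ, (if k ∈ kset M then η * R ^ (1 / 2 : ℝ) * nk k ^ (-(3 / 2) : ℝ) else 0) =
        η * R ^ (1 / 2 : ℝ) * ∑ k ∈ kset M, nk k ^ (-(3 / 2) : ℝ) := by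
      rw [tsum_eq_sum (s := kset M) fun k hk => by simp [hk], Finset.mul_sum]
      exact Finset.sum_congr rfl fun k hk => by simp [hk]
    rw [hg, (hsum.mul_left C1).tsum_add hgs2, tsum_mul_left, h4]
  rw [h3]
  have := mul_le_mul_of_nonneg_left hle hC1
  linarith

theorem main_asymp {w W : ℝ → ℝ} (hw : IsKer w W) {H : ℝ → ℝ} (hH : IsSupp H) {A : ℝ} (hA : 1 ≤ A) (hA2 : ∀ θ, 2 ≤ A * H θ) :
    ∃ C : ℝ, 0 ≤ C ∧ ∀ η : ℝ, 0 < η → ∃ R₁ : ℝ, 2 ≤ R₁ ∧ ∀ R K : ℝ, R₁ ≤ R → 1 ≤ K → K ≤ log R →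
      |Av w H K R - mainT W H (A * K) K R| ≤ (η * K ^ (1 / 2 : ℝ) + C) * R ^ (1 / 2 : ℝ) := by
  obtain ⟨φ, hφ⟩ := exists_bump
  obtain ⟨B, hB, hBr⟩ := h22m_rho_bdd hH
  obtain ⟨Ca, Ra, hCa, hRa, hAv⟩ := Av_bounds hw hH hφ
  obtain ⟨Cs, hCs, hfs⟩ := fhat_sum hφ
  obtain ⟨Cl, hCl, hlg⟩ := large hw hH hA hA2
  obtain ⟨Cb, hCb, hLb⟩ := Lk_bound hw hH
  obtain ⟨Cu, hCu, hup⟩ := lat_upper
  refine ⟨Ca + Cl * Cs, by positivity, fun η hη => ?_⟩
  set η' : ℝ := η / (Cu * A ^ (1 / 2 : ℝ) + 1) with hη'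
  have hden : 0 < Cu * A ^ (1 / 2 : ℝ) + 1 := by positivity
  have hη'0 : 0 < η' := by positivity
  obtain ⟨Rk, hRk, hkey⟩ := key hw hH (η := η' / 2) (by positivity)
  have e1 : ∀ᶠ R : ℝ in atTop, A * log R ≤ R ^ (1 / 4 : ℝ) := by
    have h1 := (isLittleO_log_rpow_atTop (show (0 : ℝ) < 1 / 4 by norm_num)).def
      (show (0 : ℝ) < A⁻¹ by positivity)
    filter_upwards [h1, eventually_ge_atTop (1 : ℝ)] with R h2 h3
    have h4 : 0 ≤ log R := Real.log_nonneg h3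
    rw [Real.norm_of_nonneg h4, Real.norm_of_nonneg (by positivity)] at h2
    calc A * log R ≤ A * (A⁻¹ * R ^ (1 / 4 : ℝ)) := mul_le_mul_of_nonneg_left h2 (by linarith)
      _ = R ^ (1 / 4 : ℝ) := by field_simp
  have e2 : ∀ᶠ R : ℝ in atTop, sqrt B * (2 * π * R ^ (-(1 / 4) : ℝ)) ≤ η' / 2 := by
    have h1 := (tendsto_rpow_neg_atTop (show (0 : ℝ) < 1 / 4 by norm_num)).const_mul (sqrt B * (2 * π))
    rw [mul_zero] at h1
    have h2 := h1.eventually (gt_mem_nhds (show (0 : ℝ) < η' / 2 by positivity))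
    filter_upwards [h2] with R h3
    calc sqrt B * (2 * π * R ^ (-(1 / 4) : ℝ)) = sqrt B * (2 * π) * R ^ (-(1 / 4) : ℝ) := by ring
      _ ≤ η' / 2 := h3.le
  obtain ⟨R₂, hR₂⟩ := eventually_atTop.1 (e1.and e2)
  refine ⟨max (max 2 R₂) (max Ra Rk), (le_max_left _ _).trans (le_max_left _ _), ?_⟩
  intro R K hR hK hKR
  have hR2 : 2 ≤ R := ((le_max_left _ _).trans (le_max_left _ _)).trans hR
  have hRR2 : R₂ ≤ R := ((le_max_right _ _).trans (le_max_left _ _)).trans hR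
  have hRRa : Ra ≤ R := ((le_max_left _ _).trans (le_max_right _ _)).trans hR
  have hRRk : Rk ≤ R := ((le_max_right _ _).trans (le_max_right _ _)).trans hR
  obtain ⟨g1, g2⟩ := hR₂ R hRR2
  have hR0 : 0 < R := by linarith
  have hR1 : 1 ≤ R := by linarith
  set δ : ℝ := R ^ (-(1 / 2) : ℝ) with hδ
  have hδ0 : 0 < δ := Real.rpow_pos_of_pos hR0 _
  have hδ1 : δ ≤ 1 := Real.rpow_le_one_of_one_le_of_nonpos hR1 (by norm_num)
  have hδinv : 1 / δ = R ^ (1 / 2 : ℝ) := by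
    rw [hδ, Real.rpow_neg hR0.le, one_div, inv_inv]
  obtain ⟨s1, s2⟩ := hfs δ hδ0 hδ1
  have hAK : 1 ≤ A * K := by nlinarith
  have hclaim : ∀ s : ℝ, |s| ≤ δ → |∑' k : ℤ × ℤ, tr φ δ k (Lk W H K R s k) - mainT W H (A * K) K R| ≤
      (η * K ^ (1 / 2 : ℝ) + Cl * Cs) * R ^ (1 / 2 : ℝ) := by
    intro s hs
    have hs1 : |s| ≤ 1 := hs.trans hδ1
    have h := h22m_sum (W := W) (H := H) (φ := φ) (M := A * K) (δ := δ) (s := s) (K := K) (η := η') (C3 := Cb * R) hR0 hCl s1 s2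
      (fun k => hLb R K s hR1 hK hs1 k) (fun k hk => hlg R K s hR1 hK hs1 k hk) (by
        intro k hk
        obtain ⟨hk0, hkM⟩ := mem_kset.1 hk
        have hnk : 0 < nk k := lt_of_lt_of_le one_pos (nk_ge_one hk0)
        have hk4 : nk k ≤ R ^ (1 / 4 : ℝ) := by
          refine hkM.trans (le_trans ?_ g1)
          exact mul_le_mul_of_nonneg_left hKR (by linarith)
        refine h22m_in hw hφ hB hBr hR0 hδ0 hnk (hkey R K s hRRk hK hs k hk0 hk4) ?_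
        refine le_trans ?_ g2
        apply mul_le_mul_of_nonneg_left _ (Real.sqrt_nonneg _)
        apply mul_le_mul_of_nonneg_left _ (by positivity)
        calc δ * nk k ≤ δ * R ^ (1 / 4 : ℝ) := mul_le_mul_of_nonneg_left hk4 hδ0.le
          _ = R ^ (-(1 / 4) : ℝ) := by
            rw [hδ, ← Real.rpow_add hR0]
            norm_num)
    refine h.trans ?_
    have h5 : ∑ k ∈ kset (A * K), nk k ^ (-(3 / 2) : ℝ) ≤ Cu * (A ^ (1 / 2 : ℝ) * K ^ (1 / 2 : ℝ)) := by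
      refine (hup (A * K) hAK).trans (le_of_eq ?_)
      rw [Real.mul_rpow (by linarith) (by linarith)]
    have h6 : η' * R ^ (1 / 2 : ℝ) * ∑ k ∈ kset (A * K), nk k ^ (-(3 / 2) : ℝ) ≤ η * K ^ (1 / 2 : ℝ) * R ^ (1 / 2 : ℝ) := by
      calc η' * R ^ (1 / 2 : ℝ) * ∑ k ∈ kset (A * K), nk k ^ (-(3 / 2) : ℝ)
          ≤ η' * R ^ (1 / 2 : ℝ) * (Cu * (A ^ (1 / 2 : ℝ) * K ^ (1 / 2 : ℝ))) :=
            mul_le_mul_of_nonneg_left h5 (by positivity)
        _ = (η' * (Cu * A ^ (1 / 2 : ℝ))) * (K ^ (1 / 2 : ℝ) * R ^ (1 / 2 : ℝ)) := by ring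
        _ ≤ η * (K ^ (1 / 2 : ℝ) * R ^ (1 / 2 : ℝ)) := by
            apply mul_le_mul_of_nonneg_right _ (by positivity)
            rw [hη', div_mul_eq_mul_div, div_le_iff₀ hden]
            apply mul_le_mul_of_nonneg_left _ hη.le
            linarith
        _ = _ := by ring
    have h7 : Cl * (Cs / δ) = Cl * Cs * R ^ (1 / 2 : ℝ) := by
      rw [← hδinv]
      ring
    rw [h7]
    linarith
  obtain ⟨a1, a2⟩ := hAv R K hRRa hK
  have c1 := hclaim δ (by rw [abs_of_pos hδ0])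
  have c2 := hclaim (-δ) (by rw [abs_neg, abs_of_pos hδ0])
  rw [abs_le] at c1 c2 ⊢
  have e3 : (η * K ^ (1 / 2 : ℝ) + (Ca + Cl * Cs)) * R ^ (1 / 2 : ℝ) =
      (η * K ^ (1 / 2 : ℝ) + Cl * Cs) * R ^ (1 / 2 : ℝ) + Ca * R ^ (1 / 2 : ℝ) := by ring
  rw [e3]
  constructor
  · linarith [c2.1]
  · linarith [c1.2]

end Pool.Agent.Helper92.EO
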