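import Pool.Agent.Helper92.EO.Kb
import Pool.Agent.Helper22.AE.C3
import Pool.Agent.Helper22.AE.G6

/-!
# EO-O8: the average of one frequency

PROOF. By `rho_affine` (AE/G6) and `gph_affine` (AE/C3), for `r > 0`
`qw w K R r * hk (r H + s) k = ∫_α K w(K(r-R)) cos α (R rho H + s R / r) e(-(nk k (r gph H k α + s cos α))) dα`.
Exchange the integrals over `r ∈ [R/2, 3R/2]` and `α` (continuous functions on a rectangle; e.g. `intervalIntegral.integral_integral_swap` or
`MeasureTheory.integral_integral_swap` on `Ioc`).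
(1) the part with `s R / r`, `R / r ≤ 2`: at most `π · 2|s| · ∫ K w(K(r - R)) ≤ 2π|s|`; the same for the part with `s` in `Li` (`|W| ≤ 1`).
(2) the part with `R rho H`: `∫_{r ∈ ℝ} K w(K(r-R)) e(-(nk k gph) r) dr = W(nk k gph / K) e(-(nk k gph) R)` (`w_scale`), and the part of the integral outside
`[R/2, 3R/2]` is at most `C R^(-3)` (`w_tail`); so the difference is at most `π · B · R · C R^(-3)` (`|rho H| ≤ B`).
-/

open MeasureTheory Real Set Filter Topology

set_option autoImplicit false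

namespace Pool.Agent.Helper92.EO

open Pool.Agent.Helper22.AE

private lemma a61_rho_cont {H : ℝ → ℝ} (hH : ContDiff ℝ 2 H) : Continuous (rho H) := by
  have h1 : ContDiff ℝ 1 (deriv H) := by
    have h := (contDiff_succ_iff_deriv (n := 1) (f := H)).1 (by
      rw [one_add_one_eq_two]; exact hH)
    exact h.2.2
  have h2 : Continuous (deriv (deriv H)) := h1.continuous_deriv (le_refl _)
  exact hH.continuous.add h2

private lemma a61_gph_cont {H : ℝ → ℝ} (hH : ContDiff ℝ 2 H) (k : ℤ × ℤ) : Continuous (gph H k) := by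
  have h1 : ContDiff ℝ 1 (deriv H) := by
    have h := (contDiff_succ_iff_deriv (n := 1) (f := H)).1 (by
      rw [one_add_one_eq_two]; exact hH)
    exact h.2.2
  have h2 : Continuous H := hH.continuous
  have h3 : Continuous (deriv H) := h1.continuous
  unfold gph
  have h4 : Continuous fun α => H (tk k + α) := h2.comp (by fun_prop)
  have h5 : Continuous fun α => deriv H (tk k + α) := h3.comp (by fun_prop)
  exact (h4.mul continuous_cos).sub (h5.mul continuous_sin)

private lemma a61_point {w W : ℝ → ℝ} (hw : IsKer w W) {Ct K R s ρ g c ν : ℝ} (hK : 1 ≤ K) (hR : 1 ≤ R)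
    (htail : ∫ r in (Ioc (R / 2) (3 * R / 2))ᶜ, K * w (K * (r - R)) ≤ Ct * R ^ (-3 : ℝ)) (hc : |c| ≤ 1) :
    ‖(∫ r in (R / 2)..(3 * R / 2), ((qw w K R r : ℝ) : ℂ) *
        (((c * (r * ρ + s) : ℝ) : ℂ) * ee (-(ν * (r * g + s * c))))) -
      ((c * (R * ρ + s) * W (ν * g / K) : ℝ) : ℂ) * ee (-(ν * (R * g + s * c)))‖ ≤
      3 * |s| + |ρ| * Ct * R ^ (-2 : ℝ) := by
  have hK0 : 0 < K := by linarith
  have hR0 : 0 < R := by linarith
  have hab : R / 2 ≤ 3 * R / 2 := by linarith
  set x : ℝ := ν * g with hx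
  set c1 : ℂ := ((c * R * ρ : ℝ) : ℂ) * ee (-(ν * (s * c))) with hc1
  set c2 : ℂ := ((c * s : ℝ) : ℂ) * ee (-(ν * (s * c))) with hc2
  set A : ℝ → ℂ := fun r => ((K * w (K * (r - R)) : ℝ) : ℂ) * ee (-(x * r)) with hA
  set Bq : ℝ → ℂ := fun r => ((qw w K R r : ℝ) : ℂ) * ee (-(x * r)) with hBq
  have eec : Continuous fun r : ℝ => ee (-(x * r)) := ee_cont.comp (by fun_prop)
  have hwc : Continuous fun r : ℝ => K * w (K * (r - R)) :=
    continuous_const.mul (hw.cont.comp (by fun_prop))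
  have hAc : Continuous A := (Complex.continuous_ofReal.comp hwc).mul eec
  have hBc : ContinuousOn Bq (Icc (R / 2) (3 * R / 2)) :=
    (Complex.continuous_ofReal.comp_continuousOn (qw_cont hw hK0 hR0)).mul eec.continuousOn
  have hAi : IntervalIntegrable A volume (R / 2) (3 * R / 2) := hAc.intervalIntegrable _ _
  have hBi : IntervalIntegrable Bq volume (R / 2) (3 * R / 2) := by
    refine ContinuousOn.intervalIntegrable ?_
    rw [uIcc_of_le hab]
    exact hBc
  have e1 : ∫ r in (R / 2)..(3 * R / 2), ((qw w K R r : ℝ) : ℂ) *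
        (((c * (r * ρ + s) : ℝ) : ℂ) * ee (-(ν * (r * g + s * c)))) =
      c1 * (∫ r in (R / 2)..(3 * R / 2), A r) + c2 * ∫ r in (R / 2)..(3 * R / 2), Bq r := by
    rw [← intervalIntegral.integral_const_mul, ← intervalIntegral.integral_const_mul,
      ← intervalIntegral.integral_add (hAi.const_mul c1) (hBi.const_mul c2)]
    refine intervalIntegral.integral_congr fun r hr => ?_
    rw [uIcc_of_le hab] at hr
    have hr0 : r ≠ 0 := by have := hr.1; intro h; linarith
    have h1 : ee (-(ν * (r * g + s * c))) = ee (-(x * r)) * ee (-(ν * (s * c))) := by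
      rw [← ee_add]; congr 1; rw [hx]; ring
    have h2 : qw w K R r * (c * (r * ρ + s)) = c * R * ρ * (K * w (K * (r - R))) + c * s * qw w K R r := by
      unfold qw
      field_simp
    simp only [hA, hBq, hc1, hc2]
    rw [h1]
    have h3 : ((qw w K R r : ℝ) : ℂ) * ((c * (r * ρ + s) : ℝ) : ℂ) =
        ((c * R * ρ : ℝ) : ℂ) * ((K * w (K * (r - R)) : ℝ) : ℂ) + ((c * s : ℝ) : ℂ) * ((qw w K R r : ℝ) : ℂ) := by
      rw [← Complex.ofReal_mul, ← Complex.ofReal_mul, ← Complex.ofReal_mul, ← Complex.ofReal_add, h2]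
    linear_combination (ee (-(x * r)) * ee (-(ν * (s * c)))) * h3
  set V : ℂ := ((W (x / K) : ℝ) : ℂ) * ee (-(x * R)) with hV
  have e2 : ((c * (R * ρ + s) * W (x / K) : ℝ) : ℂ) * ee (-(ν * (R * g + s * c))) = c1 * V + c2 * V := by
    have h1 : ee (-(ν * (R * g + s * c))) = ee (-(x * R)) * ee (-(ν * (s * c))) := by
      rw [← ee_add]; congr 1; rw [hx]; ring
    rw [h1, hV, hc1, hc2]
    push_cast
    ring
  have hwi : Integrable fun r : ℝ => K * w (K * (r - R)) :=
    (((w_int hw).comp_mul_left' hK0.ne').comp_sub_right R).const_mul K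
  have hAI : Integrable A := by
    refine hwi.ofReal.mul_bdd (c := 1) eec.aestronglyMeasurable ?_
    exact Filter.Eventually.of_forall fun r => (ee_norm _).le
  have hpos : ∀ r, 0 ≤ K * w (K * (r - R)) := fun r => mul_nonneg hK0.le (hw.nonneg _)
  have n1 : ‖(∫ r in (R / 2)..(3 * R / 2), A r) - V‖ ≤ Ct * R ^ (-3 : ℝ) := by
    have h1 := integral_add_compl (measurableSet_Ioc (a := R / 2) (b := 3 * R / 2)) hAI
    have h2 : ∫ r, A r = V := w_scale hw hK0 R x
    rw [intervalIntegral.integral_of_le hab, ← h2, ← h1, sub_add_cancel_left, norm_neg]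
    refine (norm_integral_le_integral_norm _).trans (le_trans (le_of_eq ?_) htail)
    refine integral_congr_ae (Filter.Eventually.of_forall fun r => ?_)
    simp only [hA]
    rw [norm_mul, ee_norm, mul_one, Complex.norm_real, Real.norm_eq_abs, abs_of_nonneg (hpos r)]
  have n2 : ‖∫ r in (R / 2)..(3 * R / 2), Bq r‖ ≤ 2 := by
    refine (intervalIntegral.norm_integral_le_integral_norm hab).trans (le_trans (le_of_eq ?_) (qw_int hw hK0 hR0))
    refine intervalIntegral.integral_congr fun r hr => ?_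
    rw [uIcc_of_le hab] at hr
    simp only [hBq]
    rw [norm_mul, ee_norm, mul_one, Complex.norm_real, Real.norm_eq_abs, abs_of_nonneg (qw_nonneg hw hK0 hR0 hr)]
  have n3 : ‖V‖ ≤ 1 := by
    rw [hV, norm_mul, ee_norm, mul_one, Complex.norm_real, Real.norm_eq_abs]
    exact W_le_one hw _
  have n4 : ‖c1‖ ≤ R * |ρ| := by
    rw [hc1, norm_mul, ee_norm, mul_one, Complex.norm_real, Real.norm_eq_abs, abs_mul, abs_mul, abs_of_pos hR0]
    have h1 : 0 ≤ R * |ρ| := by positivity
    nlinarith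
  have n5 : ‖c2‖ ≤ |s| := by
    rw [hc2, norm_mul, ee_norm, mul_one, Complex.norm_real, Real.norm_eq_abs, abs_mul]
    have h1 : 0 ≤ |s| := abs_nonneg s
    nlinarith
  rw [e1, e2]
  have e3 : c1 * (∫ r in (R / 2)..(3 * R / 2), A r) + c2 * (∫ r in (R / 2)..(3 * R / 2), Bq r) - (c1 * V + c2 * V) =
      c1 * ((∫ r in (R / 2)..(3 * R / 2), A r) - V) + c2 * ((∫ r in (R / 2)..(3 * R / 2), Bq r) - V) := by ring
  rw [e3]
  refine (norm_add_le _ _).trans ?_
  rw [norm_mul c1, norm_mul c2]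
  have n6 : ‖(∫ r in (R / 2)..(3 * R / 2), Bq r) - V‖ ≤ 3 := (norm_sub_le _ _).trans (by linarith)
  have n7 : ‖c1‖ * ‖(∫ r in (R / 2)..(3 * R / 2), A r) - V‖ ≤ (R * |ρ|) * (Ct * R ^ (-3 : ℝ)) :=
    mul_le_mul n4 n1 (norm_nonneg _) (by positivity)
  have n8 : ‖c2‖ * ‖(∫ r in (R / 2)..(3 * R / 2), Bq r) - V‖ ≤ |s| * 3 :=
    mul_le_mul n5 n6 (norm_nonneg _) (abs_nonneg s)
  have n9 : R * R ^ (-3 : ℝ) = R ^ (-2 : ℝ) := by
    nth_rewrite 1 [← Real.rpow_one R]
    rw [← Real.rpow_add hR0]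
    norm_num
  calc ‖c1‖ * ‖(∫ r in (R / 2)..(3 * R / 2), A r) - V‖ + ‖c2‖ * ‖(∫ r in (R / 2)..(3 * R / 2), Bq r) - V‖
      ≤ (R * |ρ|) * (Ct * R ^ (-3 : ℝ)) + |s| * 3 := add_le_add n7 n8
    _ = 3 * |s| + |ρ| * Ct * (R * R ^ (-3 : ℝ)) := by ring
    _ = 3 * |s| + |ρ| * Ct * R ^ (-2 : ℝ) := by rw [n9]

theorem avg_one {w W : ℝ → ℝ} (hw : IsKer w W) {H : ℝ → ℝ} (hH : IsSupp H) :
    ∃ C : ℝ, 0 ≤ C ∧ ∀ R K s : ℝ, 1 ≤ R → 1 ≤ K → |s| ≤ 1 → ∀ k : ℤ × ℤ,
      ‖(∫ r in (R / 2)..(3 * R / 2), ((qw w K R r : ℝ) : ℂ) * hk (fun θ => r * H θ + s) k) - Lk W H K R s k‖ ≤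
        C * (|s| + R ^ (-2 : ℝ)) := by
  obtain ⟨Ct, hCt, htail⟩ := w_tail hw
  have hrc := a61_rho_cont hH.smooth
  have hπ := Real.pi_pos
  obtain ⟨B, hB⟩ := (isCompact_Icc (a := -(3 * π / 2)) (b := 3 * π / 2)).exists_bound_of_continuousOn
    hrc.continuousOn
  have hB0 : 0 ≤ B := (norm_nonneg _).trans (hB 0 ⟨by linarith, by linarith⟩)
  refine ⟨π * (3 + B * Ct), by positivity, ?_⟩
  intro R K s hR hK hs k
  have hK0 : 0 < K := by linarith
  have hR0 : 0 < R := by linarith
  have hab : R / 2 ≤ 3 * R / 2 := by linarith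
  have hcd : -(π / 2) ≤ π / 2 := by linarith
  have hgc := a61_gph_cont hH.smooth k
  have hrk : Continuous fun α => rho H (tk k + α) := hrc.comp (by fun_prop)
  set F : ℝ → ℝ → ℂ := fun r α => ((qw w K R r : ℝ) : ℂ) *
    (((cos α * (r * rho H (tk k + α) + s) : ℝ) : ℂ) * ee (-(nk k * (r * gph H k α + s * cos α)))) with hF
  have e1 : ∫ r in (R / 2)..(3 * R / 2), ((qw w K R r : ℝ) : ℂ) * hk (fun θ => r * H θ + s) k =
      ∫ r in (R / 2)..(3 * R / 2), ∫ α in (-(π / 2))..(π / 2), F r α := by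
    refine intervalIntegral.integral_congr fun r _ => ?_
    simp only [hF, hk]
    rw [intervalIntegral.integral_const_mul]
    congr 1
    refine intervalIntegral.integral_congr fun α _ => ?_
    rw [rho_affine hH.smooth, gph_affine hH.smooth]
  have hFc : ContinuousOn F.uncurry (Icc (R / 2) (3 * R / 2) ×ˢ Icc (-(π / 2)) (π / 2)) := by
    have h1 : ContinuousOn (fun z : ℝ × ℝ => ((qw w K R z.1 : ℝ) : ℂ))
        (Icc (R / 2) (3 * R / 2) ×ˢ Icc (-(π / 2)) (π / 2)) :=
      Complex.continuous_ofReal.comp_continuousOn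
        ((qw_cont hw hK0 hR0).comp continuousOn_fst (fun z hz => hz.1))
    have h2 : Continuous fun z : ℝ × ℝ => ((cos z.2 * (z.1 * rho H (tk k + z.2) + s) : ℝ) : ℂ) := by
      refine Complex.continuous_ofReal.comp ?_
      exact (continuous_cos.comp continuous_snd).mul
        ((continuous_fst.mul (hrk.comp continuous_snd)).add continuous_const)
    have h3 : Continuous fun z : ℝ × ℝ => ee (-(nk k * (z.1 * gph H k z.2 + s * cos z.2))) := by
      refine ee_cont.comp ?_
      exact (continuous_const.mul ((continuous_fst.mul (hgc.comp continuous_snd)).add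
        (continuous_const.mul (continuous_cos.comp continuous_snd)))).neg
    exact h1.mul (h2.mul h3).continuousOn
  have hFi : IntegrableOn F.uncurry (uIoc (R / 2) (3 * R / 2) ×ˢ uIoc (-(π / 2)) (π / 2)) := by
    rw [uIoc_of_le hab, uIoc_of_le hcd]
    exact (hFc.integrableOn_compact (isCompact_Icc.prod isCompact_Icc)).mono_set
      (Set.prod_mono Ioc_subset_Icc_self Ioc_subset_Icc_self)
  have hI1 : IntervalIntegrable (fun α => ∫ r in (R / 2)..(3 * R / 2), F r α) volume (-(π / 2)) (π / 2) := by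
    rw [intervalIntegrable_iff, uIoc_of_le hcd]
    have h1 : Integrable F.uncurry ((volume.restrict (Ioc (R / 2) (3 * R / 2))).prod
        (volume.restrict (Ioc (-(π / 2)) (π / 2)))) := by
      rw [Measure.prod_restrict, ← Measure.volume_eq_prod]
      rw [uIoc_of_le hab, uIoc_of_le hcd] at hFi
      exact hFi
    have h2 := h1.integral_prod_right
    refine h2.congr (Filter.Eventually.of_forall fun α => ?_)
    simp only [intervalIntegral.integral_of_le hab]
    rfl
  have hI2 : IntervalIntegrable (Li W H K R s k) volume (-(π / 2)) (π / 2) := by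
    refine Continuous.intervalIntegrable ?_ _ _
    unfold Li
    refine (Complex.continuous_ofReal.comp ?_).mul (ee_cont.comp ?_)
    · exact (continuous_cos.mul ((continuous_const.mul hrk).add continuous_const)).mul
        (hw.smooth.continuous.comp ((continuous_const.mul hgc).div_const _))
    · exact (continuous_const.mul ((continuous_const.mul hgc).add (continuous_const.mul continuous_cos))).neg
  rw [e1, intervalIntegral_intervalIntegral_swap hFi]
  unfold Lk
  rw [← intervalIntegral.integral_sub hI1 hI2]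
  have hR2 : 0 ≤ R ^ (-2 : ℝ) := Real.rpow_nonneg hR0.le _
  have key : ∀ α ∈ uIoc (-(π / 2)) (π / 2),
      ‖(∫ r in (R / 2)..(3 * R / 2), F r α) - Li W H K R s k α‖ ≤ 3 * |s| + B * Ct * R ^ (-2 : ℝ) := by
    intro α hα
    rw [uIoc_of_le hcd] at hα
    have h1 := a61_point hw (s := s) (ρ := rho H (tk k + α)) (g := gph H k α) (c := cos α) (ν := nk k) hK hR
      (htail K R hK hR) (Real.abs_cos_le_one α)
    have h2 : |rho H (tk k + α)| ≤ B := by
      have h3 := hB (tk k + α) ?_
      · exact h3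
      · have h4 := Complex.neg_pi_lt_arg (cz k)
        have h5 := Complex.arg_le_pi (cz k)
        have h6 : tk k = Complex.arg (cz k) := rfl
        rw [← h6] at h4 h5
        exact ⟨by linarith [hα.1], by linarith [hα.2]⟩
    refine h1.trans ?_
    have h3 : |rho H (tk k + α)| * Ct * R ^ (-2 : ℝ) ≤ B * Ct * R ^ (-2 : ℝ) :=
      mul_le_mul_of_nonneg_right (mul_le_mul_of_nonneg_right h2 hCt) hR2
    linarith
  refine (intervalIntegral.norm_integral_le_of_norm_le_const key).trans ?_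
  have h1 : |π / 2 - -(π / 2)| = π := by
    rw [abs_of_nonneg (by linarith)]; ring
  rw [h1]
  have h2 : 0 ≤ |s| := abs_nonneg s
  have h3 : 0 ≤ B * Ct := by positivity
  nlinarith [mul_nonneg h3 h2, mul_nonneg hπ.le (mul_nonneg h3 h2), mul_nonneg hπ.le hR2]

end Pool.Agent.Helper92.EO
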