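import Pool.Agent.Helper92.EO.OBase

/-!
# EO-O13: the Fresnel integral

PROOF. For `ε > 0` and `b = ε - iπ`: `∫_ℝ exp(-b x²) dx = (π / b)^(1/2)` (Mathlib `integral_gaussian_complex`). Tail: `|∫_Y^∞ exp(-b x²) dx| ≤ C / Y` uniformly in
`ε ∈ (0, 1]` (integrate by parts: `exp(-b x²) = (-1/(2 b x)) (exp(-b x²))'`, `|b| ≥ π`, both boundary term and the integral of `1/x²` are at most
`1/(2π Y)`). Let `ε → 0`: `∫_{-Y}^{Y}` converges to `∫_{-Y}^{Y} exp(iπx²) dx = ∫_{-Y}^{Y} ee (x²/2)`, and `(π/b)^(1/2) → (1/(-i))^(1/2) = i^(1/2) = exp(iπ/4) = ee (1/8)`.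
Alternatively avoid the limit: Cauchy sequence in `Y` plus Abel summation.
-/

open MeasureTheory Real Set Filter Topology

set_option autoImplicit false

namespace Pool.Agent.Helper92.EO

open Pool.Agent.Helper22.AE

private noncomputable def fr (b : ℂ) (x : ℝ) : ℂ := Complex.exp (-b * (x : ℂ) ^ 2)

private lemma fr_norm {b : ℂ} (hb : 0 ≤ b.re) (x : ℝ) : ‖fr b x‖ ≤ 1 := by
  unfold fr
  rw [Complex.norm_exp, Real.exp_le_one_iff]
  have h1 : (-b * (x : ℂ) ^ 2).re = -(b.re * x ^ 2) := by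
    rw [← Complex.ofReal_pow, Complex.re_mul_ofReal, Complex.neg_re, neg_mul]
  rw [h1, neg_nonpos]
  positivity

private lemma fr_deriv (b : ℂ) (x : ℝ) : HasDerivAt (fr b) (fr b x * (-b * (2 * (x : ℂ)))) x := by
  have h1 : HasDerivAt (fun z : ℂ => Complex.exp (-b * z ^ 2))
      (Complex.exp (-b * (x : ℂ) ^ 2) * (-b * (2 * (x : ℂ)))) (x : ℂ) := by
    have h2 : HasDerivAt (fun z : ℂ => -b * z ^ 2) (-b * (2 * (x : ℂ))) (x : ℂ) := by
      have := (hasDerivAt_pow 2 (x : ℂ)).const_mul (-b)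
      simpa using this
    exact h2.cexp
  exact h1.comp_ofReal

private lemma fr_cont (b : ℂ) : Continuous (fr b) := by
  unfold fr
  fun_prop

private lemma fr_tail {b : ℂ} (hb : 0 ≤ b.re) (hb0 : b ≠ 0) {Y Z : ℝ} (hY : 0 < Y) (hYZ : Y ≤ Z) :
    ‖∫ x in Y..Z, fr b x‖ ≤ 1 / (‖b‖ * Y) := by
  have hZ : 0 < Z := hY.trans_le hYZ
  have hbn : 0 < ‖b‖ := norm_pos_iff.2 hb0
  have hpos : ∀ x ∈ uIcc Y Z, 0 < x := by
    intro x hx
    rw [uIcc_of_le hYZ] at hx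
    exact hY.trans_le hx.1
  -- the primitive of the main part
  have hG : ∀ x ∈ uIcc Y Z, HasDerivAt (fun x : ℝ => fr b x * (2 * b * (x : ℂ))⁻¹)
      (-fr b x - fr b x * (2 * b * (x : ℂ) ^ 2)⁻¹) x := by
    intro x hx
    have hx0 : (x : ℂ) ≠ 0 := by exact_mod_cast (hpos x hx).ne'
    have h1 : HasDerivAt (fun x : ℝ => (2 * b * (x : ℂ))⁻¹)
        (-(2 * b) / (2 * b * (x : ℂ)) ^ 2) x := by
      have h2 : HasDerivAt (fun z : ℂ => (2 * b * z)⁻¹) (-(2 * b) / (2 * b * (x : ℂ)) ^ 2) (x : ℂ) := by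
        have h3 : HasDerivAt (fun z : ℂ => 2 * b * z) (2 * b) (x : ℂ) := by
          simpa using (hasDerivAt_id (x : ℂ)).const_mul (2 * b)
        exact h3.inv (by
          simp only [ne_eq, mul_eq_zero, OfNat.ofNat_ne_zero, false_or]
          tauto)
      exact h2.comp_ofReal
    refine ((fr_deriv b x).mul h1).congr_deriv ?_
    field_simp
    ring
  have hcont : ContinuousOn (fun x : ℝ => fr b x * (2 * b * (x : ℂ) ^ 2)⁻¹) (uIcc Y Z) := by
    refine (fr_cont b).continuousOn.mul (ContinuousOn.inv₀ (by fun_prop) ?_)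
    intro x hx
    have hx0 : (x : ℂ) ≠ 0 := by exact_mod_cast (hpos x hx).ne'
    simp only [ne_eq, mul_eq_zero, OfNat.ofNat_ne_zero, false_or, pow_eq_zero_iff, not_false_eq_true]
    tauto
  have hint : IntervalIntegrable (fun x : ℝ => fr b x * (2 * b * (x : ℂ) ^ 2)⁻¹) volume Y Z :=
    hcont.intervalIntegrable
  have hint0 : IntervalIntegrable (fr b) volume Y Z := (fr_cont b).intervalIntegrable _ _
  have hF := intervalIntegral.integral_eq_sub_of_hasDerivAt hG (hint0.neg.sub hint)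
  have hF' : (∫ x in Y..Z, (-fr b x - fr b x * (2 * b * (x : ℂ) ^ 2)⁻¹)) =
      -(∫ x in Y..Z, fr b x) - ∫ x in Y..Z, fr b x * (2 * b * (x : ℂ) ^ 2)⁻¹ := by
    have hint1 : IntervalIntegrable (fun x => -fr b x) volume Y Z := hint0.neg
    rw [intervalIntegral.integral_sub hint1 hint, intervalIntegral.integral_neg]
  rw [hF'] at hF
  have hmain : (∫ x in Y..Z, fr b x) = fr b Y * (2 * b * (Y : ℂ))⁻¹ - fr b Z * (2 * b * (Z : ℂ))⁻¹ -
      ∫ x in Y..Z, fr b x * (2 * b * (x : ℂ) ^ 2)⁻¹ := by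
    linear_combination -hF
  have hbd : ∀ x : ℝ, 0 < x → ‖fr b x * (2 * b * (x : ℂ))⁻¹‖ ≤ (2 * ‖b‖ * x)⁻¹ := by
    intro x hx
    rw [norm_mul, norm_inv, norm_mul, norm_mul, Complex.norm_real, Real.norm_of_nonneg hx.le,
      Complex.norm_ofNat]
    have : 0 ≤ (2 * ‖b‖ * x)⁻¹ := by positivity
    exact mul_le_of_le_one_left this (fr_norm hb x)
  have hB : ∀ x ∈ uIcc Y Z, HasDerivAt (fun x : ℝ => -(2 * ‖b‖ * x)⁻¹) ((2 * ‖b‖ * x ^ 2)⁻¹) x := by
    intro x hx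
    have hx0 := (hpos x hx).ne'
    have h3 : HasDerivAt (fun z : ℝ => 2 * ‖b‖ * z) (2 * ‖b‖) x := by
      simpa using (hasDerivAt_id x).const_mul (2 * ‖b‖)
    refine (h3.inv (by positivity)).neg.congr_deriv ?_
    field_simp
  have hBint : IntervalIntegrable (fun x : ℝ => (2 * ‖b‖ * x ^ 2)⁻¹) volume Y Z := by
    refine ContinuousOn.intervalIntegrable (ContinuousOn.inv₀ (by fun_prop) ?_)
    intro x hx
    have hx0 := hpos x hx
    positivity
  have hrest : ‖∫ x in Y..Z, fr b x * (2 * b * (x : ℂ) ^ 2)⁻¹‖ ≤ (2 * ‖b‖ * Y)⁻¹ - (2 * ‖b‖ * Z)⁻¹ := by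
    have h1 : ‖∫ x in Y..Z, fr b x * (2 * b * (x : ℂ) ^ 2)⁻¹‖ ≤ ∫ x in Y..Z, (2 * ‖b‖ * x ^ 2)⁻¹ := by
      refine intervalIntegral.norm_integral_le_of_norm_le hYZ ?_ hBint
      refine Filter.Eventually.of_forall fun x hx => ?_
      rw [norm_mul, norm_inv, norm_mul, norm_mul, norm_pow, Complex.norm_real,
        Real.norm_eq_abs, sq_abs, Complex.norm_ofNat]
      have : 0 ≤ (2 * ‖b‖ * x ^ 2)⁻¹ := by positivity
      exact mul_le_of_le_one_left this (fr_norm hb x)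
    have h2 := intervalIntegral.integral_eq_sub_of_hasDerivAt hB hBint
    rw [h2] at h1
    linarith
  rw [hmain]
  have k1 := hbd Y hY
  have k2 := hbd Z hZ
  calc ‖fr b Y * (2 * b * (Y : ℂ))⁻¹ - fr b Z * (2 * b * (Z : ℂ))⁻¹ -
        ∫ x in Y..Z, fr b x * (2 * b * (x : ℂ) ^ 2)⁻¹‖
      ≤ ‖fr b Y * (2 * b * (Y : ℂ))⁻¹ - fr b Z * (2 * b * (Z : ℂ))⁻¹‖ +
        ‖∫ x in Y..Z, fr b x * (2 * b * (x : ℂ) ^ 2)⁻¹‖ := norm_sub_le _ _
    _ ≤ (‖fr b Y * (2 * b * (Y : ℂ))⁻¹‖ + ‖fr b Z * (2 * b * (Z : ℂ))⁻¹‖) +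
        ‖∫ x in Y..Z, fr b x * (2 * b * (x : ℂ) ^ 2)⁻¹‖ := by gcongr; exact norm_sub_le _ _
    _ ≤ ((2 * ‖b‖ * Y)⁻¹ + (2 * ‖b‖ * Z)⁻¹) + ((2 * ‖b‖ * Y)⁻¹ - (2 * ‖b‖ * Z)⁻¹) := by gcongr
    _ = 1 / (‖b‖ * Y) := by field_simp; ring

private lemma fr_even (b : ℂ) (x : ℝ) : fr b (-x) = fr b x := by
  unfold fr
  rw [Complex.ofReal_neg, neg_sq]

private lemma fr_sym (b : ℂ) (Y : ℝ) : ∫ x in (-Y)..Y, fr b x = 2 * ∫ x in (0 : ℝ)..Y, fr b x := by
  have h1 : ∫ x in (-Y)..0, fr b x = ∫ x in (0 : ℝ)..Y, fr b x := by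
    have h2 := intervalIntegral.integral_comp_neg (a := 0) (b := Y) (fr b)
    simp only [fr_even, neg_zero] at h2
    exact h2.symm
  rw [← intervalIntegral.integral_add_adjacent_intervals (b := 0) ((fr_cont b).intervalIntegrable _ _)
    ((fr_cont b).intervalIntegrable _ _), h1, two_mul]

private lemma fr_full {b : ℂ} (hb : 0 < b.re) {Y : ℝ} (hY : 0 < Y) :
    ‖(∫ x in (-Y)..Y, fr b x) - (π / b) ^ (1 / 2 : ℂ)‖ ≤ 2 / (‖b‖ * Y) := by
  have hb0 : b ≠ 0 := by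
    rintro rfl
    simp at hb
  have hint : Integrable (fr b) := integrable_cexp_neg_mul_sq hb
  have hlim : Tendsto (fun Z : ℝ => ∫ x in (-Z)..Z, fr b x) atTop (𝓝 (∫ x, fr b x)) :=
    intervalIntegral_tendsto_integral hint tendsto_neg_atTop_atBot tendsto_id
  have hval : ∫ x, fr b x = (π / b) ^ (1 / 2 : ℂ) := integral_gaussian_complex hb
  rw [hval] at hlim
  have hlim' := (tendsto_const_nhds (x := ∫ x in (-Y)..Y, fr b x)).sub hlim |>.norm
  refine le_of_tendsto hlim' ?_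
  filter_upwards [eventually_ge_atTop Y] with Z hZ
  have h1 : (∫ x in (-Y)..Y, fr b x) - ∫ x in (-Z)..Z, fr b x = -(2 * ∫ x in Y..Z, fr b x) := by
    rw [fr_sym, fr_sym, ← intervalIntegral.integral_add_adjacent_intervals (a := 0) (b := Y) (c := Z)
      ((fr_cont b).intervalIntegrable _ _) ((fr_cont b).intervalIntegrable _ _)]
    ring
  rw [h1, norm_neg, norm_mul, Complex.norm_ofNat]
  have h2 := fr_tail hb.le hb0 hY hZ
  calc 2 * ‖∫ x in Y..Z, fr b x‖ ≤ 2 * (1 / (‖b‖ * Y)) := by gcongr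
    _ = 2 / (‖b‖ * Y) := by ring

theorem fresnel : ∃ C : ℝ, 0 ≤ C ∧ ∀ Y : ℝ, 0 < Y → ‖(∫ x in (-Y)..Y, ee (x ^ 2 / 2)) - ee (1 / 8)‖ ≤ C / Y := by
  refine ⟨2 / π, by positivity, fun Y hY => ?_⟩
  let β : ℝ → ℂ := fun ε => (ε : ℂ) - π * Complex.I
  have hβre : ∀ ε, (β ε).re = ε := by
    intro ε
    simp [β]
  have hβn : ∀ ε, π ≤ ‖β ε‖ := by
    intro ε
    have h1 : |(β ε).im| ≤ ‖β ε‖ := Complex.abs_im_le_norm _
    have h2 : (β ε).im = -π := by simp [β]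
    rw [h2, abs_neg, abs_of_pos Real.pi_pos] at h1
    exact h1
  have hβc : Continuous β := by fun_prop
  have hlim1 : Tendsto (fun ε : ℝ => ∫ x in (-Y)..Y, fr (β ε) x) (𝓝[>] 0)
      (𝓝 (∫ x in (-Y)..Y, fr (β 0) x)) := by
    have hc : Continuous (fun ε : ℝ => ∫ x in (-Y)..Y, fr (β ε) x) := by
      apply intervalIntegral.continuous_parametric_intervalIntegral_of_continuous'
      unfold fr
      fun_prop
    exact (hc.tendsto 0).mono_left nhdsWithin_le_nhds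
  have hb0 : (π : ℂ) / β 0 = Complex.I := by
    have h1 : β 0 = -(π * Complex.I) := by simp [β]
    have hπ : (π : ℂ) ≠ 0 := by exact_mod_cast Real.pi_ne_zero
    rw [h1, div_eq_iff (neg_ne_zero.2 (mul_ne_zero hπ Complex.I_ne_zero))]
    have := Complex.I_mul_I
    linear_combination (π : ℂ) * this
  have hlim2 : Tendsto (fun ε : ℝ => ((π : ℂ) / β ε) ^ (1 / 2 : ℂ)) (𝓝[>] 0)
      (𝓝 (Complex.I ^ (1 / 2 : ℂ))) := by
    have h1 : ContinuousAt (fun ε : ℝ => ((π : ℂ) / β ε)) 0 := by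
      refine ContinuousAt.div continuousAt_const hβc.continuousAt ?_
      intro h0
      have := hβn 0
      rw [h0, norm_zero] at this
      linarith [Real.pi_pos]
    have h2 : ContinuousAt (fun z : ℂ => z ^ (1 / 2 : ℂ)) ((π : ℂ) / β 0) := by
      rw [hb0]
      exact continuousAt_cpow_const (by simp [Complex.slitPlane])
    have h3 : ContinuousAt (fun ε : ℝ => ((π : ℂ) / β ε) ^ (1 / 2 : ℂ)) 0 :=
      ContinuousAt.comp (f := fun ε : ℝ => ((π : ℂ) / β ε)) (g := fun z : ℂ => z ^ (1 / 2 : ℂ)) h2 h1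
    have h4 := h3.tendsto.mono_left (nhdsWithin_le_nhds (s := Ioi 0))
    rw [hb0] at h4
    exact h4
  have hI : Complex.I ^ (1 / 2 : ℂ) = ee (1 / 8) := by
    rw [Complex.cpow_def_of_ne_zero Complex.I_ne_zero, Complex.log_I]
    unfold ee
    congr 1
    push_cast
    ring
  have hee : ∀ x : ℝ, fr (β 0) x = ee (x ^ 2 / 2) := by
    intro x
    unfold fr ee
    congr 1
    simp only [β]
    push_cast
    ring
  have hlim := (hlim1.sub hlim2).norm
  simp only [hee, hI] at hlim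
  refine le_of_tendsto hlim ?_
  filter_upwards [self_mem_nhdsWithin] with ε hε
  have hε' : 0 < (β ε).re := by rw [hβre]; exact hε
  refine (fr_full hε' hY).trans ?_
  rw [div_div]
  have := hβn ε
  gcongr

end Pool.Agent.Helper92.EO
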