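import Pool.Agent.Helper92.EO.Main
import Pool.Agent.Helper92.EO.Low
import Pool.Agent.Helper92.EO.Ker

/-!
# EO-O19: conclusion, `Ω₋` for every `C²` support function

PROOF. `exists_ker`; `A` with `2 ≤ A H` (`H` has a positive minimum: continuous periodic). `low` gives `c`, `X₁`; `main_asymp` with `η = c/4`. For `X` large: `R ≥ X`, `K ≤ log R`,
`Av ≤ -(c K^(1/2) - (c/4) K^(1/2) - C) R^(1/2) ≤ -(c/2) K^(1/2) R^(1/2)` (`K → ∞`). With `E = (c/5) K^(1/2) R^(1/2)`: if the error were `≥ -E` on `[R/2, 3R/2]`, `Av_ge` would give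
`Av ≥ -(2c/5) K^(1/2) R^(1/2)`, a contradiction. So some `r ∈ [R/2, 3R/2]` has error `< -E`, and
`K^(1/2) = (log X)^(1/4)/(3 A^(1/2)) ≥ c' (log R)^(1/4) ≥ c'' (log r)^(1/4)`, `R^(1/2) ≥ (2/3)^(1/2) r^(1/2)`; `r ≥ X/2 ≥ R₀`.
-/

open MeasureTheory Real Set Filter Topology

set_option autoImplicit false

namespace Pool.Agent.Helper92.EO

open Pool.Agent.Helper22.AE

/-- a positive lower bound for the support function -/
private theorem om_min {H : ℝ → ℝ} (hH : IsSupp H) : ∃ m : ℝ, 0 < m ∧ ∀ θ, m ≤ H θ := by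
  obtain ⟨x, hx, hmin⟩ := isCompact_Icc.exists_isMinOn (s := Icc (0 : ℝ) (2 * π))
    (nonempty_Icc.2 (by positivity)) hH.smooth.continuous.continuousOn
  refine ⟨H x, hH.pos x, fun θ => ?_⟩
  obtain ⟨y, hy, hyθ⟩ := hH.per.exists_mem_Ico₀ (by positivity : (0 : ℝ) < 2 * π) θ
  rw [hyθ]
  exact hmin ⟨hy.1, hy.2.le⟩

private theorem om_four : (4 : ℝ) ^ (1 / 2 : ℝ) = 2 := by
  rw [← Real.sqrt_eq_rpow, show (4 : ℝ) = 2 ^ 2 by norm_num, Real.sqrt_sq (by norm_num)]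

theorem omega_minus' {H : ℝ → ℝ} (hH : IsSupp H) : ∃ c : ℝ, 0 < c ∧ ∀ R₀ : ℝ, ∃ R : ℝ, R₀ ≤ R ∧
    cnt H R - area H * R ^ 2 ≤ -(c * (R ^ (1 / 2 : ℝ) * (log R) ^ (1 / 4 : ℝ))) := by
  obtain ⟨w, W, hw⟩ := exists_ker
  obtain ⟨m, hm, hmH⟩ := om_min hH
  obtain ⟨A, hA, hA2⟩ : ∃ A : ℝ, 1 ≤ A ∧ ∀ θ, 2 ≤ A * H θ := by
    refine ⟨max 1 (2 / m), le_max_left _ _, fun θ => ?_⟩
    calc (2 : ℝ) = 2 / m * m := by field_simp
      _ ≤ max 1 (2 / m) * H θ := mul_le_mul (le_max_right _ _) (hmH θ) hm.le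
          (zero_le_one.trans (le_max_left _ _))
  have hA0 : 0 < A := by linarith
  obtain ⟨c, X₁, hc, hX₁, hlow⟩ := low hw hH hA
  obtain ⟨C, hC, hmain⟩ := main_asymp hw hH hA hA2
  obtain ⟨R₁, hR₁, hmain⟩ := hmain (c / 4) (by linarith)
  refine ⟨c / 5 * (1 / (27 * A)) ^ (1 / 2 : ℝ), by positivity, fun R₀ => ?_⟩
  set Y : ℝ := 9 * A * (4 * C / c) ^ 2 with hY
  have hY0 : 0 ≤ Y := by positivity
  obtain ⟨X, hX1, hX2, hX3, hX4⟩ : ∃ X : ℝ, X₁ ≤ X ∧ R₁ ≤ X ∧ 2 * R₀ ≤ X ∧ exp (Y ^ 2 + 1) ≤ X :=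
    ⟨max (max X₁ R₁) (max (2 * R₀) (exp (Y ^ 2 + 1))), (le_max_left _ _).trans (le_max_left _ _),
      (le_max_right _ _).trans (le_max_left _ _), (le_max_left _ _).trans (le_max_right _ _),
      (le_max_right _ _).trans (le_max_right _ _)⟩
  have hX0 : 0 < X := (exp_pos _).trans_le hX4
  have hlX : Y ^ 2 + 1 ≤ log X := by
    rw [Real.le_log_iff_exp_le hX0]
    exact hX4
  have hlX1 : 1 ≤ log X := by nlinarith [sq_nonneg Y]
  have hlX0 : 0 < log X := by linarith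
  obtain ⟨R, K, hXR, hlR, hK1, hK, hmT⟩ := hlow X hX1
  have hR2 : 2 ≤ R := hX₁.trans (hX1.trans hXR)
  have hR0 : 0 < R := by linarith
  have hK0 : 0 < K := by linarith
  have hlXR : log X ≤ log R := Real.log_le_log hX0 hXR
  have hsq : (log X) ^ (1 / 2 : ℝ) = 9 * A * K := by
    rw [hK]; field_simp
  -- `K ≤ log R`
  have hKl : K ≤ log R := by
    have h1 : (log X) ^ (1 / 2 : ℝ) ≤ log X := by
      calc (log X) ^ (1 / 2 : ℝ) ≤ (log X) ^ (1 : ℝ) :=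
            Real.rpow_le_rpow_of_exponent_le hlX1 (by norm_num)
        _ = log X := Real.rpow_one _
    have h2 : K ≤ 9 * A * K := by nlinarith
    linarith [hsq]
  -- the constant is absorbed
  have hCK : C ≤ c / 4 * K ^ (1 / 2 : ℝ) := by
    have h1 : Y ≤ (log X) ^ (1 / 2 : ℝ) := by
      rw [← Real.sqrt_eq_rpow]
      exact Real.le_sqrt_of_sq_le (by linarith)
    have h2 : (4 * C / c) ^ 2 ≤ K := by
      rw [hsq, hY] at h1
      exact le_of_mul_le_mul_left h1 (by positivity)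
    have h3 : 4 * C / c ≤ K ^ (1 / 2 : ℝ) := by
      rw [← Real.sqrt_eq_rpow]
      exact Real.le_sqrt_of_sq_le h2
    rw [div_le_iff₀ hc] at h3
    linarith
  have hKp : 0 < K ^ (1 / 2 : ℝ) := Real.rpow_pos_of_pos hK0 _
  have hRp : 0 < R ^ (1 / 2 : ℝ) := Real.rpow_pos_of_pos hR0 _
  have hZ : 0 < R ^ (1 / 2 : ℝ) * K ^ (1 / 2 : ℝ) := mul_pos hRp hKp
  have hAv : Av w H K R ≤ -(c / 2 * (R ^ (1 / 2 : ℝ) * K ^ (1 / 2 : ℝ))) := by
    have h1 := (abs_le.1 (hmain R K (hX2.trans hXR) hK1 hKl)).2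
    have h2 : (c / 4 * K ^ (1 / 2 : ℝ) + C) * R ^ (1 / 2 : ℝ) ≤
        (c / 4 * K ^ (1 / 2 : ℝ) + c / 4 * K ^ (1 / 2 : ℝ)) * R ^ (1 / 2 : ℝ) :=
      mul_le_mul_of_nonneg_right (by linarith) hRp.le
    nlinarith [h1, h2, hmT]
  obtain ⟨r, hr, hrE⟩ : ∃ r ∈ Icc (R / 2) (3 * R / 2),
      cnt H r - area H * r ^ 2 < -(c / 5 * (R ^ (1 / 2 : ℝ) * K ^ (1 / 2 : ℝ))) := by
    by_contra hcon
    push Not at hcon
    have h1 := Av_ge hw hH hK0 hR0 (by positivity) hcon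
    nlinarith
  refine ⟨r, by linarith [hr.1], hrE.le.trans (neg_le_neg ?_)⟩
  have hr1 : 1 ≤ r := by linarith [hr.1]
  have hr0 : 0 < r := by linarith
  have hlr0 : 0 ≤ log r := Real.log_nonneg hr1
  have hlr : log r ≤ 4 * log X := by
    have h1 : log r ≤ log (R * R) := by
      refine Real.log_le_log hr0 (hr.2.trans ?_)
      nlinarith
    rw [Real.log_mul hR0.ne' hR0.ne'] at h1
    linarith
  have hs1 : (log r) ^ (1 / 2 : ℝ) ≤ 18 * A * K := by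
    calc (log r) ^ (1 / 2 : ℝ) ≤ (4 * log X) ^ (1 / 2 : ℝ) :=
          Real.rpow_le_rpow hlr0 hlr (by norm_num)
      _ = 2 * (9 * A * K) := by
          rw [Real.mul_rpow (by norm_num) hlX0.le, om_four, hsq]
      _ = 18 * A * K := by ring
  have hs0 : 0 ≤ (log r) ^ (1 / 2 : ℝ) := Real.rpow_nonneg hlr0 _
  have h4 : (log r) ^ (1 / 4 : ℝ) = ((log r) ^ (1 / 2 : ℝ)) ^ (1 / 2 : ℝ) := by
    rw [← Real.rpow_mul hlr0]
    norm_num
  have h5 : (1 / (27 * A)) ^ (1 / 2 : ℝ) * (r ^ (1 / 2 : ℝ) * (log r) ^ (1 / 4 : ℝ)) ≤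
      R ^ (1 / 2 : ℝ) * K ^ (1 / 2 : ℝ) := by
    rw [h4, ← Real.mul_rpow hr0.le hs0, ← Real.mul_rpow (by positivity) (by positivity),
      ← Real.mul_rpow hR0.le hK0.le]
    refine Real.rpow_le_rpow (by positivity) ?_ (by norm_num)
    calc 1 / (27 * A) * (r * (log r) ^ (1 / 2 : ℝ)) ≤ 1 / (27 * A) * (3 * R / 2 * (18 * A * K)) := by
          refine mul_le_mul_of_nonneg_left ?_ (by positivity)
          exact mul_le_mul hr.2 hs1 hs0 (by positivity)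
      _ = R * K := by field_simp; ring
  calc c / 5 * (1 / (27 * A)) ^ (1 / 2 : ℝ) * (r ^ (1 / 2 : ℝ) * (log r) ^ (1 / 4 : ℝ))
      = c / 5 * ((1 / (27 * A)) ^ (1 / 2 : ℝ) * (r ^ (1 / 2 : ℝ) * (log r) ^ (1 / 4 : ℝ))) := by ring
    _ ≤ c / 5 * (R ^ (1 / 2 : ℝ) * K ^ (1 / 2 : ℝ)) :=
        mul_le_mul_of_nonneg_left h5 (by positivity)

end Pool.Agent.Helper92.EO
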